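import Pool.Agent.Lib_helper40.UP.Comb
import Mathlib.Data.ZMod.Basic

/-!
# Three effective divisors on the cyclic group of order nine: the reduction to labelled patterns
-/

set_option autoImplicit false
set_option linter.unusedSectionVars false
set_option linter.unusedVariables false

namespace Pool.Agent.UP9

open UP

/-- the exceptional triples on `Z/9` -/
def Ex9 (A B C : ZMod 9 → ℤ) : Prop :=
  (A = ![3,0,0,0,0,0,0,0,0] ∧ B = ![0,0,0,3,0,0,0,0,0] ∧ C = ![0,0,0,0,0,0,3,0,0]) ∨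
  (A = ![3,0,0,3,0,0,3,0,0] ∧ B = ![0,3,0,0,3,0,0,3,0] ∧ C = ![0,0,3,0,0,3,0,0,3])

/-- the six orders -/
def Six (A B C : ZMod 9 → ℤ) : Prop :=
  Ex9 A B C ∨ Ex9 A C B ∨ Ex9 B A C ∨ Ex9 B C A ∨ Ex9 C A B ∨ Ex9 C B A

/-- the conclusion -/
def Con9 (D E G : ZMod 9 → ℤ) : Prop :=
  (∃ (S p q r : ZMod 9) (n : ℤ), 0 < n ∧ (∀ x, D x = n * mz S p x) ∧ (∀ x, E x = n * mz S r x) ∧
    (∀ x, G x = n * mz S q x)) ∨
  ∃ t : ZMod 9, Six (fun x => D (x + t)) (fun x => E (x + t)) (fun x => G (x + t))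

/-- the hypotheses -/
structure H9 (D E G : ZMod 9 → ℤ) (d : ℤ) : Prop extends Tr D E G d where
  rh : d ≤ Fintype.card {x // D x ≠ 0} + Fintype.card {x // E x ≠ 0} + Fintype.card {x // G x ≠ 0}
  s1 : ∑ x : ZMod 9, (D x - G x) • x = 0
  s2 : ∑ x : ZMod 9, (E x - G x) • x = 0

lemma sum9 {V : Type*} [AddCommMonoid V] (f : ZMod 9 → V) :
    ∑ x, f x = f 0 + f 1 + f 2 + f 3 + f 4 + f 5 + f 6 + f 7 + f 8 := by
  have := Fin.sum_univ_castSucc (n := 8) (f : Fin 9 → V)
  rw [Fin.sum_univ_eight] at this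
  exact this

lemma all9 {P : ZMod 9 → Prop} (h0 : P 0) (h1 : P 1) (h2 : P 2) (h3 : P 3) (h4 : P 4) (h5 : P 5)
    (h6 : P 6) (h7 : P 7) (h8 : P 8) : ∀ x, P x := by
  intro x
  fin_cases x
  exacts [h0, h1, h2, h3, h4, h5, h6, h7, h8]

lemma arith9 : ∀ T δ x : ZMod 9, 3 * δ ≠ 0 → ∃ k : Fin 9, x = T + (k : ℕ) • δ := by
  decide +kernel

variable {D E G : ZMod 9 → ℤ} {d : ℤ}

/-- the symmetry -/
lemma _root_.Pool.Agent.UP.Tr.symm9 (h : Tr D E G d) {T T' : ZMod 9} (hT : D T ≠ 0) (hT' : D T' ≠ 0)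
    (h0 : 3 * (T' - T) ≠ 0) (x : ZMod 9) : E (T + T' - x) = E x := by
  set M : ZMod 9 → ℤ := fun x => E x - G x with hM
  obtain ⟨f, hf⟩ : ∃ f : ZMod 9 → ℤ, ∀ x, f x = M x - M (T + T' - x) := ⟨_, fun _ => rfl⟩
  have h1 : ∀ x, f (x + (T' - T)) = f x := by
    intro x
    have := h.rd T T' hT hT' (x - T)
    have a1 : T - (x - T) = T + T' - (x + (T' - T)) := by abel
    have a2 : T + (x - T) = x := by abel
    have a3 : T' - (x - T) = T + T' - x := by abel
    have a4 : T' + (x - T) = x + (T' - T) := by abel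
    rw [a1, a2, a3, a4] at this
    rw [hf, hf]
    simp only [hM] at this ⊢
    linarith
  have h2 : ∀ (k : ℕ) x, f (x + k • (T' - T)) = f x := by
    intro k
    induction k with
    | zero => intro x; rw [zero_smul, add_zero]
    | succ n ih => intro x; rw [succ_nsmul, ← add_assoc, h1, ih]
  have e1 : M T = 0 := by
    show E T - G T = 0
    rw [h.de T hT, h.sw.de T hT, sub_zero]
  have e2 : M T' = 0 := by
    show E T' - G T' = 0
    rw [h.de T' hT', h.sw.de T' hT', sub_zero]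
  have h3 : f x = 0 := by
    obtain ⟨k, hk⟩ := arith9 T (T' - T) x h0
    rw [hk, h2, hf, e1]
    have : T + T' - T = T' := by abel
    rw [this, e2, sub_zero]
  have h4' : M (T + T' - x) = M x := by
    rw [hf] at h3
    linarith
  have key : ∀ x, E x = max (M x) 0 := by
    intro x
    show E x = max (E x - G x) 0
    by_cases hE : E x = 0
    · rw [hE]
      have := h.g0 x
      omega
    · rw [h.eg x hE, sub_zero]
      have := h.e0 x
      omega
  rw [key (T + T' - x), key x, h4']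

/-- the label of a point -/
def lab (D E G : ZMod 9 → ℤ) (x : ZMod 9) : ℕ :=
  if D x ≠ 0 then 1 else if E x ≠ 0 then 2 else if G x ≠ 0 then 3 else 0

lemma lab_lt (x : ZMod 9) : lab D E G x < 4 := by
  unfold lab
  split_ifs <;> norm_num

lemma _root_.Pool.Agent.UP.Tr.nlab1 (h : Tr D E G d) {x : ZMod 9} (hx : lab D E G x = 1) :
    1 ≤ D x ∧ E x = 0 ∧ G x = 0 := by
  unfold lab at hx
  split_ifs at hx with h1 h2 h3
  · have := h.d0 x
    exact ⟨by omega, h.de x h1, h.sw.de x h1⟩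
  all_goals omega

lemma _root_.Pool.Agent.UP.Tr.nlab2 (h : Tr D E G d) {x : ZMod 9} (hx : lab D E G x = 2) :
    D x = 0 ∧ 1 ≤ E x ∧ G x = 0 := by
  unfold lab at hx
  split_ifs at hx with h1 h2 h3
  · omega
  · have := h.e0 x
    exact ⟨by omega, by omega, h.eg x h2⟩
  all_goals omega

lemma _root_.Pool.Agent.UP.Tr.nlab3 (h : Tr D E G d) {x : ZMod 9} (hx : lab D E G x = 3) :
    D x = 0 ∧ E x = 0 ∧ 1 ≤ G x := by
  unfold lab at hx
  split_ifs at hx with h1 h2 h3
  · omega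
  · omega
  · have := h.g0 x
    exact ⟨by omega, by omega, by omega⟩

lemma lab0 {x : ZMod 9} (hx : lab D E G x = 0) :
    D x = 0 ∧ E x = 0 ∧ G x = 0 := by
  unfold lab at hx
  split_ifs at hx with h1 h2 h3
  all_goals exact ⟨by omega, by omega, by omega⟩

lemma _root_.Pool.Agent.UP.Tr.nlab1_iff (h : Tr D E G d) {x : ZMod 9} : lab D E G x = 1 ↔ D x ≠ 0 := by
  constructor
  · intro hx
    have := (h.nlab1 hx).1
    omega
  · intro hx
    unfold lab
    rw [if_pos hx]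

lemma _root_.Pool.Agent.UP.Tr.nlab2_iff (h : Tr D E G d) {x : ZMod 9} : lab D E G x = 2 ↔ E x ≠ 0 := by
  constructor
  · intro hx
    have := (h.nlab2 hx).2.1
    omega
  · intro hx
    unfold lab
    have : D x = 0 := by
      by_contra h0
      exact hx (h.de x h0)
    rw [if_neg (by rw [this]; simp), if_pos hx]

lemma _root_.Pool.Agent.UP.Tr.nlab3_iff (h : Tr D E G d) {x : ZMod 9} : lab D E G x = 3 ↔ G x ≠ 0 := by
  constructor
  · intro hx
    have := (h.nlab3 hx).2.2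
    omega
  · intro hx
    unfold lab
    have h1 : D x = 0 := h.gd x hx
    have h2 : E x = 0 := by
      by_contra h0
      exact hx (h.eg x h0)
    rw [if_neg (by rw [h1]; simp), if_neg (by rw [h2]; simp), if_pos hx]

/-- the condition on the labels -/
lemma _root_.Pool.Agent.UP.Tr.nlab_symm (h : Tr D E G d) {T U : ZMod 9} (h0 : 3 * (U - T) ≠ 0)
    (hTU : lab D E G T = lab D E G U) (hT : lab D E G T ≠ 0) (x : ZMod 9)
    (hx : lab D E G x ≠ 0) (hxT : lab D E G x ≠ lab D E G T) :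
    lab D E G (T + U - x) = lab D E G x := by
  have a1 := lab_lt (D := D) (E := E) (G := G) T
  have a2 := lab_lt (D := D) (E := E) (G := G) x
  have hh : lab D E G T = 1 ∨ lab D E G T = 2 ∨ lab D E G T = 3 := by omega
  have hh' : lab D E G x = 1 ∨ lab D E G x = 2 ∨ lab D E G x = 3 := by omega
  rcases hh with hh | hh | hh <;> rcases hh' with hx' | hx' | hx'
  · omega
  · have e1 := h.nlab1_iff.mp hh
    have e2 := h.nlab1_iff.mp (hTU.symm.trans hh)
    have e3 := h.symm9 e1 e2 h0 x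
    rw [hx', h.nlab2_iff, e3]
    exact h.nlab2_iff.mp hx'
  · have e1 := h.nlab1_iff.mp hh
    have e2 := h.nlab1_iff.mp (hTU.symm.trans hh)
    have e3 := h.sw.symm9 e1 e2 h0 x
    rw [hx', h.nlab3_iff, e3]
    exact h.nlab3_iff.mp hx'
  · have e1 := h.nlab2_iff.mp hh
    have e2 := h.nlab2_iff.mp (hTU.symm.trans hh)
    have e3 := h.rot.sw.symm9 e1 e2 h0 x
    rw [hx', h.nlab1_iff, e3]
    exact h.nlab1_iff.mp hx'
  · omega
  · have e1 := h.nlab2_iff.mp hh
    have e2 := h.nlab2_iff.mp (hTU.symm.trans hh)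
    have e3 := h.rot.symm9 e1 e2 h0 x
    rw [hx', h.nlab3_iff, e3]
    exact h.nlab3_iff.mp hx'
  · have e1 := h.nlab3_iff.mp hh
    have e2 := h.nlab3_iff.mp (hTU.symm.trans hh)
    have e3 := h.rot.rot.symm9 e1 e2 h0 x
    rw [hx', h.nlab1_iff, e3]
    exact h.nlab1_iff.mp hx'
  · have e1 := h.nlab3_iff.mp hh
    have e2 := h.nlab3_iff.mp (hTU.symm.trans hh)
    have e3 := h.rot.rot.sw.symm9 e1 e2 h0 x
    rw [hx', h.nlab2_iff, e3]
    exact h.nlab2_iff.mp hx'
  · omega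

end Pool.Agent.UP9
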