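import Pool.Agent.Lib_helper40.UP9.Red9

/-!
# The normal forms
-/

set_option autoImplicit false
set_option linter.unusedVariables false
set_option linter.unusedSimpArgs false

namespace Pool.Agent.UP9

open UP

variable {D E G : ZMod 9 → ℤ} {d : ℤ}

lemma hl9 {c : ℕ} (hl : ∀ i : ℕ, i < 9 → lab D E G (i : ZMod 9) = dg c i) :
    lab D E G 0 = dg c 0 ∧ lab D E G 1 = dg c 1 ∧ lab D E G 2 = dg c 2 ∧ lab D E G 3 = dg c 3 ∧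
    lab D E G 4 = dg c 4 ∧ lab D E G 5 = dg c 5 ∧ lab D E G 6 = dg c 6 ∧ lab D E G 7 = dg c 7 ∧
    lab D E G 8 = dg c 8 :=
  ⟨by simpa using hl 0 (by norm_num), by simpa using hl 1 (by norm_num),
    by simpa using hl 2 (by norm_num), by simpa using hl 3 (by norm_num),
    by simpa using hl 4 (by norm_num), by simpa using hl 5 (by norm_num),
    by simpa using hl 6 (by norm_num), by simpa using hl 7 (by norm_num),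
    by simpa using hl 8 (by norm_num)⟩

lemma _root_.Pool.Agent.UP.Tr.s9 (h : Tr D E G d) : D 0 + D 1 + D 2 + D 3 + D 4 + D 5 + D 6 + D 7 + D 8 = d := by
  rw [← sum9]; exact h.sd

lemma nz9 {a : ℤ} (h : 1 ≤ a) : a ≠ 0 := by omega

lemma card9 (D : ZMod 9 → ℤ) :
    (Fintype.card {x // D x ≠ 0} : ℤ) = ∑ x, if D x ≠ 0 then 1 else 0 := by
  rw [Fintype.card_subtype, Finset.card_filter]
  push_cast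
  rfl

/-- the number of nonzero digits -/
def nzd (n : ℕ) : ℕ := min 1 (dg n 0) + min 1 (dg n 1) + min 1 (dg n 2) + min 1 (dg n 3) +
  min 1 (dg n 4) + min 1 (dg n 5) + min 1 (dg n 6) + min 1 (dg n 7) + min 1 (dg n 8)

lemma H9.rh9 (h : H9 D E G d) {c : ℕ}
    (hl : ∀ i : ℕ, i < 9 → lab D E G (i : ZMod 9) = dg c i) : d ≤ nzd c := by
  have h1 : ∀ x, ((if D x ≠ 0 then 1 else 0 : ℤ) + if E x ≠ 0 then 1 else 0) +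
      (if G x ≠ 0 then 1 else 0) = ((min 1 (lab D E G x) : ℕ) : ℤ) := by
    intro x
    have h4 := lab_lt (D := D) (E := E) (G := G) x
    have : lab D E G x = 0 ∨ lab D E G x = 1 ∨ lab D E G x = 2 ∨ lab D E G x = 3 := by omega
    rcases this with e | e | e | e
    · obtain ⟨a1, a2, a3⟩ := lab0 e
      rw [e, a1, a2, a3]
      simp
    · obtain ⟨a1, a2, a3⟩ := h.toTr.nlab1 e
      rw [e, a2, a3, if_pos (by omega)]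
      simp
    · obtain ⟨a1, a2, a3⟩ := h.toTr.nlab2 e
      rw [e, a1, a3, if_pos (c := E x ≠ 0) (by omega)]
      simp
    · obtain ⟨a1, a2, a3⟩ := h.toTr.nlab3 e
      rw [e, a1, a2, if_pos (c := G x ≠ 0) (by omega)]
      simp
  have h2 := h.rh
  rw [card9, card9, card9, ← Finset.sum_add_distrib, ← Finset.sum_add_distrib,
    Finset.sum_congr rfl fun x _ => h1 x, sum9] at h2
  obtain ⟨a0, a1, a2, a3, a4, a5, a6, a7, a8⟩ := hl9 hl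
  rw [a0, a1, a2, a3, a4, a5, a6, a7, a8] at h2
  unfold nzd
  push_cast at h2 ⊢
  exact h2

lemma dvd9 {D G : ZMod 9 → ℤ} (h : ∑ x : ZMod 9, (D x - G x) • x = 0) :
    (9 : ℤ) ∣ (D 1 - G 1) + 2 * (D 2 - G 2) + 3 * (D 3 - G 3) + 4 * (D 4 - G 4) +
      5 * (D 5 - G 5) + 6 * (D 6 - G 6) + 7 * (D 7 - G 7) + 8 * (D 8 - G 8) := by
  have h1 := (ZMod.intCast_zmod_eq_zero_iff_dvd ((D 1 - G 1) + 2 * (D 2 - G 2) +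
    3 * (D 3 - G 3) + 4 * (D 4 - G 4) + 5 * (D 5 - G 5) + 6 * (D 6 - G 6) + 7 * (D 7 - G 7) + 8 * (D 8 - G 8)) 9).mp
  have h2 : ((9 : ℕ) : ℤ) = 9 := rfl
  rw [h2] at h1
  apply h1
  rw [sum9] at h
  simp only [zsmul_eq_mul] at h
  push_cast at h ⊢
  rw [← h]
  ring


lemma cas_4227 (h : H9 D E G d)
    (hl : ∀ i : ℕ, i < 9 → lab D E G (i : ZMod 9) = dg 4227 i) : Con9 D E G := by
  have hk : d ≤ 3 := h.rh9 hl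
  obtain ⟨a0, a1, a2, a3, a4, a5, a6, a7, a8⟩ := hl9 hl
  obtain ⟨x0, y0, z0⟩ := h.toTr.nlab3 (a0.trans rfl)
  obtain ⟨x1, y1, z1⟩ := lab0 (a1.trans rfl)
  obtain ⟨x2, y2, z2⟩ := lab0 (a2.trans rfl)
  obtain ⟨x3, y3, z3⟩ := h.toTr.nlab2 (a3.trans rfl)
  obtain ⟨x4, y4, z4⟩ := lab0 (a4.trans rfl)
  obtain ⟨x5, y5, z5⟩ := lab0 (a5.trans rfl)
  obtain ⟨x6, y6, z6⟩ := h.toTr.nlab1 (a6.trans rfl)
  obtain ⟨x7, y7, z7⟩ := lab0 (a7.trans rfl)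
  obtain ⟨x8, y8, z8⟩ := lab0 (a8.trans rfl)
  have sD := h.toTr.s9
  have sE := h.toTr.rot.s9
  have sG := h.toTr.rot.rot.s9
  have pd := h.pos
  have v1 := dvd9 h.s1
  have v2 := dvd9 h.s2
  simp only [x0, x1, x2, x3, x4, x5, x7, x8, y0, y1, y2, y4, y5, y6, y7, y8, z1, z2, z3, z4, z5, z6, z7, z8, sub_zero, zero_sub, add_zero, zero_add, mul_zero, sub_self] at sD sE sG v1 v2
  clear hl a0 a1 a2 a3 a4 a5 a6 a7 a8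
  have hh : (D 6 = 3 ∧ E 3 = 3 ∧ G 0 = 3) := by
    clear x0 x1 x2 x3 x4 x5 x7 x8 y0 y1 y2 y4 y5 y6 y7 y8 z1 z2 z3 z4 z5 z6 z7 z8
    omega
  rcases hh with hh
  · refine Or.inr ⟨0, (Or.inr (Or.inr (Or.inr (Or.inr (Or.inr (Or.inl ⟨funext (all9 ?_ ?_ ?_ ?_ ?_ ?_ ?_ ?_ ?_),
      funext (all9 ?_ ?_ ?_ ?_ ?_ ?_ ?_ ?_ ?_), funext (all9 ?_ ?_ ?_ ?_ ?_ ?_ ?_ ?_ ?_)⟩))))))⟩
    · show G 0 = 3
      exact hh.2.2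
    · exact z1
    · exact z2
    · exact z3
    · exact z4
    · exact z5
    · exact z6
    · exact z7
    · exact z8
    · exact y0
    · exact y1
    · exact y2
    · show E 3 = 3
      exact hh.2.1
    · exact y4
    · exact y5
    · exact y6
    · exact y7
    · exact y8
    · exact x0
    · exact x1
    · exact x2
    · exact x3
    · exact x4
    · exact x5
    · show D 6 = 3
      exact hh.1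
    · exact x7
    · exact x8

lemma cas_4131 (h : H9 D E G d)
    (hl : ∀ i : ℕ, i < 9 → lab D E G (i : ZMod 9) = dg 4131 i) : Con9 D E G := by
  have hk : d ≤ 3 := h.rh9 hl
  obtain ⟨a0, a1, a2, a3, a4, a5, a6, a7, a8⟩ := hl9 hl
  obtain ⟨x0, y0, z0⟩ := h.toTr.nlab3 (a0.trans rfl)
  obtain ⟨x1, y1, z1⟩ := lab0 (a1.trans rfl)
  obtain ⟨x2, y2, z2⟩ := h.toTr.nlab2 (a2.trans rfl)
  obtain ⟨x3, y3, z3⟩ := lab0 (a3.trans rfl)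
  obtain ⟨x4, y4, z4⟩ := lab0 (a4.trans rfl)
  obtain ⟨x5, y5, z5⟩ := lab0 (a5.trans rfl)
  obtain ⟨x6, y6, z6⟩ := h.toTr.nlab1 (a6.trans rfl)
  obtain ⟨x7, y7, z7⟩ := lab0 (a7.trans rfl)
  obtain ⟨x8, y8, z8⟩ := lab0 (a8.trans rfl)
  have sD := h.toTr.s9
  have sE := h.toTr.rot.s9
  have sG := h.toTr.rot.rot.s9
  have pd := h.pos
  have v1 := dvd9 h.s1
  have v2 := dvd9 h.s2
  simp only [x0, x1, x2, x3, x4, x5, x7, x8, y0, y1, y3, y4, y5, y6, y7, y8, z1, z2, z3, z4, z5, z6, z7, z8, sub_zero, zero_sub, add_zero, zero_add, mul_zero, sub_self] at sD sE sG v1 v2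
  clear hl a0 a1 a2 a3 a4 a5 a6 a7 a8
  clear x0 x1 x2 x3 x4 x5 x7 x8 y0 y1 y3 y4 y5 y6 y7 y8 z1 z2 z3 z4 z5 z6 z7 z8
  exfalso
  omega

lemma cas_1059 (h : H9 D E G d)
    (hl : ∀ i : ℕ, i < 9 → lab D E G (i : ZMod 9) = dg 1059 i) : Con9 D E G := by
  have hk : d ≤ 3 := h.rh9 hl
  obtain ⟨a0, a1, a2, a3, a4, a5, a6, a7, a8⟩ := hl9 hl
  obtain ⟨x0, y0, z0⟩ := h.toTr.nlab3 (a0.trans rfl)
  obtain ⟨x1, y1, z1⟩ := lab0 (a1.trans rfl)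
  obtain ⟨x2, y2, z2⟩ := h.toTr.nlab2 (a2.trans rfl)
  obtain ⟨x3, y3, z3⟩ := lab0 (a3.trans rfl)
  obtain ⟨x4, y4, z4⟩ := lab0 (a4.trans rfl)
  obtain ⟨x5, y5, z5⟩ := h.toTr.nlab1 (a5.trans rfl)
  obtain ⟨x6, y6, z6⟩ := lab0 (a6.trans rfl)
  obtain ⟨x7, y7, z7⟩ := lab0 (a7.trans rfl)
  obtain ⟨x8, y8, z8⟩ := lab0 (a8.trans rfl)
  have sD := h.toTr.s9
  have sE := h.toTr.rot.s9
  have sG := h.toTr.rot.rot.s9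
  have pd := h.pos
  have v1 := dvd9 h.s1
  have v2 := dvd9 h.s2
  simp only [x0, x1, x2, x3, x4, x6, x7, x8, y0, y1, y3, y4, y5, y6, y7, y8, z1, z2, z3, z4, z5, z6, z7, z8, sub_zero, zero_sub, add_zero, zero_add, mul_zero, sub_self] at sD sE sG v1 v2
  clear hl a0 a1 a2 a3 a4 a5 a6 a7 a8
  clear x0 x1 x2 x3 x4 x6 x7 x8 y0 y1 y3 y4 y5 y6 y7 y8 z1 z2 z3 z4 z5 z6 z7 z8
  exfalso
  omega

lemma cas_291 (h : H9 D E G d)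
    (hl : ∀ i : ℕ, i < 9 → lab D E G (i : ZMod 9) = dg 291 i) : Con9 D E G := by
  have hk : d ≤ 3 := h.rh9 hl
  obtain ⟨a0, a1, a2, a3, a4, a5, a6, a7, a8⟩ := hl9 hl
  obtain ⟨x0, y0, z0⟩ := h.toTr.nlab3 (a0.trans rfl)
  obtain ⟨x1, y1, z1⟩ := lab0 (a1.trans rfl)
  obtain ⟨x2, y2, z2⟩ := h.toTr.nlab2 (a2.trans rfl)
  obtain ⟨x3, y3, z3⟩ := lab0 (a3.trans rfl)
  obtain ⟨x4, y4, z4⟩ := h.toTr.nlab1 (a4.trans rfl)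
  obtain ⟨x5, y5, z5⟩ := lab0 (a5.trans rfl)
  obtain ⟨x6, y6, z6⟩ := lab0 (a6.trans rfl)
  obtain ⟨x7, y7, z7⟩ := lab0 (a7.trans rfl)
  obtain ⟨x8, y8, z8⟩ := lab0 (a8.trans rfl)
  have sD := h.toTr.s9
  have sE := h.toTr.rot.s9
  have sG := h.toTr.rot.rot.s9
  have pd := h.pos
  have v1 := dvd9 h.s1
  have v2 := dvd9 h.s2
  simp only [x0, x1, x2, x3, x5, x6, x7, x8, y0, y1, y3, y4, y5, y6, y7, y8, z1, z2, z3, z4, z5, z6, z7, z8, sub_zero, zero_sub, add_zero, zero_add, mul_zero, sub_self] at sD sE sG v1 v2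
  clear hl a0 a1 a2 a3 a4 a5 a6 a7 a8
  clear x0 x1 x2 x3 x5 x6 x7 x8 y0 y1 y3 y4 y5 y6 y7 y8 z1 z2 z3 z4 z5 z6 z7 z8
  exfalso
  omega

lemma cas_12579 (h : H9 D E G d)
    (hl : ∀ i : ℕ, i < 9 → lab D E G (i : ZMod 9) = dg 12579 i) : Con9 D E G := by
  have hk : d ≤ 4 := h.rh9 hl
  obtain ⟨a0, a1, a2, a3, a4, a5, a6, a7, a8⟩ := hl9 hl
  obtain ⟨x0, y0, z0⟩ := h.toTr.nlab3 (a0.trans rfl)
  obtain ⟨x1, y1, z1⟩ := lab0 (a1.trans rfl)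
  obtain ⟨x2, y2, z2⟩ := h.toTr.nlab2 (a2.trans rfl)
  obtain ⟨x3, y3, z3⟩ := lab0 (a3.trans rfl)
  obtain ⟨x4, y4, z4⟩ := h.toTr.nlab1 (a4.trans rfl)
  obtain ⟨x5, y5, z5⟩ := lab0 (a5.trans rfl)
  obtain ⟨x6, y6, z6⟩ := h.toTr.nlab3 (a6.trans rfl)
  obtain ⟨x7, y7, z7⟩ := lab0 (a7.trans rfl)
  obtain ⟨x8, y8, z8⟩ := lab0 (a8.trans rfl)
  have sD := h.toTr.s9
  have sE := h.toTr.rot.s9
  have sG := h.toTr.rot.rot.s9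
  have pd := h.pos
  have v1 := dvd9 h.s1
  have v2 := dvd9 h.s2
  have r1 : (D 8 - E 8) + (D 1 - E 1) = (D 5 - E 5) + (D 7 - E 7) :=
    h.rg 0 6 (nz9 z0) (nz9 z6) 1
  have r2 : (D 7 - E 7) + (D 2 - E 2) = (D 4 - E 4) + (D 8 - E 8) :=
    h.rg 0 6 (nz9 z0) (nz9 z6) 2
  have r3 : (D 6 - E 6) + (D 3 - E 3) = (D 3 - E 3) + (D 0 - E 0) :=
    h.rg 0 6 (nz9 z0) (nz9 z6) 3
  have r4 : (D 5 - E 5) + (D 4 - E 4) = (D 2 - E 2) + (D 1 - E 1) :=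
    h.rg 0 6 (nz9 z0) (nz9 z6) 4
  simp only [x0, x1, x2, x3, x5, x6, x7, x8, y0, y1, y3, y4, y5, y6, y7, y8, z1, z2, z3, z4, z5, z7, z8, sub_zero, zero_sub, add_zero, zero_add, mul_zero, sub_self] at sD sE sG v1 v2 r1 r2 r3 r4
  clear hl a0 a1 a2 a3 a4 a5 a6 a7 a8
  clear x0 x1 x2 x3 x5 x6 x7 x8 y0 y1 y3 y4 y5 y6 y7 y8 z1 z2 z3 z4 z5 z7 z8
  exfalso
  omega

lemma cas_16395 (h : H9 D E G d)
    (hl : ∀ i : ℕ, i < 9 → lab D E G (i : ZMod 9) = dg 16395 i) : Con9 D E G := by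
  have hk : d ≤ 3 := h.rh9 hl
  obtain ⟨a0, a1, a2, a3, a4, a5, a6, a7, a8⟩ := hl9 hl
  obtain ⟨x0, y0, z0⟩ := h.toTr.nlab3 (a0.trans rfl)
  obtain ⟨x1, y1, z1⟩ := h.toTr.nlab2 (a1.trans rfl)
  obtain ⟨x2, y2, z2⟩ := lab0 (a2.trans rfl)
  obtain ⟨x3, y3, z3⟩ := lab0 (a3.trans rfl)
  obtain ⟨x4, y4, z4⟩ := lab0 (a4.trans rfl)
  obtain ⟨x5, y5, z5⟩ := lab0 (a5.trans rfl)
  obtain ⟨x6, y6, z6⟩ := lab0 (a6.trans rfl)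
  obtain ⟨x7, y7, z7⟩ := h.toTr.nlab1 (a7.trans rfl)
  obtain ⟨x8, y8, z8⟩ := lab0 (a8.trans rfl)
  have sD := h.toTr.s9
  have sE := h.toTr.rot.s9
  have sG := h.toTr.rot.rot.s9
  have pd := h.pos
  have v1 := dvd9 h.s1
  have v2 := dvd9 h.s2
  simp only [x0, x1, x2, x3, x4, x5, x6, x8, y0, y2, y3, y4, y5, y6, y7, y8, z1, z2, z3, z4, z5, z6, z7, z8, sub_zero, zero_sub, add_zero, zero_add, mul_zero, sub_self] at sD sE sG v1 v2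
  clear hl a0 a1 a2 a3 a4 a5 a6 a7 a8
  clear x0 x1 x2 x3 x4 x5 x6 x8 y0 y2 y3 y4 y5 y6 y7 y8 z1 z2 z3 z4 z5 z6 z7 z8
  exfalso
  omega

lemma cas_4107 (h : H9 D E G d)
    (hl : ∀ i : ℕ, i < 9 → lab D E G (i : ZMod 9) = dg 4107 i) : Con9 D E G := by
  have hk : d ≤ 3 := h.rh9 hl
  obtain ⟨a0, a1, a2, a3, a4, a5, a6, a7, a8⟩ := hl9 hl
  obtain ⟨x0, y0, z0⟩ := h.toTr.nlab3 (a0.trans rfl)
  obtain ⟨x1, y1, z1⟩ := h.toTr.nlab2 (a1.trans rfl)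
  obtain ⟨x2, y2, z2⟩ := lab0 (a2.trans rfl)
  obtain ⟨x3, y3, z3⟩ := lab0 (a3.trans rfl)
  obtain ⟨x4, y4, z4⟩ := lab0 (a4.trans rfl)
  obtain ⟨x5, y5, z5⟩ := lab0 (a5.trans rfl)
  obtain ⟨x6, y6, z6⟩ := h.toTr.nlab1 (a6.trans rfl)
  obtain ⟨x7, y7, z7⟩ := lab0 (a7.trans rfl)
  obtain ⟨x8, y8, z8⟩ := lab0 (a8.trans rfl)
  have sD := h.toTr.s9
  have sE := h.toTr.rot.s9
  have sG := h.toTr.rot.rot.s9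
  have pd := h.pos
  have v1 := dvd9 h.s1
  have v2 := dvd9 h.s2
  simp only [x0, x1, x2, x3, x4, x5, x7, x8, y0, y2, y3, y4, y5, y6, y7, y8, z1, z2, z3, z4, z5, z6, z7, z8, sub_zero, zero_sub, add_zero, zero_add, mul_zero, sub_self] at sD sE sG v1 v2
  clear hl a0 a1 a2 a3 a4 a5 a6 a7 a8
  clear x0 x1 x2 x3 x4 x5 x7 x8 y0 y2 y3 y4 y5 y6 y7 y8 z1 z2 z3 z4 z5 z6 z7 z8
  exfalso
  omega

lemma cas_1035 (h : H9 D E G d)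
    (hl : ∀ i : ℕ, i < 9 → lab D E G (i : ZMod 9) = dg 1035 i) : Con9 D E G := by
  have hk : d ≤ 3 := h.rh9 hl
  obtain ⟨a0, a1, a2, a3, a4, a5, a6, a7, a8⟩ := hl9 hl
  obtain ⟨x0, y0, z0⟩ := h.toTr.nlab3 (a0.trans rfl)
  obtain ⟨x1, y1, z1⟩ := h.toTr.nlab2 (a1.trans rfl)
  obtain ⟨x2, y2, z2⟩ := lab0 (a2.trans rfl)
  obtain ⟨x3, y3, z3⟩ := lab0 (a3.trans rfl)
  obtain ⟨x4, y4, z4⟩ := lab0 (a4.trans rfl)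
  obtain ⟨x5, y5, z5⟩ := h.toTr.nlab1 (a5.trans rfl)
  obtain ⟨x6, y6, z6⟩ := lab0 (a6.trans rfl)
  obtain ⟨x7, y7, z7⟩ := lab0 (a7.trans rfl)
  obtain ⟨x8, y8, z8⟩ := lab0 (a8.trans rfl)
  have sD := h.toTr.s9
  have sE := h.toTr.rot.s9
  have sG := h.toTr.rot.rot.s9
  have pd := h.pos
  have v1 := dvd9 h.s1
  have v2 := dvd9 h.s2
  simp only [x0, x1, x2, x3, x4, x6, x7, x8, y0, y2, y3, y4, y5, y6, y7, y8, z1, z2, z3, z4, z5, z6, z7, z8, sub_zero, zero_sub, add_zero, zero_add, mul_zero, sub_self] at sD sE sG v1 v2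
  clear hl a0 a1 a2 a3 a4 a5 a6 a7 a8
  clear x0 x1 x2 x3 x4 x6 x7 x8 y0 y2 y3 y4 y5 y6 y7 y8 z1 z2 z3 z4 z5 z6 z7 z8
  exfalso
  omega

lemma cas_33803 (h : H9 D E G d)
    (hl : ∀ i : ℕ, i < 9 → lab D E G (i : ZMod 9) = dg 33803 i) : Con9 D E G := by
  have hk : d ≤ 4 := h.rh9 hl
  obtain ⟨a0, a1, a2, a3, a4, a5, a6, a7, a8⟩ := hl9 hl
  obtain ⟨x0, y0, z0⟩ := h.toTr.nlab3 (a0.trans rfl)
  obtain ⟨x1, y1, z1⟩ := h.toTr.nlab2 (a1.trans rfl)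
  obtain ⟨x2, y2, z2⟩ := lab0 (a2.trans rfl)
  obtain ⟨x3, y3, z3⟩ := lab0 (a3.trans rfl)
  obtain ⟨x4, y4, z4⟩ := lab0 (a4.trans rfl)
  obtain ⟨x5, y5, z5⟩ := h.toTr.nlab1 (a5.trans rfl)
  obtain ⟨x6, y6, z6⟩ := lab0 (a6.trans rfl)
  obtain ⟨x7, y7, z7⟩ := h.toTr.nlab2 (a7.trans rfl)
  obtain ⟨x8, y8, z8⟩ := lab0 (a8.trans rfl)
  have sD := h.toTr.s9
  have sE := h.toTr.rot.s9
  have sG := h.toTr.rot.rot.s9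
  have pd := h.pos
  have v1 := dvd9 h.s1
  have v2 := dvd9 h.s2
  have r1 : (G 0 - D 0) + (G 2 - D 2) = (G 6 - D 6) + (G 8 - D 8) :=
    h.re 1 7 (nz9 y1) (nz9 y7) 1
  have r2 : (G 8 - D 8) + (G 3 - D 3) = (G 5 - D 5) + (G 0 - D 0) :=
    h.re 1 7 (nz9 y1) (nz9 y7) 2
  have r3 : (G 7 - D 7) + (G 4 - D 4) = (G 4 - D 4) + (G 1 - D 1) :=
    h.re 1 7 (nz9 y1) (nz9 y7) 3
  have r4 : (G 6 - D 6) + (G 5 - D 5) = (G 3 - D 3) + (G 2 - D 2) :=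
    h.re 1 7 (nz9 y1) (nz9 y7) 4
  simp only [x0, x1, x2, x3, x4, x6, x7, x8, y0, y2, y3, y4, y5, y6, y8, z1, z2, z3, z4, z5, z6, z7, z8, sub_zero, zero_sub, add_zero, zero_add, mul_zero, sub_self] at sD sE sG v1 v2 r1 r2 r3 r4
  clear hl a0 a1 a2 a3 a4 a5 a6 a7 a8
  clear x0 x1 x2 x3 x4 x6 x7 x8 y0 y2 y3 y4 y5 y6 y8 z1 z2 z3 z4 z5 z6 z7 z8
  exfalso
  omega

lemma cas_267 (h : H9 D E G d)
    (hl : ∀ i : ℕ, i < 9 → lab D E G (i : ZMod 9) = dg 267 i) : Con9 D E G := by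
  have hk : d ≤ 3 := h.rh9 hl
  obtain ⟨a0, a1, a2, a3, a4, a5, a6, a7, a8⟩ := hl9 hl
  obtain ⟨x0, y0, z0⟩ := h.toTr.nlab3 (a0.trans rfl)
  obtain ⟨x1, y1, z1⟩ := h.toTr.nlab2 (a1.trans rfl)
  obtain ⟨x2, y2, z2⟩ := lab0 (a2.trans rfl)
  obtain ⟨x3, y3, z3⟩ := lab0 (a3.trans rfl)
  obtain ⟨x4, y4, z4⟩ := h.toTr.nlab1 (a4.trans rfl)
  obtain ⟨x5, y5, z5⟩ := lab0 (a5.trans rfl)
  obtain ⟨x6, y6, z6⟩ := lab0 (a6.trans rfl)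
  obtain ⟨x7, y7, z7⟩ := lab0 (a7.trans rfl)
  obtain ⟨x8, y8, z8⟩ := lab0 (a8.trans rfl)
  have sD := h.toTr.s9
  have sE := h.toTr.rot.s9
  have sG := h.toTr.rot.rot.s9
  have pd := h.pos
  have v1 := dvd9 h.s1
  have v2 := dvd9 h.s2
  simp only [x0, x1, x2, x3, x5, x6, x7, x8, y0, y2, y3, y4, y5, y6, y7, y8, z1, z2, z3, z4, z5, z6, z7, z8, sub_zero, zero_sub, add_zero, zero_add, mul_zero, sub_self] at sD sE sG v1 v2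
  clear hl a0 a1 a2 a3 a4 a5 a6 a7 a8
  clear x0 x1 x2 x3 x5 x6 x7 x8 y0 y2 y3 y4 y5 y6 y7 y8 z1 z2 z3 z4 z5 z6 z7 z8
  exfalso
  omega

lemma cas_16651 (h : H9 D E G d)
    (hl : ∀ i : ℕ, i < 9 → lab D E G (i : ZMod 9) = dg 16651 i) : Con9 D E G := by
  have hk : d ≤ 4 := h.rh9 hl
  obtain ⟨a0, a1, a2, a3, a4, a5, a6, a7, a8⟩ := hl9 hl
  obtain ⟨x0, y0, z0⟩ := h.toTr.nlab3 (a0.trans rfl)
  obtain ⟨x1, y1, z1⟩ := h.toTr.nlab2 (a1.trans rfl)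
  obtain ⟨x2, y2, z2⟩ := lab0 (a2.trans rfl)
  obtain ⟨x3, y3, z3⟩ := lab0 (a3.trans rfl)
  obtain ⟨x4, y4, z4⟩ := h.toTr.nlab1 (a4.trans rfl)
  obtain ⟨x5, y5, z5⟩ := lab0 (a5.trans rfl)
  obtain ⟨x6, y6, z6⟩ := lab0 (a6.trans rfl)
  obtain ⟨x7, y7, z7⟩ := h.toTr.nlab1 (a7.trans rfl)
  obtain ⟨x8, y8, z8⟩ := lab0 (a8.trans rfl)
  have sD := h.toTr.s9
  have sE := h.toTr.rot.s9
  have sG := h.toTr.rot.rot.s9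
  have pd := h.pos
  have v1 := dvd9 h.s1
  have v2 := dvd9 h.s2
  have r1 : (E 3 - G 3) + (E 5 - G 5) = (E 6 - G 6) + (E 8 - G 8) :=
    h.rd 4 7 (nz9 x4) (nz9 x7) 1
  have r2 : (E 2 - G 2) + (E 6 - G 6) = (E 5 - G 5) + (E 0 - G 0) :=
    h.rd 4 7 (nz9 x4) (nz9 x7) 2
  have r3 : (E 1 - G 1) + (E 7 - G 7) = (E 4 - G 4) + (E 1 - G 1) :=
    h.rd 4 7 (nz9 x4) (nz9 x7) 3
  have r4 : (E 0 - G 0) + (E 8 - G 8) = (E 3 - G 3) + (E 2 - G 2) :=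
    h.rd 4 7 (nz9 x4) (nz9 x7) 4
  simp only [x0, x1, x2, x3, x5, x6, x8, y0, y2, y3, y4, y5, y6, y7, y8, z1, z2, z3, z4, z5, z6, z7, z8, sub_zero, zero_sub, add_zero, zero_add, mul_zero, sub_self] at sD sE sG v1 v2 r1 r2 r3 r4
  clear hl a0 a1 a2 a3 a4 a5 a6 a7 a8
  clear x0 x1 x2 x3 x5 x6 x8 y0 y2 y3 y4 y5 y6 y7 y8 z1 z2 z3 z4 z5 z6 z7 z8
  exfalso
  omega

lemma cas_33035 (h : H9 D E G d)
    (hl : ∀ i : ℕ, i < 9 → lab D E G (i : ZMod 9) = dg 33035 i) : Con9 D E G := by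
  have hk : d ≤ 4 := h.rh9 hl
  obtain ⟨a0, a1, a2, a3, a4, a5, a6, a7, a8⟩ := hl9 hl
  obtain ⟨x0, y0, z0⟩ := h.toTr.nlab3 (a0.trans rfl)
  obtain ⟨x1, y1, z1⟩ := h.toTr.nlab2 (a1.trans rfl)
  obtain ⟨x2, y2, z2⟩ := lab0 (a2.trans rfl)
  obtain ⟨x3, y3, z3⟩ := lab0 (a3.trans rfl)
  obtain ⟨x4, y4, z4⟩ := h.toTr.nlab1 (a4.trans rfl)
  obtain ⟨x5, y5, z5⟩ := lab0 (a5.trans rfl)
  obtain ⟨x6, y6, z6⟩ := lab0 (a6.trans rfl)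
  obtain ⟨x7, y7, z7⟩ := h.toTr.nlab2 (a7.trans rfl)
  obtain ⟨x8, y8, z8⟩ := lab0 (a8.trans rfl)
  have sD := h.toTr.s9
  have sE := h.toTr.rot.s9
  have sG := h.toTr.rot.rot.s9
  have pd := h.pos
  have v1 := dvd9 h.s1
  have v2 := dvd9 h.s2
  have r1 : (G 0 - D 0) + (G 2 - D 2) = (G 6 - D 6) + (G 8 - D 8) :=
    h.re 1 7 (nz9 y1) (nz9 y7) 1
  have r2 : (G 8 - D 8) + (G 3 - D 3) = (G 5 - D 5) + (G 0 - D 0) :=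
    h.re 1 7 (nz9 y1) (nz9 y7) 2
  have r3 : (G 7 - D 7) + (G 4 - D 4) = (G 4 - D 4) + (G 1 - D 1) :=
    h.re 1 7 (nz9 y1) (nz9 y7) 3
  have r4 : (G 6 - D 6) + (G 5 - D 5) = (G 3 - D 3) + (G 2 - D 2) :=
    h.re 1 7 (nz9 y1) (nz9 y7) 4
  simp only [x0, x1, x2, x3, x5, x6, x7, x8, y0, y2, y3, y4, y5, y6, y8, z1, z2, z3, z4, z5, z6, z7, z8, sub_zero, zero_sub, add_zero, zero_add, mul_zero, sub_self] at sD sE sG v1 v2 r1 r2 r3 r4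
  clear hl a0 a1 a2 a3 a4 a5 a6 a7 a8
  clear x0 x1 x2 x3 x5 x6 x7 x8 y0 y2 y3 y4 y5 y6 y8 z1 z2 z3 z4 z5 z6 z7 z8
  exfalso
  omega

lemma cas_12555 (h : H9 D E G d)
    (hl : ∀ i : ℕ, i < 9 → lab D E G (i : ZMod 9) = dg 12555 i) : Con9 D E G := by
  have hk : d ≤ 4 := h.rh9 hl
  obtain ⟨a0, a1, a2, a3, a4, a5, a6, a7, a8⟩ := hl9 hl
  obtain ⟨x0, y0, z0⟩ := h.toTr.nlab3 (a0.trans rfl)
  obtain ⟨x1, y1, z1⟩ := h.toTr.nlab2 (a1.trans rfl)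
  obtain ⟨x2, y2, z2⟩ := lab0 (a2.trans rfl)
  obtain ⟨x3, y3, z3⟩ := lab0 (a3.trans rfl)
  obtain ⟨x4, y4, z4⟩ := h.toTr.nlab1 (a4.trans rfl)
  obtain ⟨x5, y5, z5⟩ := lab0 (a5.trans rfl)
  obtain ⟨x6, y6, z6⟩ := h.toTr.nlab3 (a6.trans rfl)
  obtain ⟨x7, y7, z7⟩ := lab0 (a7.trans rfl)
  obtain ⟨x8, y8, z8⟩ := lab0 (a8.trans rfl)
  have sD := h.toTr.s9
  have sE := h.toTr.rot.s9
  have sG := h.toTr.rot.rot.s9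
  have pd := h.pos
  have v1 := dvd9 h.s1
  have v2 := dvd9 h.s2
  have r1 : (D 8 - E 8) + (D 1 - E 1) = (D 5 - E 5) + (D 7 - E 7) :=
    h.rg 0 6 (nz9 z0) (nz9 z6) 1
  have r2 : (D 7 - E 7) + (D 2 - E 2) = (D 4 - E 4) + (D 8 - E 8) :=
    h.rg 0 6 (nz9 z0) (nz9 z6) 2
  have r3 : (D 6 - E 6) + (D 3 - E 3) = (D 3 - E 3) + (D 0 - E 0) :=
    h.rg 0 6 (nz9 z0) (nz9 z6) 3
  have r4 : (D 5 - E 5) + (D 4 - E 4) = (D 2 - E 2) + (D 1 - E 1) :=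
    h.rg 0 6 (nz9 z0) (nz9 z6) 4
  simp only [x0, x1, x2, x3, x5, x6, x7, x8, y0, y2, y3, y4, y5, y6, y7, y8, z1, z2, z3, z4, z5, z7, z8, sub_zero, zero_sub, add_zero, zero_add, mul_zero, sub_self] at sD sE sG v1 v2 r1 r2 r3 r4
  clear hl a0 a1 a2 a3 a4 a5 a6 a7 a8
  clear x0 x1 x2 x3 x5 x6 x7 x8 y0 y2 y3 y4 y5 y6 y7 y8 z1 z2 z3 z4 z5 z7 z8
  exfalso
  omega

lemma cas_16907 (h : H9 D E G d)
    (hl : ∀ i : ℕ, i < 9 → lab D E G (i : ZMod 9) = dg 16907 i) : Con9 D E G := by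
  have hk : d ≤ 4 := h.rh9 hl
  obtain ⟨a0, a1, a2, a3, a4, a5, a6, a7, a8⟩ := hl9 hl
  obtain ⟨x0, y0, z0⟩ := h.toTr.nlab3 (a0.trans rfl)
  obtain ⟨x1, y1, z1⟩ := h.toTr.nlab2 (a1.trans rfl)
  obtain ⟨x2, y2, z2⟩ := lab0 (a2.trans rfl)
  obtain ⟨x3, y3, z3⟩ := lab0 (a3.trans rfl)
  obtain ⟨x4, y4, z4⟩ := h.toTr.nlab2 (a4.trans rfl)
  obtain ⟨x5, y5, z5⟩ := lab0 (a5.trans rfl)
  obtain ⟨x6, y6, z6⟩ := lab0 (a6.trans rfl)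
  obtain ⟨x7, y7, z7⟩ := h.toTr.nlab1 (a7.trans rfl)
  obtain ⟨x8, y8, z8⟩ := lab0 (a8.trans rfl)
  have sD := h.toTr.s9
  have sE := h.toTr.rot.s9
  have sG := h.toTr.rot.rot.s9
  have pd := h.pos
  have v1 := dvd9 h.s1
  have v2 := dvd9 h.s2
  have r1 : (G 0 - D 0) + (G 2 - D 2) = (G 3 - D 3) + (G 5 - D 5) :=
    h.re 1 4 (nz9 y1) (nz9 y4) 1
  have r2 : (G 8 - D 8) + (G 3 - D 3) = (G 2 - D 2) + (G 6 - D 6) :=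
    h.re 1 4 (nz9 y1) (nz9 y4) 2
  have r3 : (G 7 - D 7) + (G 4 - D 4) = (G 1 - D 1) + (G 7 - D 7) :=
    h.re 1 4 (nz9 y1) (nz9 y4) 3
  have r4 : (G 6 - D 6) + (G 5 - D 5) = (G 0 - D 0) + (G 8 - D 8) :=
    h.re 1 4 (nz9 y1) (nz9 y4) 4
  simp only [x0, x1, x2, x3, x4, x5, x6, x8, y0, y2, y3, y5, y6, y7, y8, z1, z2, z3, z4, z5, z6, z7, z8, sub_zero, zero_sub, add_zero, zero_add, mul_zero, sub_self] at sD sE sG v1 v2 r1 r2 r3 r4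
  clear hl a0 a1 a2 a3 a4 a5 a6 a7 a8
  clear x0 x1 x2 x3 x4 x5 x6 x8 y0 y2 y3 y5 y6 y7 y8 z1 z2 z3 z4 z5 z6 z7 z8
  exfalso
  omega

lemma cas_4619 (h : H9 D E G d)
    (hl : ∀ i : ℕ, i < 9 → lab D E G (i : ZMod 9) = dg 4619 i) : Con9 D E G := by
  have hk : d ≤ 4 := h.rh9 hl
  obtain ⟨a0, a1, a2, a3, a4, a5, a6, a7, a8⟩ := hl9 hl
  obtain ⟨x0, y0, z0⟩ := h.toTr.nlab3 (a0.trans rfl)
  obtain ⟨x1, y1, z1⟩ := h.toTr.nlab2 (a1.trans rfl)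
  obtain ⟨x2, y2, z2⟩ := lab0 (a2.trans rfl)
  obtain ⟨x3, y3, z3⟩ := lab0 (a3.trans rfl)
  obtain ⟨x4, y4, z4⟩ := h.toTr.nlab2 (a4.trans rfl)
  obtain ⟨x5, y5, z5⟩ := lab0 (a5.trans rfl)
  obtain ⟨x6, y6, z6⟩ := h.toTr.nlab1 (a6.trans rfl)
  obtain ⟨x7, y7, z7⟩ := lab0 (a7.trans rfl)
  obtain ⟨x8, y8, z8⟩ := lab0 (a8.trans rfl)
  have sD := h.toTr.s9
  have sE := h.toTr.rot.s9
  have sG := h.toTr.rot.rot.s9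
  have pd := h.pos
  have v1 := dvd9 h.s1
  have v2 := dvd9 h.s2
  have r1 : (G 0 - D 0) + (G 2 - D 2) = (G 3 - D 3) + (G 5 - D 5) :=
    h.re 1 4 (nz9 y1) (nz9 y4) 1
  have r2 : (G 8 - D 8) + (G 3 - D 3) = (G 2 - D 2) + (G 6 - D 6) :=
    h.re 1 4 (nz9 y1) (nz9 y4) 2
  have r3 : (G 7 - D 7) + (G 4 - D 4) = (G 1 - D 1) + (G 7 - D 7) :=
    h.re 1 4 (nz9 y1) (nz9 y4) 3
  have r4 : (G 6 - D 6) + (G 5 - D 5) = (G 0 - D 0) + (G 8 - D 8) :=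
    h.re 1 4 (nz9 y1) (nz9 y4) 4
  simp only [x0, x1, x2, x3, x4, x5, x7, x8, y0, y2, y3, y5, y6, y7, y8, z1, z2, z3, z4, z5, z6, z7, z8, sub_zero, zero_sub, add_zero, zero_add, mul_zero, sub_self] at sD sE sG v1 v2 r1 r2 r3 r4
  clear hl a0 a1 a2 a3 a4 a5 a6 a7 a8
  clear x0 x1 x2 x3 x4 x5 x7 x8 y0 y2 y3 y5 y6 y7 y8 z1 z2 z3 z4 z5 z6 z7 z8
  exfalso
  omega

lemma cas_1547 (h : H9 D E G d)
    (hl : ∀ i : ℕ, i < 9 → lab D E G (i : ZMod 9) = dg 1547 i) : Con9 D E G := by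
  have hk : d ≤ 4 := h.rh9 hl
  obtain ⟨a0, a1, a2, a3, a4, a5, a6, a7, a8⟩ := hl9 hl
  obtain ⟨x0, y0, z0⟩ := h.toTr.nlab3 (a0.trans rfl)
  obtain ⟨x1, y1, z1⟩ := h.toTr.nlab2 (a1.trans rfl)
  obtain ⟨x2, y2, z2⟩ := lab0 (a2.trans rfl)
  obtain ⟨x3, y3, z3⟩ := lab0 (a3.trans rfl)
  obtain ⟨x4, y4, z4⟩ := h.toTr.nlab2 (a4.trans rfl)
  obtain ⟨x5, y5, z5⟩ := h.toTr.nlab1 (a5.trans rfl)
  obtain ⟨x6, y6, z6⟩ := lab0 (a6.trans rfl)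
  obtain ⟨x7, y7, z7⟩ := lab0 (a7.trans rfl)
  obtain ⟨x8, y8, z8⟩ := lab0 (a8.trans rfl)
  have sD := h.toTr.s9
  have sE := h.toTr.rot.s9
  have sG := h.toTr.rot.rot.s9
  have pd := h.pos
  have v1 := dvd9 h.s1
  have v2 := dvd9 h.s2
  have r1 : (G 0 - D 0) + (G 2 - D 2) = (G 3 - D 3) + (G 5 - D 5) :=
    h.re 1 4 (nz9 y1) (nz9 y4) 1
  have r2 : (G 8 - D 8) + (G 3 - D 3) = (G 2 - D 2) + (G 6 - D 6) :=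
    h.re 1 4 (nz9 y1) (nz9 y4) 2
  have r3 : (G 7 - D 7) + (G 4 - D 4) = (G 1 - D 1) + (G 7 - D 7) :=
    h.re 1 4 (nz9 y1) (nz9 y4) 3
  have r4 : (G 6 - D 6) + (G 5 - D 5) = (G 0 - D 0) + (G 8 - D 8) :=
    h.re 1 4 (nz9 y1) (nz9 y4) 4
  simp only [x0, x1, x2, x3, x4, x6, x7, x8, y0, y2, y3, y5, y6, y7, y8, z1, z2, z3, z4, z5, z6, z7, z8, sub_zero, zero_sub, add_zero, zero_add, mul_zero, sub_self] at sD sE sG v1 v2 r1 r2 r3 r4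
  clear hl a0 a1 a2 a3 a4 a5 a6 a7 a8
  clear x0 x1 x2 x3 x4 x6 x7 x8 y0 y2 y3 y5 y6 y7 y8 z1 z2 z3 z4 z5 z6 z7 z8
  exfalso
  omega

lemma cas_75 (h : H9 D E G d)
    (hl : ∀ i : ℕ, i < 9 → lab D E G (i : ZMod 9) = dg 75 i) : Con9 D E G := by
  have hk : d ≤ 3 := h.rh9 hl
  obtain ⟨a0, a1, a2, a3, a4, a5, a6, a7, a8⟩ := hl9 hl
  obtain ⟨x0, y0, z0⟩ := h.toTr.nlab3 (a0.trans rfl)
  obtain ⟨x1, y1, z1⟩ := h.toTr.nlab2 (a1.trans rfl)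
  obtain ⟨x2, y2, z2⟩ := lab0 (a2.trans rfl)
  obtain ⟨x3, y3, z3⟩ := h.toTr.nlab1 (a3.trans rfl)
  obtain ⟨x4, y4, z4⟩ := lab0 (a4.trans rfl)
  obtain ⟨x5, y5, z5⟩ := lab0 (a5.trans rfl)
  obtain ⟨x6, y6, z6⟩ := lab0 (a6.trans rfl)
  obtain ⟨x7, y7, z7⟩ := lab0 (a7.trans rfl)
  obtain ⟨x8, y8, z8⟩ := lab0 (a8.trans rfl)
  have sD := h.toTr.s9
  have sE := h.toTr.rot.s9
  have sG := h.toTr.rot.rot.s9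
  have pd := h.pos
  have v1 := dvd9 h.s1
  have v2 := dvd9 h.s2
  simp only [x0, x1, x2, x4, x5, x6, x7, x8, y0, y2, y3, y4, y5, y6, y7, y8, z1, z2, z3, z4, z5, z6, z7, z8, sub_zero, zero_sub, add_zero, zero_add, mul_zero, sub_self] at sD sE sG v1 v2
  clear hl a0 a1 a2 a3 a4 a5 a6 a7 a8
  clear x0 x1 x2 x4 x5 x6 x7 x8 y0 y2 y3 y4 y5 y6 y7 y8 z1 z2 z3 z4 z5 z6 z7 z8
  exfalso
  omega

lemma cas_32843 (h : H9 D E G d)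
    (hl : ∀ i : ℕ, i < 9 → lab D E G (i : ZMod 9) = dg 32843 i) : Con9 D E G := by
  have hk : d ≤ 4 := h.rh9 hl
  obtain ⟨a0, a1, a2, a3, a4, a5, a6, a7, a8⟩ := hl9 hl
  obtain ⟨x0, y0, z0⟩ := h.toTr.nlab3 (a0.trans rfl)
  obtain ⟨x1, y1, z1⟩ := h.toTr.nlab2 (a1.trans rfl)
  obtain ⟨x2, y2, z2⟩ := lab0 (a2.trans rfl)
  obtain ⟨x3, y3, z3⟩ := h.toTr.nlab1 (a3.trans rfl)
  obtain ⟨x4, y4, z4⟩ := lab0 (a4.trans rfl)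
  obtain ⟨x5, y5, z5⟩ := lab0 (a5.trans rfl)
  obtain ⟨x6, y6, z6⟩ := lab0 (a6.trans rfl)
  obtain ⟨x7, y7, z7⟩ := h.toTr.nlab2 (a7.trans rfl)
  obtain ⟨x8, y8, z8⟩ := lab0 (a8.trans rfl)
  have sD := h.toTr.s9
  have sE := h.toTr.rot.s9
  have sG := h.toTr.rot.rot.s9
  have pd := h.pos
  have v1 := dvd9 h.s1
  have v2 := dvd9 h.s2
  have r1 : (G 0 - D 0) + (G 2 - D 2) = (G 6 - D 6) + (G 8 - D 8) :=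
    h.re 1 7 (nz9 y1) (nz9 y7) 1
  have r2 : (G 8 - D 8) + (G 3 - D 3) = (G 5 - D 5) + (G 0 - D 0) :=
    h.re 1 7 (nz9 y1) (nz9 y7) 2
  have r3 : (G 7 - D 7) + (G 4 - D 4) = (G 4 - D 4) + (G 1 - D 1) :=
    h.re 1 7 (nz9 y1) (nz9 y7) 3
  have r4 : (G 6 - D 6) + (G 5 - D 5) = (G 3 - D 3) + (G 2 - D 2) :=
    h.re 1 7 (nz9 y1) (nz9 y7) 4
  simp only [x0, x1, x2, x4, x5, x6, x7, x8, y0, y2, y3, y4, y5, y6, y8, z1, z2, z3, z4, z5, z6, z7, z8, sub_zero, zero_sub, add_zero, zero_add, mul_zero, sub_self] at sD sE sG v1 v2 r1 r2 r3 r4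
  clear hl a0 a1 a2 a3 a4 a5 a6 a7 a8
  clear x0 x1 x2 x4 x5 x6 x7 x8 y0 y2 y3 y4 y5 y6 y8 z1 z2 z3 z4 z5 z6 z7 z8
  exfalso
  omega

lemma cas_4171 (h : H9 D E G d)
    (hl : ∀ i : ℕ, i < 9 → lab D E G (i : ZMod 9) = dg 4171 i) : Con9 D E G := by
  have hk : d ≤ 4 := h.rh9 hl
  obtain ⟨a0, a1, a2, a3, a4, a5, a6, a7, a8⟩ := hl9 hl
  obtain ⟨x0, y0, z0⟩ := h.toTr.nlab3 (a0.trans rfl)
  obtain ⟨x1, y1, z1⟩ := h.toTr.nlab2 (a1.trans rfl)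
  obtain ⟨x2, y2, z2⟩ := lab0 (a2.trans rfl)
  obtain ⟨x3, y3, z3⟩ := h.toTr.nlab1 (a3.trans rfl)
  obtain ⟨x4, y4, z4⟩ := lab0 (a4.trans rfl)
  obtain ⟨x5, y5, z5⟩ := lab0 (a5.trans rfl)
  obtain ⟨x6, y6, z6⟩ := h.toTr.nlab1 (a6.trans rfl)
  obtain ⟨x7, y7, z7⟩ := lab0 (a7.trans rfl)
  obtain ⟨x8, y8, z8⟩ := lab0 (a8.trans rfl)
  have sD := h.toTr.s9
  have sE := h.toTr.rot.s9
  have sG := h.toTr.rot.rot.s9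
  have pd := h.pos
  have v1 := dvd9 h.s1
  have v2 := dvd9 h.s2
  have r1 : (E 2 - G 2) + (E 4 - G 4) = (E 5 - G 5) + (E 7 - G 7) :=
    h.rd 3 6 (nz9 x3) (nz9 x6) 1
  have r2 : (E 1 - G 1) + (E 5 - G 5) = (E 4 - G 4) + (E 8 - G 8) :=
    h.rd 3 6 (nz9 x3) (nz9 x6) 2
  have r3 : (E 0 - G 0) + (E 6 - G 6) = (E 3 - G 3) + (E 0 - G 0) :=
    h.rd 3 6 (nz9 x3) (nz9 x6) 3
  have r4 : (E 8 - G 8) + (E 7 - G 7) = (E 2 - G 2) + (E 1 - G 1) :=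
    h.rd 3 6 (nz9 x3) (nz9 x6) 4
  simp only [x0, x1, x2, x4, x5, x7, x8, y0, y2, y3, y4, y5, y6, y7, y8, z1, z2, z3, z4, z5, z6, z7, z8, sub_zero, zero_sub, add_zero, zero_add, mul_zero, sub_self] at sD sE sG v1 v2 r1 r2 r3 r4
  clear hl a0 a1 a2 a3 a4 a5 a6 a7 a8
  clear x0 x1 x2 x4 x5 x7 x8 y0 y2 y3 y4 y5 y6 y7 y8 z1 z2 z3 z4 z5 z6 z7 z8
  exfalso
  omega

lemma cas_12363 (h : H9 D E G d)
    (hl : ∀ i : ℕ, i < 9 → lab D E G (i : ZMod 9) = dg 12363 i) : Con9 D E G := by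
  have hk : d ≤ 4 := h.rh9 hl
  obtain ⟨a0, a1, a2, a3, a4, a5, a6, a7, a8⟩ := hl9 hl
  obtain ⟨x0, y0, z0⟩ := h.toTr.nlab3 (a0.trans rfl)
  obtain ⟨x1, y1, z1⟩ := h.toTr.nlab2 (a1.trans rfl)
  obtain ⟨x2, y2, z2⟩ := lab0 (a2.trans rfl)
  obtain ⟨x3, y3, z3⟩ := h.toTr.nlab1 (a3.trans rfl)
  obtain ⟨x4, y4, z4⟩ := lab0 (a4.trans rfl)
  obtain ⟨x5, y5, z5⟩ := lab0 (a5.trans rfl)
  obtain ⟨x6, y6, z6⟩ := h.toTr.nlab3 (a6.trans rfl)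
  obtain ⟨x7, y7, z7⟩ := lab0 (a7.trans rfl)
  obtain ⟨x8, y8, z8⟩ := lab0 (a8.trans rfl)
  have sD := h.toTr.s9
  have sE := h.toTr.rot.s9
  have sG := h.toTr.rot.rot.s9
  have pd := h.pos
  have v1 := dvd9 h.s1
  have v2 := dvd9 h.s2
  have r1 : (D 8 - E 8) + (D 1 - E 1) = (D 5 - E 5) + (D 7 - E 7) :=
    h.rg 0 6 (nz9 z0) (nz9 z6) 1
  have r2 : (D 7 - E 7) + (D 2 - E 2) = (D 4 - E 4) + (D 8 - E 8) :=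
    h.rg 0 6 (nz9 z0) (nz9 z6) 2
  have r3 : (D 6 - E 6) + (D 3 - E 3) = (D 3 - E 3) + (D 0 - E 0) :=
    h.rg 0 6 (nz9 z0) (nz9 z6) 3
  have r4 : (D 5 - E 5) + (D 4 - E 4) = (D 2 - E 2) + (D 1 - E 1) :=
    h.rg 0 6 (nz9 z0) (nz9 z6) 4
  simp only [x0, x1, x2, x4, x5, x6, x7, x8, y0, y2, y3, y4, y5, y6, y7, y8, z1, z2, z3, z4, z5, z7, z8, sub_zero, zero_sub, add_zero, zero_add, mul_zero, sub_self] at sD sE sG v1 v2 r1 r2 r3 r4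
  clear hl a0 a1 a2 a3 a4 a5 a6 a7 a8
  clear x0 x1 x2 x4 x5 x6 x7 x8 y0 y2 y3 y4 y5 y6 y7 y8 z1 z2 z3 z4 z5 z7 z8
  exfalso
  omega

lemma cas_14411 (h : H9 D E G d)
    (hl : ∀ i : ℕ, i < 9 → lab D E G (i : ZMod 9) = dg 14411 i) : Con9 D E G := by
  have hk : d ≤ 5 := h.rh9 hl
  obtain ⟨a0, a1, a2, a3, a4, a5, a6, a7, a8⟩ := hl9 hl
  obtain ⟨x0, y0, z0⟩ := h.toTr.nlab3 (a0.trans rfl)
  obtain ⟨x1, y1, z1⟩ := h.toTr.nlab2 (a1.trans rfl)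
  obtain ⟨x2, y2, z2⟩ := lab0 (a2.trans rfl)
  obtain ⟨x3, y3, z3⟩ := h.toTr.nlab1 (a3.trans rfl)
  obtain ⟨x4, y4, z4⟩ := lab0 (a4.trans rfl)
  obtain ⟨x5, y5, z5⟩ := h.toTr.nlab2 (a5.trans rfl)
  obtain ⟨x6, y6, z6⟩ := h.toTr.nlab3 (a6.trans rfl)
  obtain ⟨x7, y7, z7⟩ := lab0 (a7.trans rfl)
  obtain ⟨x8, y8, z8⟩ := lab0 (a8.trans rfl)
  have sD := h.toTr.s9
  have sE := h.toTr.rot.s9
  have sG := h.toTr.rot.rot.s9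
  have pd := h.pos
  have v1 := dvd9 h.s1
  have v2 := dvd9 h.s2
  have r1 : (G 0 - D 0) + (G 2 - D 2) = (G 4 - D 4) + (G 6 - D 6) :=
    h.re 1 5 (nz9 y1) (nz9 y5) 1
  have r2 : (G 8 - D 8) + (G 3 - D 3) = (G 3 - D 3) + (G 7 - D 7) :=
    h.re 1 5 (nz9 y1) (nz9 y5) 2
  have r3 : (G 7 - D 7) + (G 4 - D 4) = (G 2 - D 2) + (G 8 - D 8) :=
    h.re 1 5 (nz9 y1) (nz9 y5) 3
  have r4 : (G 6 - D 6) + (G 5 - D 5) = (G 1 - D 1) + (G 0 - D 0) :=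
    h.re 1 5 (nz9 y1) (nz9 y5) 4
  have r5 : (D 8 - E 8) + (D 1 - E 1) = (D 5 - E 5) + (D 7 - E 7) :=
    h.rg 0 6 (nz9 z0) (nz9 z6) 1
  have r6 : (D 7 - E 7) + (D 2 - E 2) = (D 4 - E 4) + (D 8 - E 8) :=
    h.rg 0 6 (nz9 z0) (nz9 z6) 2
  have r7 : (D 6 - E 6) + (D 3 - E 3) = (D 3 - E 3) + (D 0 - E 0) :=
    h.rg 0 6 (nz9 z0) (nz9 z6) 3
  have r8 : (D 5 - E 5) + (D 4 - E 4) = (D 2 - E 2) + (D 1 - E 1) :=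
    h.rg 0 6 (nz9 z0) (nz9 z6) 4
  simp only [x0, x1, x2, x4, x5, x6, x7, x8, y0, y2, y3, y4, y6, y7, y8, z1, z2, z3, z4, z5, z7, z8, sub_zero, zero_sub, add_zero, zero_add, mul_zero, sub_self] at sD sE sG v1 v2 r1 r2 r3 r4 r5 r6 r7 r8
  clear hl a0 a1 a2 a3 a4 a5 a6 a7 a8
  have kD3 : D 3 = (E 5) * 2 := by
    clear x0 x1 x2 x4 x5 x6 x7 x8 y0 y2 y3 y4 y6 y7 y8 z1 z2 z3 z4 z5 z7 z8
    omega
  have kE1 : E 1 = (E 5) * 1 := by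
    clear x0 x1 x2 x4 x5 x6 x7 x8 y0 y2 y3 y4 y6 y7 y8 z1 z2 z3 z4 z5 z7 z8
    omega
  have kE5 : E 5 = (E 5) * 1 := by
    clear x0 x1 x2 x4 x5 x6 x7 x8 y0 y2 y3 y4 y6 y7 y8 z1 z2 z3 z4 z5 z7 z8
    omega
  have kG0 : G 0 = (E 5) * 1 := by
    clear x0 x1 x2 x4 x5 x6 x7 x8 y0 y2 y3 y4 y6 y7 y8 z1 z2 z3 z4 z5 z7 z8
    omega
  have kG6 : G 6 = (E 5) * 1 := by
    clear x0 x1 x2 x4 x5 x6 x7 x8 y0 y2 y3 y4 y6 y7 y8 z1 z2 z3 z4 z5 z7 z8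
    omega
  refine Or.inl ⟨6, 3, 6, 5, (E 5), by linarith, all9 ?_ ?_ ?_ ?_ ?_ ?_ ?_ ?_ ?_,
    all9 ?_ ?_ ?_ ?_ ?_ ?_ ?_ ?_ ?_, all9 ?_ ?_ ?_ ?_ ?_ ?_ ?_ ?_ ?_⟩
  · show D 0 = (E 5) * 0
    rw [mul_zero]; exact x0
  · show D 1 = (E 5) * 0
    rw [mul_zero]; exact x1
  · show D 2 = (E 5) * 0
    rw [mul_zero]; exact x2
  · exact kD3
  · show D 4 = (E 5) * 0
    rw [mul_zero]; exact x4
  · show D 5 = (E 5) * 0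
    rw [mul_zero]; exact x5
  · show D 6 = (E 5) * 0
    rw [mul_zero]; exact x6
  · show D 7 = (E 5) * 0
    rw [mul_zero]; exact x7
  · show D 8 = (E 5) * 0
    rw [mul_zero]; exact x8
  · show E 0 = (E 5) * 0
    rw [mul_zero]; exact y0
  · exact kE1
  · show E 2 = (E 5) * 0
    rw [mul_zero]; exact y2
  · show E 3 = (E 5) * 0
    rw [mul_zero]; exact y3
  · show E 4 = (E 5) * 0
    rw [mul_zero]; exact y4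
  · exact kE5
  · show E 6 = (E 5) * 0
    rw [mul_zero]; exact y6
  · show E 7 = (E 5) * 0
    rw [mul_zero]; exact y7
  · show E 8 = (E 5) * 0
    rw [mul_zero]; exact y8
  · exact kG0
  · show G 1 = (E 5) * 0
    rw [mul_zero]; exact z1
  · show G 2 = (E 5) * 0
    rw [mul_zero]; exact z2
  · show G 3 = (E 5) * 0
    rw [mul_zero]; exact z3
  · show G 4 = (E 5) * 0
    rw [mul_zero]; exact z4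
  · show G 5 = (E 5) * 0
    rw [mul_zero]; exact z5
  · exact kG6
  · show G 7 = (E 5) * 0
    rw [mul_zero]; exact z7
  · show G 8 = (E 5) * 0
    rw [mul_zero]; exact z8

lemma cas_587 (h : H9 D E G d)
    (hl : ∀ i : ℕ, i < 9 → lab D E G (i : ZMod 9) = dg 587 i) : Con9 D E G := by
  have hk : d ≤ 4 := h.rh9 hl
  obtain ⟨a0, a1, a2, a3, a4, a5, a6, a7, a8⟩ := hl9 hl
  obtain ⟨x0, y0, z0⟩ := h.toTr.nlab3 (a0.trans rfl)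
  obtain ⟨x1, y1, z1⟩ := h.toTr.nlab2 (a1.trans rfl)
  obtain ⟨x2, y2, z2⟩ := lab0 (a2.trans rfl)
  obtain ⟨x3, y3, z3⟩ := h.toTr.nlab1 (a3.trans rfl)
  obtain ⟨x4, y4, z4⟩ := h.toTr.nlab2 (a4.trans rfl)
  obtain ⟨x5, y5, z5⟩ := lab0 (a5.trans rfl)
  obtain ⟨x6, y6, z6⟩ := lab0 (a6.trans rfl)
  obtain ⟨x7, y7, z7⟩ := lab0 (a7.trans rfl)
  obtain ⟨x8, y8, z8⟩ := lab0 (a8.trans rfl)
  have sD := h.toTr.s9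
  have sE := h.toTr.rot.s9
  have sG := h.toTr.rot.rot.s9
  have pd := h.pos
  have v1 := dvd9 h.s1
  have v2 := dvd9 h.s2
  have r1 : (G 0 - D 0) + (G 2 - D 2) = (G 3 - D 3) + (G 5 - D 5) :=
    h.re 1 4 (nz9 y1) (nz9 y4) 1
  have r2 : (G 8 - D 8) + (G 3 - D 3) = (G 2 - D 2) + (G 6 - D 6) :=
    h.re 1 4 (nz9 y1) (nz9 y4) 2
  have r3 : (G 7 - D 7) + (G 4 - D 4) = (G 1 - D 1) + (G 7 - D 7) :=
    h.re 1 4 (nz9 y1) (nz9 y4) 3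
  have r4 : (G 6 - D 6) + (G 5 - D 5) = (G 0 - D 0) + (G 8 - D 8) :=
    h.re 1 4 (nz9 y1) (nz9 y4) 4
  simp only [x0, x1, x2, x4, x5, x6, x7, x8, y0, y2, y3, y5, y6, y7, y8, z1, z2, z3, z4, z5, z6, z7, z8, sub_zero, zero_sub, add_zero, zero_add, mul_zero, sub_self] at sD sE sG v1 v2 r1 r2 r3 r4
  clear hl a0 a1 a2 a3 a4 a5 a6 a7 a8
  clear x0 x1 x2 x4 x5 x6 x7 x8 y0 y2 y3 y5 y6 y7 y8 z1 z2 z3 z4 z5 z6 z7 z8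
  exfalso
  omega

lemma cas_33355 (h : H9 D E G d)
    (hl : ∀ i : ℕ, i < 9 → lab D E G (i : ZMod 9) = dg 33355 i) : Con9 D E G := by
  have hk : d ≤ 5 := h.rh9 hl
  obtain ⟨a0, a1, a2, a3, a4, a5, a6, a7, a8⟩ := hl9 hl
  obtain ⟨x0, y0, z0⟩ := h.toTr.nlab3 (a0.trans rfl)
  obtain ⟨x1, y1, z1⟩ := h.toTr.nlab2 (a1.trans rfl)
  obtain ⟨x2, y2, z2⟩ := lab0 (a2.trans rfl)
  obtain ⟨x3, y3, z3⟩ := h.toTr.nlab1 (a3.trans rfl)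
  obtain ⟨x4, y4, z4⟩ := h.toTr.nlab2 (a4.trans rfl)
  obtain ⟨x5, y5, z5⟩ := lab0 (a5.trans rfl)
  obtain ⟨x6, y6, z6⟩ := lab0 (a6.trans rfl)
  obtain ⟨x7, y7, z7⟩ := h.toTr.nlab2 (a7.trans rfl)
  obtain ⟨x8, y8, z8⟩ := lab0 (a8.trans rfl)
  have sD := h.toTr.s9
  have sE := h.toTr.rot.s9
  have sG := h.toTr.rot.rot.s9
  have pd := h.pos
  have v1 := dvd9 h.s1
  have v2 := dvd9 h.s2
  have r1 : (G 0 - D 0) + (G 2 - D 2) = (G 3 - D 3) + (G 5 - D 5) :=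
    h.re 1 4 (nz9 y1) (nz9 y4) 1
  have r2 : (G 8 - D 8) + (G 3 - D 3) = (G 2 - D 2) + (G 6 - D 6) :=
    h.re 1 4 (nz9 y1) (nz9 y4) 2
  have r3 : (G 7 - D 7) + (G 4 - D 4) = (G 1 - D 1) + (G 7 - D 7) :=
    h.re 1 4 (nz9 y1) (nz9 y4) 3
  have r4 : (G 6 - D 6) + (G 5 - D 5) = (G 0 - D 0) + (G 8 - D 8) :=
    h.re 1 4 (nz9 y1) (nz9 y4) 4
  have r5 : (G 0 - D 0) + (G 2 - D 2) = (G 6 - D 6) + (G 8 - D 8) :=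
    h.re 1 7 (nz9 y1) (nz9 y7) 1
  have r6 : (G 8 - D 8) + (G 3 - D 3) = (G 5 - D 5) + (G 0 - D 0) :=
    h.re 1 7 (nz9 y1) (nz9 y7) 2
  have r7 : (G 7 - D 7) + (G 4 - D 4) = (G 4 - D 4) + (G 1 - D 1) :=
    h.re 1 7 (nz9 y1) (nz9 y7) 3
  have r8 : (G 6 - D 6) + (G 5 - D 5) = (G 3 - D 3) + (G 2 - D 2) :=
    h.re 1 7 (nz9 y1) (nz9 y7) 4
  simp only [x0, x1, x2, x4, x5, x6, x7, x8, y0, y2, y3, y5, y6, y8, z1, z2, z3, z4, z5, z6, z7, z8, sub_zero, zero_sub, add_zero, zero_add, mul_zero, sub_self] at sD sE sG v1 v2 r1 r2 r3 r4 r5 r6 r7 r8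
  clear hl a0 a1 a2 a3 a4 a5 a6 a7 a8
  clear x0 x1 x2 x4 x5 x6 x7 x8 y0 y2 y3 y5 y6 y8 z1 z2 z3 z4 z5 z6 z7 z8
  exfalso
  omega

lemma cas_12875 (h : H9 D E G d)
    (hl : ∀ i : ℕ, i < 9 → lab D E G (i : ZMod 9) = dg 12875 i) : Con9 D E G := by
  have hk : d ≤ 5 := h.rh9 hl
  obtain ⟨a0, a1, a2, a3, a4, a5, a6, a7, a8⟩ := hl9 hl
  obtain ⟨x0, y0, z0⟩ := h.toTr.nlab3 (a0.trans rfl)
  obtain ⟨x1, y1, z1⟩ := h.toTr.nlab2 (a1.trans rfl)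
  obtain ⟨x2, y2, z2⟩ := lab0 (a2.trans rfl)
  obtain ⟨x3, y3, z3⟩ := h.toTr.nlab1 (a3.trans rfl)
  obtain ⟨x4, y4, z4⟩ := h.toTr.nlab2 (a4.trans rfl)
  obtain ⟨x5, y5, z5⟩ := lab0 (a5.trans rfl)
  obtain ⟨x6, y6, z6⟩ := h.toTr.nlab3 (a6.trans rfl)
  obtain ⟨x7, y7, z7⟩ := lab0 (a7.trans rfl)
  obtain ⟨x8, y8, z8⟩ := lab0 (a8.trans rfl)
  have sD := h.toTr.s9
  have sE := h.toTr.rot.s9
  have sG := h.toTr.rot.rot.s9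
  have pd := h.pos
  have v1 := dvd9 h.s1
  have v2 := dvd9 h.s2
  have r1 : (G 0 - D 0) + (G 2 - D 2) = (G 3 - D 3) + (G 5 - D 5) :=
    h.re 1 4 (nz9 y1) (nz9 y4) 1
  have r2 : (G 8 - D 8) + (G 3 - D 3) = (G 2 - D 2) + (G 6 - D 6) :=
    h.re 1 4 (nz9 y1) (nz9 y4) 2
  have r3 : (G 7 - D 7) + (G 4 - D 4) = (G 1 - D 1) + (G 7 - D 7) :=
    h.re 1 4 (nz9 y1) (nz9 y4) 3
  have r4 : (G 6 - D 6) + (G 5 - D 5) = (G 0 - D 0) + (G 8 - D 8) :=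
    h.re 1 4 (nz9 y1) (nz9 y4) 4
  have r5 : (D 8 - E 8) + (D 1 - E 1) = (D 5 - E 5) + (D 7 - E 7) :=
    h.rg 0 6 (nz9 z0) (nz9 z6) 1
  have r6 : (D 7 - E 7) + (D 2 - E 2) = (D 4 - E 4) + (D 8 - E 8) :=
    h.rg 0 6 (nz9 z0) (nz9 z6) 2
  have r7 : (D 6 - E 6) + (D 3 - E 3) = (D 3 - E 3) + (D 0 - E 0) :=
    h.rg 0 6 (nz9 z0) (nz9 z6) 3
  have r8 : (D 5 - E 5) + (D 4 - E 4) = (D 2 - E 2) + (D 1 - E 1) :=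
    h.rg 0 6 (nz9 z0) (nz9 z6) 4
  simp only [x0, x1, x2, x4, x5, x6, x7, x8, y0, y2, y3, y5, y6, y7, y8, z1, z2, z3, z4, z5, z7, z8, sub_zero, zero_sub, add_zero, zero_add, mul_zero, sub_self] at sD sE sG v1 v2 r1 r2 r3 r4 r5 r6 r7 r8
  clear hl a0 a1 a2 a3 a4 a5 a6 a7 a8
  clear x0 x1 x2 x4 x5 x6 x7 x8 y0 y2 y3 y5 y6 y7 y8 z1 z2 z3 z4 z5 z7 z8
  exfalso
  omega

lemma cas_16587 (h : H9 D E G d)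
    (hl : ∀ i : ℕ, i < 9 → lab D E G (i : ZMod 9) = dg 16587 i) : Con9 D E G := by
  have hk : d ≤ 4 := h.rh9 hl
  obtain ⟨a0, a1, a2, a3, a4, a5, a6, a7, a8⟩ := hl9 hl
  obtain ⟨x0, y0, z0⟩ := h.toTr.nlab3 (a0.trans rfl)
  obtain ⟨x1, y1, z1⟩ := h.toTr.nlab2 (a1.trans rfl)
  obtain ⟨x2, y2, z2⟩ := lab0 (a2.trans rfl)
  obtain ⟨x3, y3, z3⟩ := h.toTr.nlab3 (a3.trans rfl)
  obtain ⟨x4, y4, z4⟩ := lab0 (a4.trans rfl)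
  obtain ⟨x5, y5, z5⟩ := lab0 (a5.trans rfl)
  obtain ⟨x6, y6, z6⟩ := lab0 (a6.trans rfl)
  obtain ⟨x7, y7, z7⟩ := h.toTr.nlab1 (a7.trans rfl)
  obtain ⟨x8, y8, z8⟩ := lab0 (a8.trans rfl)
  have sD := h.toTr.s9
  have sE := h.toTr.rot.s9
  have sG := h.toTr.rot.rot.s9
  have pd := h.pos
  have v1 := dvd9 h.s1
  have v2 := dvd9 h.s2
  have r1 : (D 8 - E 8) + (D 1 - E 1) = (D 2 - E 2) + (D 4 - E 4) :=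
    h.rg 0 3 (nz9 z0) (nz9 z3) 1
  have r2 : (D 7 - E 7) + (D 2 - E 2) = (D 1 - E 1) + (D 5 - E 5) :=
    h.rg 0 3 (nz9 z0) (nz9 z3) 2
  have r3 : (D 6 - E 6) + (D 3 - E 3) = (D 0 - E 0) + (D 6 - E 6) :=
    h.rg 0 3 (nz9 z0) (nz9 z3) 3
  have r4 : (D 5 - E 5) + (D 4 - E 4) = (D 8 - E 8) + (D 7 - E 7) :=
    h.rg 0 3 (nz9 z0) (nz9 z3) 4
  simp only [x0, x1, x2, x3, x4, x5, x6, x8, y0, y2, y3, y4, y5, y6, y7, y8, z1, z2, z4, z5, z6, z7, z8, sub_zero, zero_sub, add_zero, zero_add, mul_zero, sub_self] at sD sE sG v1 v2 r1 r2 r3 r4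
  clear hl a0 a1 a2 a3 a4 a5 a6 a7 a8
  clear x0 x1 x2 x3 x4 x5 x6 x8 y0 y2 y3 y4 y5 y6 y7 y8 z1 z2 z4 z5 z6 z7 z8
  exfalso
  omega

lemma cas_4299 (h : H9 D E G d)
    (hl : ∀ i : ℕ, i < 9 → lab D E G (i : ZMod 9) = dg 4299 i) : Con9 D E G := by
  have hk : d ≤ 4 := h.rh9 hl
  obtain ⟨a0, a1, a2, a3, a4, a5, a6, a7, a8⟩ := hl9 hl
  obtain ⟨x0, y0, z0⟩ := h.toTr.nlab3 (a0.trans rfl)
  obtain ⟨x1, y1, z1⟩ := h.toTr.nlab2 (a1.trans rfl)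
  obtain ⟨x2, y2, z2⟩ := lab0 (a2.trans rfl)
  obtain ⟨x3, y3, z3⟩ := h.toTr.nlab3 (a3.trans rfl)
  obtain ⟨x4, y4, z4⟩ := lab0 (a4.trans rfl)
  obtain ⟨x5, y5, z5⟩ := lab0 (a5.trans rfl)
  obtain ⟨x6, y6, z6⟩ := h.toTr.nlab1 (a6.trans rfl)
  obtain ⟨x7, y7, z7⟩ := lab0 (a7.trans rfl)
  obtain ⟨x8, y8, z8⟩ := lab0 (a8.trans rfl)
  have sD := h.toTr.s9
  have sE := h.toTr.rot.s9
  have sG := h.toTr.rot.rot.s9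
  have pd := h.pos
  have v1 := dvd9 h.s1
  have v2 := dvd9 h.s2
  have r1 : (D 8 - E 8) + (D 1 - E 1) = (D 2 - E 2) + (D 4 - E 4) :=
    h.rg 0 3 (nz9 z0) (nz9 z3) 1
  have r2 : (D 7 - E 7) + (D 2 - E 2) = (D 1 - E 1) + (D 5 - E 5) :=
    h.rg 0 3 (nz9 z0) (nz9 z3) 2
  have r3 : (D 6 - E 6) + (D 3 - E 3) = (D 0 - E 0) + (D 6 - E 6) :=
    h.rg 0 3 (nz9 z0) (nz9 z3) 3
  have r4 : (D 5 - E 5) + (D 4 - E 4) = (D 8 - E 8) + (D 7 - E 7) :=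
    h.rg 0 3 (nz9 z0) (nz9 z3) 4
  simp only [x0, x1, x2, x3, x4, x5, x7, x8, y0, y2, y3, y4, y5, y6, y7, y8, z1, z2, z4, z5, z6, z7, z8, sub_zero, zero_sub, add_zero, zero_add, mul_zero, sub_self] at sD sE sG v1 v2 r1 r2 r3 r4
  clear hl a0 a1 a2 a3 a4 a5 a6 a7 a8
  clear x0 x1 x2 x3 x4 x5 x7 x8 y0 y2 y3 y4 y5 y6 y7 y8 z1 z2 z4 z5 z6 z7 z8
  exfalso
  omega

lemma cas_37067 (h : H9 D E G d)
    (hl : ∀ i : ℕ, i < 9 → lab D E G (i : ZMod 9) = dg 37067 i) : Con9 D E G := by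
  have hk : d ≤ 5 := h.rh9 hl
  obtain ⟨a0, a1, a2, a3, a4, a5, a6, a7, a8⟩ := hl9 hl
  obtain ⟨x0, y0, z0⟩ := h.toTr.nlab3 (a0.trans rfl)
  obtain ⟨x1, y1, z1⟩ := h.toTr.nlab2 (a1.trans rfl)
  obtain ⟨x2, y2, z2⟩ := lab0 (a2.trans rfl)
  obtain ⟨x3, y3, z3⟩ := h.toTr.nlab3 (a3.trans rfl)
  obtain ⟨x4, y4, z4⟩ := lab0 (a4.trans rfl)
  obtain ⟨x5, y5, z5⟩ := lab0 (a5.trans rfl)
  obtain ⟨x6, y6, z6⟩ := h.toTr.nlab1 (a6.trans rfl)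
  obtain ⟨x7, y7, z7⟩ := h.toTr.nlab2 (a7.trans rfl)
  obtain ⟨x8, y8, z8⟩ := lab0 (a8.trans rfl)
  have sD := h.toTr.s9
  have sE := h.toTr.rot.s9
  have sG := h.toTr.rot.rot.s9
  have pd := h.pos
  have v1 := dvd9 h.s1
  have v2 := dvd9 h.s2
  have r1 : (G 0 - D 0) + (G 2 - D 2) = (G 6 - D 6) + (G 8 - D 8) :=
    h.re 1 7 (nz9 y1) (nz9 y7) 1
  have r2 : (G 8 - D 8) + (G 3 - D 3) = (G 5 - D 5) + (G 0 - D 0) :=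
    h.re 1 7 (nz9 y1) (nz9 y7) 2
  have r3 : (G 7 - D 7) + (G 4 - D 4) = (G 4 - D 4) + (G 1 - D 1) :=
    h.re 1 7 (nz9 y1) (nz9 y7) 3
  have r4 : (G 6 - D 6) + (G 5 - D 5) = (G 3 - D 3) + (G 2 - D 2) :=
    h.re 1 7 (nz9 y1) (nz9 y7) 4
  have r5 : (D 8 - E 8) + (D 1 - E 1) = (D 2 - E 2) + (D 4 - E 4) :=
    h.rg 0 3 (nz9 z0) (nz9 z3) 1
  have r6 : (D 7 - E 7) + (D 2 - E 2) = (D 1 - E 1) + (D 5 - E 5) :=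
    h.rg 0 3 (nz9 z0) (nz9 z3) 2
  have r7 : (D 6 - E 6) + (D 3 - E 3) = (D 0 - E 0) + (D 6 - E 6) :=
    h.rg 0 3 (nz9 z0) (nz9 z3) 3
  have r8 : (D 5 - E 5) + (D 4 - E 4) = (D 8 - E 8) + (D 7 - E 7) :=
    h.rg 0 3 (nz9 z0) (nz9 z3) 4
  simp only [x0, x1, x2, x3, x4, x5, x7, x8, y0, y2, y3, y4, y5, y6, y8, z1, z2, z4, z5, z6, z7, z8, sub_zero, zero_sub, add_zero, zero_add, mul_zero, sub_self] at sD sE sG v1 v2 r1 r2 r3 r4 r5 r6 r7 r8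
  clear hl a0 a1 a2 a3 a4 a5 a6 a7 a8
  clear x0 x1 x2 x3 x4 x5 x7 x8 y0 y2 y3 y4 y5 y6 y8 z1 z2 z4 z5 z6 z7 z8
  exfalso
  omega

lemma cas_1227 (h : H9 D E G d)
    (hl : ∀ i : ℕ, i < 9 → lab D E G (i : ZMod 9) = dg 1227 i) : Con9 D E G := by
  have hk : d ≤ 4 := h.rh9 hl
  obtain ⟨a0, a1, a2, a3, a4, a5, a6, a7, a8⟩ := hl9 hl
  obtain ⟨x0, y0, z0⟩ := h.toTr.nlab3 (a0.trans rfl)
  obtain ⟨x1, y1, z1⟩ := h.toTr.nlab2 (a1.trans rfl)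
  obtain ⟨x2, y2, z2⟩ := lab0 (a2.trans rfl)
  obtain ⟨x3, y3, z3⟩ := h.toTr.nlab3 (a3.trans rfl)
  obtain ⟨x4, y4, z4⟩ := lab0 (a4.trans rfl)
  obtain ⟨x5, y5, z5⟩ := h.toTr.nlab1 (a5.trans rfl)
  obtain ⟨x6, y6, z6⟩ := lab0 (a6.trans rfl)
  obtain ⟨x7, y7, z7⟩ := lab0 (a7.trans rfl)
  obtain ⟨x8, y8, z8⟩ := lab0 (a8.trans rfl)
  have sD := h.toTr.s9
  have sE := h.toTr.rot.s9
  have sG := h.toTr.rot.rot.s9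
  have pd := h.pos
  have v1 := dvd9 h.s1
  have v2 := dvd9 h.s2
  have r1 : (D 8 - E 8) + (D 1 - E 1) = (D 2 - E 2) + (D 4 - E 4) :=
    h.rg 0 3 (nz9 z0) (nz9 z3) 1
  have r2 : (D 7 - E 7) + (D 2 - E 2) = (D 1 - E 1) + (D 5 - E 5) :=
    h.rg 0 3 (nz9 z0) (nz9 z3) 2
  have r3 : (D 6 - E 6) + (D 3 - E 3) = (D 0 - E 0) + (D 6 - E 6) :=
    h.rg 0 3 (nz9 z0) (nz9 z3) 3
  have r4 : (D 5 - E 5) + (D 4 - E 4) = (D 8 - E 8) + (D 7 - E 7) :=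
    h.rg 0 3 (nz9 z0) (nz9 z3) 4
  simp only [x0, x1, x2, x3, x4, x6, x7, x8, y0, y2, y3, y4, y5, y6, y7, y8, z1, z2, z4, z5, z6, z7, z8, sub_zero, zero_sub, add_zero, zero_add, mul_zero, sub_self] at sD sE sG v1 v2 r1 r2 r3 r4
  clear hl a0 a1 a2 a3 a4 a5 a6 a7 a8
  clear x0 x1 x2 x3 x4 x6 x7 x8 y0 y2 y3 y4 y5 y6 y7 y8 z1 z2 z4 z5 z6 z7 z8
  exfalso
  omega

lemma cas_33995 (h : H9 D E G d)
    (hl : ∀ i : ℕ, i < 9 → lab D E G (i : ZMod 9) = dg 33995 i) : Con9 D E G := by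
  have hk : d ≤ 5 := h.rh9 hl
  obtain ⟨a0, a1, a2, a3, a4, a5, a6, a7, a8⟩ := hl9 hl
  obtain ⟨x0, y0, z0⟩ := h.toTr.nlab3 (a0.trans rfl)
  obtain ⟨x1, y1, z1⟩ := h.toTr.nlab2 (a1.trans rfl)
  obtain ⟨x2, y2, z2⟩ := lab0 (a2.trans rfl)
  obtain ⟨x3, y3, z3⟩ := h.toTr.nlab3 (a3.trans rfl)
  obtain ⟨x4, y4, z4⟩ := lab0 (a4.trans rfl)
  obtain ⟨x5, y5, z5⟩ := h.toTr.nlab1 (a5.trans rfl)
  obtain ⟨x6, y6, z6⟩ := lab0 (a6.trans rfl)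
  obtain ⟨x7, y7, z7⟩ := h.toTr.nlab2 (a7.trans rfl)
  obtain ⟨x8, y8, z8⟩ := lab0 (a8.trans rfl)
  have sD := h.toTr.s9
  have sE := h.toTr.rot.s9
  have sG := h.toTr.rot.rot.s9
  have pd := h.pos
  have v1 := dvd9 h.s1
  have v2 := dvd9 h.s2
  have r1 : (G 0 - D 0) + (G 2 - D 2) = (G 6 - D 6) + (G 8 - D 8) :=
    h.re 1 7 (nz9 y1) (nz9 y7) 1
  have r2 : (G 8 - D 8) + (G 3 - D 3) = (G 5 - D 5) + (G 0 - D 0) :=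
    h.re 1 7 (nz9 y1) (nz9 y7) 2
  have r3 : (G 7 - D 7) + (G 4 - D 4) = (G 4 - D 4) + (G 1 - D 1) :=
    h.re 1 7 (nz9 y1) (nz9 y7) 3
  have r4 : (G 6 - D 6) + (G 5 - D 5) = (G 3 - D 3) + (G 2 - D 2) :=
    h.re 1 7 (nz9 y1) (nz9 y7) 4
  have r5 : (D 8 - E 8) + (D 1 - E 1) = (D 2 - E 2) + (D 4 - E 4) :=
    h.rg 0 3 (nz9 z0) (nz9 z3) 1
  have r6 : (D 7 - E 7) + (D 2 - E 2) = (D 1 - E 1) + (D 5 - E 5) :=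
    h.rg 0 3 (nz9 z0) (nz9 z3) 2
  have r7 : (D 6 - E 6) + (D 3 - E 3) = (D 0 - E 0) + (D 6 - E 6) :=
    h.rg 0 3 (nz9 z0) (nz9 z3) 3
  have r8 : (D 5 - E 5) + (D 4 - E 4) = (D 8 - E 8) + (D 7 - E 7) :=
    h.rg 0 3 (nz9 z0) (nz9 z3) 4
  simp only [x0, x1, x2, x3, x4, x6, x7, x8, y0, y2, y3, y4, y5, y6, y8, z1, z2, z4, z5, z6, z7, z8, sub_zero, zero_sub, add_zero, zero_add, mul_zero, sub_self] at sD sE sG v1 v2 r1 r2 r3 r4 r5 r6 r7 r8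
  clear hl a0 a1 a2 a3 a4 a5 a6 a7 a8
  clear x0 x1 x2 x3 x4 x6 x7 x8 y0 y2 y3 y4 y5 y6 y8 z1 z2 z4 z5 z6 z7 z8
  exfalso
  omega

lemma cas_13515 (h : H9 D E G d)
    (hl : ∀ i : ℕ, i < 9 → lab D E G (i : ZMod 9) = dg 13515 i) : Con9 D E G := by
  have hk : d ≤ 5 := h.rh9 hl
  obtain ⟨a0, a1, a2, a3, a4, a5, a6, a7, a8⟩ := hl9 hl
  obtain ⟨x0, y0, z0⟩ := h.toTr.nlab3 (a0.trans rfl)
  obtain ⟨x1, y1, z1⟩ := h.toTr.nlab2 (a1.trans rfl)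
  obtain ⟨x2, y2, z2⟩ := lab0 (a2.trans rfl)
  obtain ⟨x3, y3, z3⟩ := h.toTr.nlab3 (a3.trans rfl)
  obtain ⟨x4, y4, z4⟩ := lab0 (a4.trans rfl)
  obtain ⟨x5, y5, z5⟩ := h.toTr.nlab1 (a5.trans rfl)
  obtain ⟨x6, y6, z6⟩ := h.toTr.nlab3 (a6.trans rfl)
  obtain ⟨x7, y7, z7⟩ := lab0 (a7.trans rfl)
  obtain ⟨x8, y8, z8⟩ := lab0 (a8.trans rfl)
  have sD := h.toTr.s9
  have sE := h.toTr.rot.s9
  have sG := h.toTr.rot.rot.s9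
  have pd := h.pos
  have v1 := dvd9 h.s1
  have v2 := dvd9 h.s2
  have r1 : (D 8 - E 8) + (D 1 - E 1) = (D 2 - E 2) + (D 4 - E 4) :=
    h.rg 0 3 (nz9 z0) (nz9 z3) 1
  have r2 : (D 7 - E 7) + (D 2 - E 2) = (D 1 - E 1) + (D 5 - E 5) :=
    h.rg 0 3 (nz9 z0) (nz9 z3) 2
  have r3 : (D 6 - E 6) + (D 3 - E 3) = (D 0 - E 0) + (D 6 - E 6) :=
    h.rg 0 3 (nz9 z0) (nz9 z3) 3
  have r4 : (D 5 - E 5) + (D 4 - E 4) = (D 8 - E 8) + (D 7 - E 7) :=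
    h.rg 0 3 (nz9 z0) (nz9 z3) 4
  have r5 : (D 8 - E 8) + (D 1 - E 1) = (D 5 - E 5) + (D 7 - E 7) :=
    h.rg 0 6 (nz9 z0) (nz9 z6) 1
  have r6 : (D 7 - E 7) + (D 2 - E 2) = (D 4 - E 4) + (D 8 - E 8) :=
    h.rg 0 6 (nz9 z0) (nz9 z6) 2
  have r7 : (D 6 - E 6) + (D 3 - E 3) = (D 3 - E 3) + (D 0 - E 0) :=
    h.rg 0 6 (nz9 z0) (nz9 z6) 3
  have r8 : (D 5 - E 5) + (D 4 - E 4) = (D 2 - E 2) + (D 1 - E 1) :=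
    h.rg 0 6 (nz9 z0) (nz9 z6) 4
  simp only [x0, x1, x2, x3, x4, x6, x7, x8, y0, y2, y3, y4, y5, y6, y7, y8, z1, z2, z4, z5, z7, z8, sub_zero, zero_sub, add_zero, zero_add, mul_zero, sub_self] at sD sE sG v1 v2 r1 r2 r3 r4 r5 r6 r7 r8
  clear hl a0 a1 a2 a3 a4 a5 a6 a7 a8
  clear x0 x1 x2 x3 x4 x6 x7 x8 y0 y2 y3 y4 y5 y6 y7 y8 z1 z2 z4 z5 z7 z8
  exfalso
  omega

lemma cas_459 (h : H9 D E G d)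
    (hl : ∀ i : ℕ, i < 9 → lab D E G (i : ZMod 9) = dg 459 i) : Con9 D E G := by
  have hk : d ≤ 4 := h.rh9 hl
  obtain ⟨a0, a1, a2, a3, a4, a5, a6, a7, a8⟩ := hl9 hl
  obtain ⟨x0, y0, z0⟩ := h.toTr.nlab3 (a0.trans rfl)
  obtain ⟨x1, y1, z1⟩ := h.toTr.nlab2 (a1.trans rfl)
  obtain ⟨x2, y2, z2⟩ := lab0 (a2.trans rfl)
  obtain ⟨x3, y3, z3⟩ := h.toTr.nlab3 (a3.trans rfl)
  obtain ⟨x4, y4, z4⟩ := h.toTr.nlab1 (a4.trans rfl)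
  obtain ⟨x5, y5, z5⟩ := lab0 (a5.trans rfl)
  obtain ⟨x6, y6, z6⟩ := lab0 (a6.trans rfl)
  obtain ⟨x7, y7, z7⟩ := lab0 (a7.trans rfl)
  obtain ⟨x8, y8, z8⟩ := lab0 (a8.trans rfl)
  have sD := h.toTr.s9
  have sE := h.toTr.rot.s9
  have sG := h.toTr.rot.rot.s9
  have pd := h.pos
  have v1 := dvd9 h.s1
  have v2 := dvd9 h.s2
  have r1 : (D 8 - E 8) + (D 1 - E 1) = (D 2 - E 2) + (D 4 - E 4) :=
    h.rg 0 3 (nz9 z0) (nz9 z3) 1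
  have r2 : (D 7 - E 7) + (D 2 - E 2) = (D 1 - E 1) + (D 5 - E 5) :=
    h.rg 0 3 (nz9 z0) (nz9 z3) 2
  have r3 : (D 6 - E 6) + (D 3 - E 3) = (D 0 - E 0) + (D 6 - E 6) :=
    h.rg 0 3 (nz9 z0) (nz9 z3) 3
  have r4 : (D 5 - E 5) + (D 4 - E 4) = (D 8 - E 8) + (D 7 - E 7) :=
    h.rg 0 3 (nz9 z0) (nz9 z3) 4
  simp only [x0, x1, x2, x3, x5, x6, x7, x8, y0, y2, y3, y4, y5, y6, y7, y8, z1, z2, z4, z5, z6, z7, z8, sub_zero, zero_sub, add_zero, zero_add, mul_zero, sub_self] at sD sE sG v1 v2 r1 r2 r3 r4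
  clear hl a0 a1 a2 a3 a4 a5 a6 a7 a8
  clear x0 x1 x2 x3 x5 x6 x7 x8 y0 y2 y3 y4 y5 y6 y7 y8 z1 z2 z4 z5 z6 z7 z8
  exfalso
  omega

lemma cas_16843 (h : H9 D E G d)
    (hl : ∀ i : ℕ, i < 9 → lab D E G (i : ZMod 9) = dg 16843 i) : Con9 D E G := by
  have hk : d ≤ 5 := h.rh9 hl
  obtain ⟨a0, a1, a2, a3, a4, a5, a6, a7, a8⟩ := hl9 hl
  obtain ⟨x0, y0, z0⟩ := h.toTr.nlab3 (a0.trans rfl)
  obtain ⟨x1, y1, z1⟩ := h.toTr.nlab2 (a1.trans rfl)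
  obtain ⟨x2, y2, z2⟩ := lab0 (a2.trans rfl)
  obtain ⟨x3, y3, z3⟩ := h.toTr.nlab3 (a3.trans rfl)
  obtain ⟨x4, y4, z4⟩ := h.toTr.nlab1 (a4.trans rfl)
  obtain ⟨x5, y5, z5⟩ := lab0 (a5.trans rfl)
  obtain ⟨x6, y6, z6⟩ := lab0 (a6.trans rfl)
  obtain ⟨x7, y7, z7⟩ := h.toTr.nlab1 (a7.trans rfl)
  obtain ⟨x8, y8, z8⟩ := lab0 (a8.trans rfl)
  have sD := h.toTr.s9
  have sE := h.toTr.rot.s9
  have sG := h.toTr.rot.rot.s9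
  have pd := h.pos
  have v1 := dvd9 h.s1
  have v2 := dvd9 h.s2
  have r1 : (E 3 - G 3) + (E 5 - G 5) = (E 6 - G 6) + (E 8 - G 8) :=
    h.rd 4 7 (nz9 x4) (nz9 x7) 1
  have r2 : (E 2 - G 2) + (E 6 - G 6) = (E 5 - G 5) + (E 0 - G 0) :=
    h.rd 4 7 (nz9 x4) (nz9 x7) 2
  have r3 : (E 1 - G 1) + (E 7 - G 7) = (E 4 - G 4) + (E 1 - G 1) :=
    h.rd 4 7 (nz9 x4) (nz9 x7) 3
  have r4 : (E 0 - G 0) + (E 8 - G 8) = (E 3 - G 3) + (E 2 - G 2) :=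
    h.rd 4 7 (nz9 x4) (nz9 x7) 4
  have r5 : (D 8 - E 8) + (D 1 - E 1) = (D 2 - E 2) + (D 4 - E 4) :=
    h.rg 0 3 (nz9 z0) (nz9 z3) 1
  have r6 : (D 7 - E 7) + (D 2 - E 2) = (D 1 - E 1) + (D 5 - E 5) :=
    h.rg 0 3 (nz9 z0) (nz9 z3) 2
  have r7 : (D 6 - E 6) + (D 3 - E 3) = (D 0 - E 0) + (D 6 - E 6) :=
    h.rg 0 3 (nz9 z0) (nz9 z3) 3
  have r8 : (D 5 - E 5) + (D 4 - E 4) = (D 8 - E 8) + (D 7 - E 7) :=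
    h.rg 0 3 (nz9 z0) (nz9 z3) 4
  simp only [x0, x1, x2, x3, x5, x6, x8, y0, y2, y3, y4, y5, y6, y7, y8, z1, z2, z4, z5, z6, z7, z8, sub_zero, zero_sub, add_zero, zero_add, mul_zero, sub_self] at sD sE sG v1 v2 r1 r2 r3 r4 r5 r6 r7 r8
  clear hl a0 a1 a2 a3 a4 a5 a6 a7 a8
  clear x0 x1 x2 x3 x5 x6 x8 y0 y2 y3 y4 y5 y6 y7 y8 z1 z2 z4 z5 z6 z7 z8
  exfalso
  omega

lemma cas_33227 (h : H9 D E G d)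
    (hl : ∀ i : ℕ, i < 9 → lab D E G (i : ZMod 9) = dg 33227 i) : Con9 D E G := by
  have hk : d ≤ 5 := h.rh9 hl
  obtain ⟨a0, a1, a2, a3, a4, a5, a6, a7, a8⟩ := hl9 hl
  obtain ⟨x0, y0, z0⟩ := h.toTr.nlab3 (a0.trans rfl)
  obtain ⟨x1, y1, z1⟩ := h.toTr.nlab2 (a1.trans rfl)
  obtain ⟨x2, y2, z2⟩ := lab0 (a2.trans rfl)
  obtain ⟨x3, y3, z3⟩ := h.toTr.nlab3 (a3.trans rfl)
  obtain ⟨x4, y4, z4⟩ := h.toTr.nlab1 (a4.trans rfl)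
  obtain ⟨x5, y5, z5⟩ := lab0 (a5.trans rfl)
  obtain ⟨x6, y6, z6⟩ := lab0 (a6.trans rfl)
  obtain ⟨x7, y7, z7⟩ := h.toTr.nlab2 (a7.trans rfl)
  obtain ⟨x8, y8, z8⟩ := lab0 (a8.trans rfl)
  have sD := h.toTr.s9
  have sE := h.toTr.rot.s9
  have sG := h.toTr.rot.rot.s9
  have pd := h.pos
  have v1 := dvd9 h.s1
  have v2 := dvd9 h.s2
  have r1 : (G 0 - D 0) + (G 2 - D 2) = (G 6 - D 6) + (G 8 - D 8) :=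
    h.re 1 7 (nz9 y1) (nz9 y7) 1
  have r2 : (G 8 - D 8) + (G 3 - D 3) = (G 5 - D 5) + (G 0 - D 0) :=
    h.re 1 7 (nz9 y1) (nz9 y7) 2
  have r3 : (G 7 - D 7) + (G 4 - D 4) = (G 4 - D 4) + (G 1 - D 1) :=
    h.re 1 7 (nz9 y1) (nz9 y7) 3
  have r4 : (G 6 - D 6) + (G 5 - D 5) = (G 3 - D 3) + (G 2 - D 2) :=
    h.re 1 7 (nz9 y1) (nz9 y7) 4
  have r5 : (D 8 - E 8) + (D 1 - E 1) = (D 2 - E 2) + (D 4 - E 4) :=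
    h.rg 0 3 (nz9 z0) (nz9 z3) 1
  have r6 : (D 7 - E 7) + (D 2 - E 2) = (D 1 - E 1) + (D 5 - E 5) :=
    h.rg 0 3 (nz9 z0) (nz9 z3) 2
  have r7 : (D 6 - E 6) + (D 3 - E 3) = (D 0 - E 0) + (D 6 - E 6) :=
    h.rg 0 3 (nz9 z0) (nz9 z3) 3
  have r8 : (D 5 - E 5) + (D 4 - E 4) = (D 8 - E 8) + (D 7 - E 7) :=
    h.rg 0 3 (nz9 z0) (nz9 z3) 4
  simp only [x0, x1, x2, x3, x5, x6, x7, x8, y0, y2, y3, y4, y5, y6, y8, z1, z2, z4, z5, z6, z7, z8, sub_zero, zero_sub, add_zero, zero_add, mul_zero, sub_self] at sD sE sG v1 v2 r1 r2 r3 r4 r5 r6 r7 r8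
  clear hl a0 a1 a2 a3 a4 a5 a6 a7 a8
  clear x0 x1 x2 x3 x5 x6 x7 x8 y0 y2 y3 y4 y5 y6 y8 z1 z2 z4 z5 z6 z7 z8
  exfalso
  omega

lemma cas_12747 (h : H9 D E G d)
    (hl : ∀ i : ℕ, i < 9 → lab D E G (i : ZMod 9) = dg 12747 i) : Con9 D E G := by
  have hk : d ≤ 5 := h.rh9 hl
  obtain ⟨a0, a1, a2, a3, a4, a5, a6, a7, a8⟩ := hl9 hl
  obtain ⟨x0, y0, z0⟩ := h.toTr.nlab3 (a0.trans rfl)
  obtain ⟨x1, y1, z1⟩ := h.toTr.nlab2 (a1.trans rfl)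
  obtain ⟨x2, y2, z2⟩ := lab0 (a2.trans rfl)
  obtain ⟨x3, y3, z3⟩ := h.toTr.nlab3 (a3.trans rfl)
  obtain ⟨x4, y4, z4⟩ := h.toTr.nlab1 (a4.trans rfl)
  obtain ⟨x5, y5, z5⟩ := lab0 (a5.trans rfl)
  obtain ⟨x6, y6, z6⟩ := h.toTr.nlab3 (a6.trans rfl)
  obtain ⟨x7, y7, z7⟩ := lab0 (a7.trans rfl)
  obtain ⟨x8, y8, z8⟩ := lab0 (a8.trans rfl)
  have sD := h.toTr.s9
  have sE := h.toTr.rot.s9
  have sG := h.toTr.rot.rot.s9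
  have pd := h.pos
  have v1 := dvd9 h.s1
  have v2 := dvd9 h.s2
  have r1 : (D 8 - E 8) + (D 1 - E 1) = (D 2 - E 2) + (D 4 - E 4) :=
    h.rg 0 3 (nz9 z0) (nz9 z3) 1
  have r2 : (D 7 - E 7) + (D 2 - E 2) = (D 1 - E 1) + (D 5 - E 5) :=
    h.rg 0 3 (nz9 z0) (nz9 z3) 2
  have r3 : (D 6 - E 6) + (D 3 - E 3) = (D 0 - E 0) + (D 6 - E 6) :=
    h.rg 0 3 (nz9 z0) (nz9 z3) 3
  have r4 : (D 5 - E 5) + (D 4 - E 4) = (D 8 - E 8) + (D 7 - E 7) :=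
    h.rg 0 3 (nz9 z0) (nz9 z3) 4
  have r5 : (D 8 - E 8) + (D 1 - E 1) = (D 5 - E 5) + (D 7 - E 7) :=
    h.rg 0 6 (nz9 z0) (nz9 z6) 1
  have r6 : (D 7 - E 7) + (D 2 - E 2) = (D 4 - E 4) + (D 8 - E 8) :=
    h.rg 0 6 (nz9 z0) (nz9 z6) 2
  have r7 : (D 6 - E 6) + (D 3 - E 3) = (D 3 - E 3) + (D 0 - E 0) :=
    h.rg 0 6 (nz9 z0) (nz9 z6) 3
  have r8 : (D 5 - E 5) + (D 4 - E 4) = (D 2 - E 2) + (D 1 - E 1) :=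
    h.rg 0 6 (nz9 z0) (nz9 z6) 4
  simp only [x0, x1, x2, x3, x5, x6, x7, x8, y0, y2, y3, y4, y5, y6, y7, y8, z1, z2, z4, z5, z7, z8, sub_zero, zero_sub, add_zero, zero_add, mul_zero, sub_self] at sD sE sG v1 v2 r1 r2 r3 r4 r5 r6 r7 r8
  clear hl a0 a1 a2 a3 a4 a5 a6 a7 a8
  clear x0 x1 x2 x3 x5 x6 x7 x8 y0 y2 y3 y4 y5 y6 y7 y8 z1 z2 z4 z5 z7 z8
  exfalso
  omega

lemma cas_17099 (h : H9 D E G d)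
    (hl : ∀ i : ℕ, i < 9 → lab D E G (i : ZMod 9) = dg 17099 i) : Con9 D E G := by
  have hk : d ≤ 5 := h.rh9 hl
  obtain ⟨a0, a1, a2, a3, a4, a5, a6, a7, a8⟩ := hl9 hl
  obtain ⟨x0, y0, z0⟩ := h.toTr.nlab3 (a0.trans rfl)
  obtain ⟨x1, y1, z1⟩ := h.toTr.nlab2 (a1.trans rfl)
  obtain ⟨x2, y2, z2⟩ := lab0 (a2.trans rfl)
  obtain ⟨x3, y3, z3⟩ := h.toTr.nlab3 (a3.trans rfl)
  obtain ⟨x4, y4, z4⟩ := h.toTr.nlab2 (a4.trans rfl)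
  obtain ⟨x5, y5, z5⟩ := lab0 (a5.trans rfl)
  obtain ⟨x6, y6, z6⟩ := lab0 (a6.trans rfl)
  obtain ⟨x7, y7, z7⟩ := h.toTr.nlab1 (a7.trans rfl)
  obtain ⟨x8, y8, z8⟩ := lab0 (a8.trans rfl)
  have sD := h.toTr.s9
  have sE := h.toTr.rot.s9
  have sG := h.toTr.rot.rot.s9
  have pd := h.pos
  have v1 := dvd9 h.s1
  have v2 := dvd9 h.s2
  have r1 : (G 0 - D 0) + (G 2 - D 2) = (G 3 - D 3) + (G 5 - D 5) :=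
    h.re 1 4 (nz9 y1) (nz9 y4) 1
  have r2 : (G 8 - D 8) + (G 3 - D 3) = (G 2 - D 2) + (G 6 - D 6) :=
    h.re 1 4 (nz9 y1) (nz9 y4) 2
  have r3 : (G 7 - D 7) + (G 4 - D 4) = (G 1 - D 1) + (G 7 - D 7) :=
    h.re 1 4 (nz9 y1) (nz9 y4) 3
  have r4 : (G 6 - D 6) + (G 5 - D 5) = (G 0 - D 0) + (G 8 - D 8) :=
    h.re 1 4 (nz9 y1) (nz9 y4) 4
  have r5 : (D 8 - E 8) + (D 1 - E 1) = (D 2 - E 2) + (D 4 - E 4) :=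
    h.rg 0 3 (nz9 z0) (nz9 z3) 1
  have r6 : (D 7 - E 7) + (D 2 - E 2) = (D 1 - E 1) + (D 5 - E 5) :=
    h.rg 0 3 (nz9 z0) (nz9 z3) 2
  have r7 : (D 6 - E 6) + (D 3 - E 3) = (D 0 - E 0) + (D 6 - E 6) :=
    h.rg 0 3 (nz9 z0) (nz9 z3) 3
  have r8 : (D 5 - E 5) + (D 4 - E 4) = (D 8 - E 8) + (D 7 - E 7) :=
    h.rg 0 3 (nz9 z0) (nz9 z3) 4
  simp only [x0, x1, x2, x3, x4, x5, x6, x8, y0, y2, y3, y5, y6, y7, y8, z1, z2, z4, z5, z6, z7, z8, sub_zero, zero_sub, add_zero, zero_add, mul_zero, sub_self] at sD sE sG v1 v2 r1 r2 r3 r4 r5 r6 r7 r8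
  clear hl a0 a1 a2 a3 a4 a5 a6 a7 a8
  clear x0 x1 x2 x3 x4 x5 x6 x8 y0 y2 y3 y5 y6 y7 y8 z1 z2 z4 z5 z6 z7 z8
  exfalso
  omega

lemma cas_4811 (h : H9 D E G d)
    (hl : ∀ i : ℕ, i < 9 → lab D E G (i : ZMod 9) = dg 4811 i) : Con9 D E G := by
  have hk : d ≤ 5 := h.rh9 hl
  obtain ⟨a0, a1, a2, a3, a4, a5, a6, a7, a8⟩ := hl9 hl
  obtain ⟨x0, y0, z0⟩ := h.toTr.nlab3 (a0.trans rfl)
  obtain ⟨x1, y1, z1⟩ := h.toTr.nlab2 (a1.trans rfl)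
  obtain ⟨x2, y2, z2⟩ := lab0 (a2.trans rfl)
  obtain ⟨x3, y3, z3⟩ := h.toTr.nlab3 (a3.trans rfl)
  obtain ⟨x4, y4, z4⟩ := h.toTr.nlab2 (a4.trans rfl)
  obtain ⟨x5, y5, z5⟩ := lab0 (a5.trans rfl)
  obtain ⟨x6, y6, z6⟩ := h.toTr.nlab1 (a6.trans rfl)
  obtain ⟨x7, y7, z7⟩ := lab0 (a7.trans rfl)
  obtain ⟨x8, y8, z8⟩ := lab0 (a8.trans rfl)
  have sD := h.toTr.s9
  have sE := h.toTr.rot.s9
  have sG := h.toTr.rot.rot.s9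
  have pd := h.pos
  have v1 := dvd9 h.s1
  have v2 := dvd9 h.s2
  have r1 : (G 0 - D 0) + (G 2 - D 2) = (G 3 - D 3) + (G 5 - D 5) :=
    h.re 1 4 (nz9 y1) (nz9 y4) 1
  have r2 : (G 8 - D 8) + (G 3 - D 3) = (G 2 - D 2) + (G 6 - D 6) :=
    h.re 1 4 (nz9 y1) (nz9 y4) 2
  have r3 : (G 7 - D 7) + (G 4 - D 4) = (G 1 - D 1) + (G 7 - D 7) :=
    h.re 1 4 (nz9 y1) (nz9 y4) 3
  have r4 : (G 6 - D 6) + (G 5 - D 5) = (G 0 - D 0) + (G 8 - D 8) :=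
    h.re 1 4 (nz9 y1) (nz9 y4) 4
  have r5 : (D 8 - E 8) + (D 1 - E 1) = (D 2 - E 2) + (D 4 - E 4) :=
    h.rg 0 3 (nz9 z0) (nz9 z3) 1
  have r6 : (D 7 - E 7) + (D 2 - E 2) = (D 1 - E 1) + (D 5 - E 5) :=
    h.rg 0 3 (nz9 z0) (nz9 z3) 2
  have r7 : (D 6 - E 6) + (D 3 - E 3) = (D 0 - E 0) + (D 6 - E 6) :=
    h.rg 0 3 (nz9 z0) (nz9 z3) 3
  have r8 : (D 5 - E 5) + (D 4 - E 4) = (D 8 - E 8) + (D 7 - E 7) :=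
    h.rg 0 3 (nz9 z0) (nz9 z3) 4
  simp only [x0, x1, x2, x3, x4, x5, x7, x8, y0, y2, y3, y5, y6, y7, y8, z1, z2, z4, z5, z6, z7, z8, sub_zero, zero_sub, add_zero, zero_add, mul_zero, sub_self] at sD sE sG v1 v2 r1 r2 r3 r4 r5 r6 r7 r8
  clear hl a0 a1 a2 a3 a4 a5 a6 a7 a8
  clear x0 x1 x2 x3 x4 x5 x7 x8 y0 y2 y3 y5 y6 y7 y8 z1 z2 z4 z5 z6 z7 z8
  exfalso
  omega

lemma cas_37579 (h : H9 D E G d)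
    (hl : ∀ i : ℕ, i < 9 → lab D E G (i : ZMod 9) = dg 37579 i) : Con9 D E G := by
  have hk : d ≤ 6 := h.rh9 hl
  obtain ⟨a0, a1, a2, a3, a4, a5, a6, a7, a8⟩ := hl9 hl
  obtain ⟨x0, y0, z0⟩ := h.toTr.nlab3 (a0.trans rfl)
  obtain ⟨x1, y1, z1⟩ := h.toTr.nlab2 (a1.trans rfl)
  obtain ⟨x2, y2, z2⟩ := lab0 (a2.trans rfl)
  obtain ⟨x3, y3, z3⟩ := h.toTr.nlab3 (a3.trans rfl)
  obtain ⟨x4, y4, z4⟩ := h.toTr.nlab2 (a4.trans rfl)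
  obtain ⟨x5, y5, z5⟩ := lab0 (a5.trans rfl)
  obtain ⟨x6, y6, z6⟩ := h.toTr.nlab1 (a6.trans rfl)
  obtain ⟨x7, y7, z7⟩ := h.toTr.nlab2 (a7.trans rfl)
  obtain ⟨x8, y8, z8⟩ := lab0 (a8.trans rfl)
  have sD := h.toTr.s9
  have sE := h.toTr.rot.s9
  have sG := h.toTr.rot.rot.s9
  have pd := h.pos
  have v1 := dvd9 h.s1
  have v2 := dvd9 h.s2
  have r1 : (G 0 - D 0) + (G 2 - D 2) = (G 3 - D 3) + (G 5 - D 5) :=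
    h.re 1 4 (nz9 y1) (nz9 y4) 1
  have r2 : (G 8 - D 8) + (G 3 - D 3) = (G 2 - D 2) + (G 6 - D 6) :=
    h.re 1 4 (nz9 y1) (nz9 y4) 2
  have r3 : (G 7 - D 7) + (G 4 - D 4) = (G 1 - D 1) + (G 7 - D 7) :=
    h.re 1 4 (nz9 y1) (nz9 y4) 3
  have r4 : (G 6 - D 6) + (G 5 - D 5) = (G 0 - D 0) + (G 8 - D 8) :=
    h.re 1 4 (nz9 y1) (nz9 y4) 4
  have r5 : (G 0 - D 0) + (G 2 - D 2) = (G 6 - D 6) + (G 8 - D 8) :=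
    h.re 1 7 (nz9 y1) (nz9 y7) 1
  have r6 : (G 8 - D 8) + (G 3 - D 3) = (G 5 - D 5) + (G 0 - D 0) :=
    h.re 1 7 (nz9 y1) (nz9 y7) 2
  have r7 : (G 7 - D 7) + (G 4 - D 4) = (G 4 - D 4) + (G 1 - D 1) :=
    h.re 1 7 (nz9 y1) (nz9 y7) 3
  have r8 : (G 6 - D 6) + (G 5 - D 5) = (G 3 - D 3) + (G 2 - D 2) :=
    h.re 1 7 (nz9 y1) (nz9 y7) 4
  have r9 : (D 8 - E 8) + (D 1 - E 1) = (D 2 - E 2) + (D 4 - E 4) :=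
    h.rg 0 3 (nz9 z0) (nz9 z3) 1
  have r10 : (D 7 - E 7) + (D 2 - E 2) = (D 1 - E 1) + (D 5 - E 5) :=
    h.rg 0 3 (nz9 z0) (nz9 z3) 2
  have r11 : (D 6 - E 6) + (D 3 - E 3) = (D 0 - E 0) + (D 6 - E 6) :=
    h.rg 0 3 (nz9 z0) (nz9 z3) 3
  have r12 : (D 5 - E 5) + (D 4 - E 4) = (D 8 - E 8) + (D 7 - E 7) :=
    h.rg 0 3 (nz9 z0) (nz9 z3) 4
  simp only [x0, x1, x2, x3, x4, x5, x7, x8, y0, y2, y3, y5, y6, y8, z1, z2, z4, z5, z6, z7, z8, sub_zero, zero_sub, add_zero, zero_add, mul_zero, sub_self] at sD sE sG v1 v2 r1 r2 r3 r4 r5 r6 r7 r8 r9 r10 r11 r12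
  clear hl a0 a1 a2 a3 a4 a5 a6 a7 a8
  clear x0 x1 x2 x3 x4 x5 x7 x8 y0 y2 y3 y5 y6 y8 z1 z2 z4 z5 z6 z7 z8
  exfalso
  omega

lemma cas_29387 (h : H9 D E G d)
    (hl : ∀ i : ℕ, i < 9 → lab D E G (i : ZMod 9) = dg 29387 i) : Con9 D E G := by
  have hk : d ≤ 6 := h.rh9 hl
  obtain ⟨a0, a1, a2, a3, a4, a5, a6, a7, a8⟩ := hl9 hl
  obtain ⟨x0, y0, z0⟩ := h.toTr.nlab3 (a0.trans rfl)
  obtain ⟨x1, y1, z1⟩ := h.toTr.nlab2 (a1.trans rfl)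
  obtain ⟨x2, y2, z2⟩ := lab0 (a2.trans rfl)
  obtain ⟨x3, y3, z3⟩ := h.toTr.nlab3 (a3.trans rfl)
  obtain ⟨x4, y4, z4⟩ := h.toTr.nlab2 (a4.trans rfl)
  obtain ⟨x5, y5, z5⟩ := lab0 (a5.trans rfl)
  obtain ⟨x6, y6, z6⟩ := h.toTr.nlab3 (a6.trans rfl)
  obtain ⟨x7, y7, z7⟩ := h.toTr.nlab1 (a7.trans rfl)
  obtain ⟨x8, y8, z8⟩ := lab0 (a8.trans rfl)
  have sD := h.toTr.s9
  have sE := h.toTr.rot.s9
  have sG := h.toTr.rot.rot.s9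
  have pd := h.pos
  have v1 := dvd9 h.s1
  have v2 := dvd9 h.s2
  have r1 : (G 0 - D 0) + (G 2 - D 2) = (G 3 - D 3) + (G 5 - D 5) :=
    h.re 1 4 (nz9 y1) (nz9 y4) 1
  have r2 : (G 8 - D 8) + (G 3 - D 3) = (G 2 - D 2) + (G 6 - D 6) :=
    h.re 1 4 (nz9 y1) (nz9 y4) 2
  have r3 : (G 7 - D 7) + (G 4 - D 4) = (G 1 - D 1) + (G 7 - D 7) :=
    h.re 1 4 (nz9 y1) (nz9 y4) 3
  have r4 : (G 6 - D 6) + (G 5 - D 5) = (G 0 - D 0) + (G 8 - D 8) :=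
    h.re 1 4 (nz9 y1) (nz9 y4) 4
  have r5 : (D 8 - E 8) + (D 1 - E 1) = (D 2 - E 2) + (D 4 - E 4) :=
    h.rg 0 3 (nz9 z0) (nz9 z3) 1
  have r6 : (D 7 - E 7) + (D 2 - E 2) = (D 1 - E 1) + (D 5 - E 5) :=
    h.rg 0 3 (nz9 z0) (nz9 z3) 2
  have r7 : (D 6 - E 6) + (D 3 - E 3) = (D 0 - E 0) + (D 6 - E 6) :=
    h.rg 0 3 (nz9 z0) (nz9 z3) 3
  have r8 : (D 5 - E 5) + (D 4 - E 4) = (D 8 - E 8) + (D 7 - E 7) :=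
    h.rg 0 3 (nz9 z0) (nz9 z3) 4
  have r9 : (D 8 - E 8) + (D 1 - E 1) = (D 5 - E 5) + (D 7 - E 7) :=
    h.rg 0 6 (nz9 z0) (nz9 z6) 1
  have r10 : (D 7 - E 7) + (D 2 - E 2) = (D 4 - E 4) + (D 8 - E 8) :=
    h.rg 0 6 (nz9 z0) (nz9 z6) 2
  have r11 : (D 6 - E 6) + (D 3 - E 3) = (D 3 - E 3) + (D 0 - E 0) :=
    h.rg 0 6 (nz9 z0) (nz9 z6) 3
  have r12 : (D 5 - E 5) + (D 4 - E 4) = (D 2 - E 2) + (D 1 - E 1) :=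
    h.rg 0 6 (nz9 z0) (nz9 z6) 4
  simp only [x0, x1, x2, x3, x4, x5, x6, x8, y0, y2, y3, y5, y6, y7, y8, z1, z2, z4, z5, z7, z8, sub_zero, zero_sub, add_zero, zero_add, mul_zero, sub_self] at sD sE sG v1 v2 r1 r2 r3 r4 r5 r6 r7 r8 r9 r10 r11 r12
  clear hl a0 a1 a2 a3 a4 a5 a6 a7 a8
  clear x0 x1 x2 x3 x4 x5 x6 x8 y0 y2 y3 y5 y6 y7 y8 z1 z2 z4 z5 z7 z8
  exfalso
  omega

lemma cas_27 (h : H9 D E G d)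
    (hl : ∀ i : ℕ, i < 9 → lab D E G (i : ZMod 9) = dg 27 i) : Con9 D E G := by
  have hk : d ≤ 3 := h.rh9 hl
  obtain ⟨a0, a1, a2, a3, a4, a5, a6, a7, a8⟩ := hl9 hl
  obtain ⟨x0, y0, z0⟩ := h.toTr.nlab3 (a0.trans rfl)
  obtain ⟨x1, y1, z1⟩ := h.toTr.nlab2 (a1.trans rfl)
  obtain ⟨x2, y2, z2⟩ := h.toTr.nlab1 (a2.trans rfl)
  obtain ⟨x3, y3, z3⟩ := lab0 (a3.trans rfl)
  obtain ⟨x4, y4, z4⟩ := lab0 (a4.trans rfl)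
  obtain ⟨x5, y5, z5⟩ := lab0 (a5.trans rfl)
  obtain ⟨x6, y6, z6⟩ := lab0 (a6.trans rfl)
  obtain ⟨x7, y7, z7⟩ := lab0 (a7.trans rfl)
  obtain ⟨x8, y8, z8⟩ := lab0 (a8.trans rfl)
  have sD := h.toTr.s9
  have sE := h.toTr.rot.s9
  have sG := h.toTr.rot.rot.s9
  have pd := h.pos
  have v1 := dvd9 h.s1
  have v2 := dvd9 h.s2
  simp only [x0, x1, x3, x4, x5, x6, x7, x8, y0, y2, y3, y4, y5, y6, y7, y8, z1, z2, z3, z4, z5, z6, z7, z8, sub_zero, zero_sub, add_zero, zero_add, mul_zero, sub_self] at sD sE sG v1 v2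
  clear hl a0 a1 a2 a3 a4 a5 a6 a7 a8
  clear x0 x1 x3 x4 x5 x6 x7 x8 y0 y2 y3 y4 y5 y6 y7 y8 z1 z2 z3 z4 z5 z6 z7 z8
  exfalso
  omega

lemma cas_32795 (h : H9 D E G d)
    (hl : ∀ i : ℕ, i < 9 → lab D E G (i : ZMod 9) = dg 32795 i) : Con9 D E G := by
  have hk : d ≤ 4 := h.rh9 hl
  obtain ⟨a0, a1, a2, a3, a4, a5, a6, a7, a8⟩ := hl9 hl
  obtain ⟨x0, y0, z0⟩ := h.toTr.nlab3 (a0.trans rfl)
  obtain ⟨x1, y1, z1⟩ := h.toTr.nlab2 (a1.trans rfl)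
  obtain ⟨x2, y2, z2⟩ := h.toTr.nlab1 (a2.trans rfl)
  obtain ⟨x3, y3, z3⟩ := lab0 (a3.trans rfl)
  obtain ⟨x4, y4, z4⟩ := lab0 (a4.trans rfl)
  obtain ⟨x5, y5, z5⟩ := lab0 (a5.trans rfl)
  obtain ⟨x6, y6, z6⟩ := lab0 (a6.trans rfl)
  obtain ⟨x7, y7, z7⟩ := h.toTr.nlab2 (a7.trans rfl)
  obtain ⟨x8, y8, z8⟩ := lab0 (a8.trans rfl)
  have sD := h.toTr.s9
  have sE := h.toTr.rot.s9
  have sG := h.toTr.rot.rot.s9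
  have pd := h.pos
  have v1 := dvd9 h.s1
  have v2 := dvd9 h.s2
  have r1 : (G 0 - D 0) + (G 2 - D 2) = (G 6 - D 6) + (G 8 - D 8) :=
    h.re 1 7 (nz9 y1) (nz9 y7) 1
  have r2 : (G 8 - D 8) + (G 3 - D 3) = (G 5 - D 5) + (G 0 - D 0) :=
    h.re 1 7 (nz9 y1) (nz9 y7) 2
  have r3 : (G 7 - D 7) + (G 4 - D 4) = (G 4 - D 4) + (G 1 - D 1) :=
    h.re 1 7 (nz9 y1) (nz9 y7) 3
  have r4 : (G 6 - D 6) + (G 5 - D 5) = (G 3 - D 3) + (G 2 - D 2) :=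
    h.re 1 7 (nz9 y1) (nz9 y7) 4
  simp only [x0, x1, x3, x4, x5, x6, x7, x8, y0, y2, y3, y4, y5, y6, y8, z1, z2, z3, z4, z5, z6, z7, z8, sub_zero, zero_sub, add_zero, zero_add, mul_zero, sub_self] at sD sE sG v1 v2 r1 r2 r3 r4
  clear hl a0 a1 a2 a3 a4 a5 a6 a7 a8
  clear x0 x1 x3 x4 x5 x6 x7 x8 y0 y2 y3 y4 y5 y6 y8 z1 z2 z3 z4 z5 z6 z7 z8
  exfalso
  omega

lemma cas_12315 (h : H9 D E G d)
    (hl : ∀ i : ℕ, i < 9 → lab D E G (i : ZMod 9) = dg 12315 i) : Con9 D E G := by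
  have hk : d ≤ 4 := h.rh9 hl
  obtain ⟨a0, a1, a2, a3, a4, a5, a6, a7, a8⟩ := hl9 hl
  obtain ⟨x0, y0, z0⟩ := h.toTr.nlab3 (a0.trans rfl)
  obtain ⟨x1, y1, z1⟩ := h.toTr.nlab2 (a1.trans rfl)
  obtain ⟨x2, y2, z2⟩ := h.toTr.nlab1 (a2.trans rfl)
  obtain ⟨x3, y3, z3⟩ := lab0 (a3.trans rfl)
  obtain ⟨x4, y4, z4⟩ := lab0 (a4.trans rfl)
  obtain ⟨x5, y5, z5⟩ := lab0 (a5.trans rfl)
  obtain ⟨x6, y6, z6⟩ := h.toTr.nlab3 (a6.trans rfl)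
  obtain ⟨x7, y7, z7⟩ := lab0 (a7.trans rfl)
  obtain ⟨x8, y8, z8⟩ := lab0 (a8.trans rfl)
  have sD := h.toTr.s9
  have sE := h.toTr.rot.s9
  have sG := h.toTr.rot.rot.s9
  have pd := h.pos
  have v1 := dvd9 h.s1
  have v2 := dvd9 h.s2
  have r1 : (D 8 - E 8) + (D 1 - E 1) = (D 5 - E 5) + (D 7 - E 7) :=
    h.rg 0 6 (nz9 z0) (nz9 z6) 1
  have r2 : (D 7 - E 7) + (D 2 - E 2) = (D 4 - E 4) + (D 8 - E 8) :=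
    h.rg 0 6 (nz9 z0) (nz9 z6) 2
  have r3 : (D 6 - E 6) + (D 3 - E 3) = (D 3 - E 3) + (D 0 - E 0) :=
    h.rg 0 6 (nz9 z0) (nz9 z6) 3
  have r4 : (D 5 - E 5) + (D 4 - E 4) = (D 2 - E 2) + (D 1 - E 1) :=
    h.rg 0 6 (nz9 z0) (nz9 z6) 4
  simp only [x0, x1, x3, x4, x5, x6, x7, x8, y0, y2, y3, y4, y5, y6, y7, y8, z1, z2, z3, z4, z5, z7, z8, sub_zero, zero_sub, add_zero, zero_add, mul_zero, sub_self] at sD sE sG v1 v2 r1 r2 r3 r4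
  clear hl a0 a1 a2 a3 a4 a5 a6 a7 a8
  clear x0 x1 x3 x4 x5 x6 x7 x8 y0 y2 y3 y4 y5 y6 y7 y8 z1 z2 z3 z4 z5 z7 z8
  exfalso
  omega

lemma cas_45083 (h : H9 D E G d)
    (hl : ∀ i : ℕ, i < 9 → lab D E G (i : ZMod 9) = dg 45083 i) : Con9 D E G := by
  have hk : d ≤ 5 := h.rh9 hl
  obtain ⟨a0, a1, a2, a3, a4, a5, a6, a7, a8⟩ := hl9 hl
  obtain ⟨x0, y0, z0⟩ := h.toTr.nlab3 (a0.trans rfl)
  obtain ⟨x1, y1, z1⟩ := h.toTr.nlab2 (a1.trans rfl)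
  obtain ⟨x2, y2, z2⟩ := h.toTr.nlab1 (a2.trans rfl)
  obtain ⟨x3, y3, z3⟩ := lab0 (a3.trans rfl)
  obtain ⟨x4, y4, z4⟩ := lab0 (a4.trans rfl)
  obtain ⟨x5, y5, z5⟩ := lab0 (a5.trans rfl)
  obtain ⟨x6, y6, z6⟩ := h.toTr.nlab3 (a6.trans rfl)
  obtain ⟨x7, y7, z7⟩ := h.toTr.nlab2 (a7.trans rfl)
  obtain ⟨x8, y8, z8⟩ := lab0 (a8.trans rfl)
  have sD := h.toTr.s9
  have sE := h.toTr.rot.s9
  have sG := h.toTr.rot.rot.s9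
  have pd := h.pos
  have v1 := dvd9 h.s1
  have v2 := dvd9 h.s2
  have r1 : (G 0 - D 0) + (G 2 - D 2) = (G 6 - D 6) + (G 8 - D 8) :=
    h.re 1 7 (nz9 y1) (nz9 y7) 1
  have r2 : (G 8 - D 8) + (G 3 - D 3) = (G 5 - D 5) + (G 0 - D 0) :=
    h.re 1 7 (nz9 y1) (nz9 y7) 2
  have r3 : (G 7 - D 7) + (G 4 - D 4) = (G 4 - D 4) + (G 1 - D 1) :=
    h.re 1 7 (nz9 y1) (nz9 y7) 3
  have r4 : (G 6 - D 6) + (G 5 - D 5) = (G 3 - D 3) + (G 2 - D 2) :=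
    h.re 1 7 (nz9 y1) (nz9 y7) 4
  have r5 : (D 8 - E 8) + (D 1 - E 1) = (D 5 - E 5) + (D 7 - E 7) :=
    h.rg 0 6 (nz9 z0) (nz9 z6) 1
  have r6 : (D 7 - E 7) + (D 2 - E 2) = (D 4 - E 4) + (D 8 - E 8) :=
    h.rg 0 6 (nz9 z0) (nz9 z6) 2
  have r7 : (D 6 - E 6) + (D 3 - E 3) = (D 3 - E 3) + (D 0 - E 0) :=
    h.rg 0 6 (nz9 z0) (nz9 z6) 3
  have r8 : (D 5 - E 5) + (D 4 - E 4) = (D 2 - E 2) + (D 1 - E 1) :=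
    h.rg 0 6 (nz9 z0) (nz9 z6) 4
  simp only [x0, x1, x3, x4, x5, x6, x7, x8, y0, y2, y3, y4, y5, y6, y8, z1, z2, z3, z4, z5, z7, z8, sub_zero, zero_sub, add_zero, zero_add, mul_zero, sub_self] at sD sE sG v1 v2 r1 r2 r3 r4 r5 r6 r7 r8
  clear hl a0 a1 a2 a3 a4 a5 a6 a7 a8
  clear x0 x1 x3 x4 x5 x6 x7 x8 y0 y2 y3 y4 y5 y6 y8 z1 z2 z3 z4 z5 z7 z8
  exfalso
  omega

lemma cas_1051 (h : H9 D E G d)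
    (hl : ∀ i : ℕ, i < 9 → lab D E G (i : ZMod 9) = dg 1051 i) : Con9 D E G := by
  have hk : d ≤ 4 := h.rh9 hl
  obtain ⟨a0, a1, a2, a3, a4, a5, a6, a7, a8⟩ := hl9 hl
  obtain ⟨x0, y0, z0⟩ := h.toTr.nlab3 (a0.trans rfl)
  obtain ⟨x1, y1, z1⟩ := h.toTr.nlab2 (a1.trans rfl)
  obtain ⟨x2, y2, z2⟩ := h.toTr.nlab1 (a2.trans rfl)
  obtain ⟨x3, y3, z3⟩ := lab0 (a3.trans rfl)
  obtain ⟨x4, y4, z4⟩ := lab0 (a4.trans rfl)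
  obtain ⟨x5, y5, z5⟩ := h.toTr.nlab1 (a5.trans rfl)
  obtain ⟨x6, y6, z6⟩ := lab0 (a6.trans rfl)
  obtain ⟨x7, y7, z7⟩ := lab0 (a7.trans rfl)
  obtain ⟨x8, y8, z8⟩ := lab0 (a8.trans rfl)
  have sD := h.toTr.s9
  have sE := h.toTr.rot.s9
  have sG := h.toTr.rot.rot.s9
  have pd := h.pos
  have v1 := dvd9 h.s1
  have v2 := dvd9 h.s2
  have r1 : (E 1 - G 1) + (E 3 - G 3) = (E 4 - G 4) + (E 6 - G 6) :=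
    h.rd 2 5 (nz9 x2) (nz9 x5) 1
  have r2 : (E 0 - G 0) + (E 4 - G 4) = (E 3 - G 3) + (E 7 - G 7) :=
    h.rd 2 5 (nz9 x2) (nz9 x5) 2
  have r3 : (E 8 - G 8) + (E 5 - G 5) = (E 2 - G 2) + (E 8 - G 8) :=
    h.rd 2 5 (nz9 x2) (nz9 x5) 3
  have r4 : (E 7 - G 7) + (E 6 - G 6) = (E 1 - G 1) + (E 0 - G 0) :=
    h.rd 2 5 (nz9 x2) (nz9 x5) 4
  simp only [x0, x1, x3, x4, x6, x7, x8, y0, y2, y3, y4, y5, y6, y7, y8, z1, z2, z3, z4, z5, z6, z7, z8, sub_zero, zero_sub, add_zero, zero_add, mul_zero, sub_self] at sD sE sG v1 v2 r1 r2 r3 r4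
  clear hl a0 a1 a2 a3 a4 a5 a6 a7 a8
  clear x0 x1 x3 x4 x6 x7 x8 y0 y2 y3 y4 y5 y6 y7 y8 z1 z2 z3 z4 z5 z6 z7 z8
  exfalso
  omega

lemma cas_33819 (h : H9 D E G d)
    (hl : ∀ i : ℕ, i < 9 → lab D E G (i : ZMod 9) = dg 33819 i) : Con9 D E G := by
  have hk : d ≤ 5 := h.rh9 hl
  obtain ⟨a0, a1, a2, a3, a4, a5, a6, a7, a8⟩ := hl9 hl
  obtain ⟨x0, y0, z0⟩ := h.toTr.nlab3 (a0.trans rfl)
  obtain ⟨x1, y1, z1⟩ := h.toTr.nlab2 (a1.trans rfl)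
  obtain ⟨x2, y2, z2⟩ := h.toTr.nlab1 (a2.trans rfl)
  obtain ⟨x3, y3, z3⟩ := lab0 (a3.trans rfl)
  obtain ⟨x4, y4, z4⟩ := lab0 (a4.trans rfl)
  obtain ⟨x5, y5, z5⟩ := h.toTr.nlab1 (a5.trans rfl)
  obtain ⟨x6, y6, z6⟩ := lab0 (a6.trans rfl)
  obtain ⟨x7, y7, z7⟩ := h.toTr.nlab2 (a7.trans rfl)
  obtain ⟨x8, y8, z8⟩ := lab0 (a8.trans rfl)
  have sD := h.toTr.s9
  have sE := h.toTr.rot.s9
  have sG := h.toTr.rot.rot.s9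
  have pd := h.pos
  have v1 := dvd9 h.s1
  have v2 := dvd9 h.s2
  have r1 : (E 1 - G 1) + (E 3 - G 3) = (E 4 - G 4) + (E 6 - G 6) :=
    h.rd 2 5 (nz9 x2) (nz9 x5) 1
  have r2 : (E 0 - G 0) + (E 4 - G 4) = (E 3 - G 3) + (E 7 - G 7) :=
    h.rd 2 5 (nz9 x2) (nz9 x5) 2
  have r3 : (E 8 - G 8) + (E 5 - G 5) = (E 2 - G 2) + (E 8 - G 8) :=
    h.rd 2 5 (nz9 x2) (nz9 x5) 3
  have r4 : (E 7 - G 7) + (E 6 - G 6) = (E 1 - G 1) + (E 0 - G 0) :=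
    h.rd 2 5 (nz9 x2) (nz9 x5) 4
  have r5 : (G 0 - D 0) + (G 2 - D 2) = (G 6 - D 6) + (G 8 - D 8) :=
    h.re 1 7 (nz9 y1) (nz9 y7) 1
  have r6 : (G 8 - D 8) + (G 3 - D 3) = (G 5 - D 5) + (G 0 - D 0) :=
    h.re 1 7 (nz9 y1) (nz9 y7) 2
  have r7 : (G 7 - D 7) + (G 4 - D 4) = (G 4 - D 4) + (G 1 - D 1) :=
    h.re 1 7 (nz9 y1) (nz9 y7) 3
  have r8 : (G 6 - D 6) + (G 5 - D 5) = (G 3 - D 3) + (G 2 - D 2) :=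
    h.re 1 7 (nz9 y1) (nz9 y7) 4
  simp only [x0, x1, x3, x4, x6, x7, x8, y0, y2, y3, y4, y5, y6, y8, z1, z2, z3, z4, z5, z6, z7, z8, sub_zero, zero_sub, add_zero, zero_add, mul_zero, sub_self] at sD sE sG v1 v2 r1 r2 r3 r4 r5 r6 r7 r8
  clear hl a0 a1 a2 a3 a4 a5 a6 a7 a8
  clear x0 x1 x3 x4 x6 x7 x8 y0 y2 y3 y4 y5 y6 y8 z1 z2 z3 z4 z5 z6 z7 z8
  exfalso
  omega

lemma cas_13339 (h : H9 D E G d)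
    (hl : ∀ i : ℕ, i < 9 → lab D E G (i : ZMod 9) = dg 13339 i) : Con9 D E G := by
  have hk : d ≤ 5 := h.rh9 hl
  obtain ⟨a0, a1, a2, a3, a4, a5, a6, a7, a8⟩ := hl9 hl
  obtain ⟨x0, y0, z0⟩ := h.toTr.nlab3 (a0.trans rfl)
  obtain ⟨x1, y1, z1⟩ := h.toTr.nlab2 (a1.trans rfl)
  obtain ⟨x2, y2, z2⟩ := h.toTr.nlab1 (a2.trans rfl)
  obtain ⟨x3, y3, z3⟩ := lab0 (a3.trans rfl)
  obtain ⟨x4, y4, z4⟩ := lab0 (a4.trans rfl)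
  obtain ⟨x5, y5, z5⟩ := h.toTr.nlab1 (a5.trans rfl)
  obtain ⟨x6, y6, z6⟩ := h.toTr.nlab3 (a6.trans rfl)
  obtain ⟨x7, y7, z7⟩ := lab0 (a7.trans rfl)
  obtain ⟨x8, y8, z8⟩ := lab0 (a8.trans rfl)
  have sD := h.toTr.s9
  have sE := h.toTr.rot.s9
  have sG := h.toTr.rot.rot.s9
  have pd := h.pos
  have v1 := dvd9 h.s1
  have v2 := dvd9 h.s2
  have r1 : (E 1 - G 1) + (E 3 - G 3) = (E 4 - G 4) + (E 6 - G 6) :=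
    h.rd 2 5 (nz9 x2) (nz9 x5) 1
  have r2 : (E 0 - G 0) + (E 4 - G 4) = (E 3 - G 3) + (E 7 - G 7) :=
    h.rd 2 5 (nz9 x2) (nz9 x5) 2
  have r3 : (E 8 - G 8) + (E 5 - G 5) = (E 2 - G 2) + (E 8 - G 8) :=
    h.rd 2 5 (nz9 x2) (nz9 x5) 3
  have r4 : (E 7 - G 7) + (E 6 - G 6) = (E 1 - G 1) + (E 0 - G 0) :=
    h.rd 2 5 (nz9 x2) (nz9 x5) 4
  have r5 : (D 8 - E 8) + (D 1 - E 1) = (D 5 - E 5) + (D 7 - E 7) :=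
    h.rg 0 6 (nz9 z0) (nz9 z6) 1
  have r6 : (D 7 - E 7) + (D 2 - E 2) = (D 4 - E 4) + (D 8 - E 8) :=
    h.rg 0 6 (nz9 z0) (nz9 z6) 2
  have r7 : (D 6 - E 6) + (D 3 - E 3) = (D 3 - E 3) + (D 0 - E 0) :=
    h.rg 0 6 (nz9 z0) (nz9 z6) 3
  have r8 : (D 5 - E 5) + (D 4 - E 4) = (D 2 - E 2) + (D 1 - E 1) :=
    h.rg 0 6 (nz9 z0) (nz9 z6) 4
  simp only [x0, x1, x3, x4, x6, x7, x8, y0, y2, y3, y4, y5, y6, y7, y8, z1, z2, z3, z4, z5, z7, z8, sub_zero, zero_sub, add_zero, zero_add, mul_zero, sub_self] at sD sE sG v1 v2 r1 r2 r3 r4 r5 r6 r7 r8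
  clear hl a0 a1 a2 a3 a4 a5 a6 a7 a8
  clear x0 x1 x3 x4 x6 x7 x8 y0 y2 y3 y4 y5 y6 y7 y8 z1 z2 z3 z4 z5 z7 z8
  exfalso
  omega

lemma cas_14619 (h : H9 D E G d)
    (hl : ∀ i : ℕ, i < 9 → lab D E G (i : ZMod 9) = dg 14619 i) : Con9 D E G := by
  have hk : d ≤ 6 := h.rh9 hl
  obtain ⟨a0, a1, a2, a3, a4, a5, a6, a7, a8⟩ := hl9 hl
  obtain ⟨x0, y0, z0⟩ := h.toTr.nlab3 (a0.trans rfl)
  obtain ⟨x1, y1, z1⟩ := h.toTr.nlab2 (a1.trans rfl)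
  obtain ⟨x2, y2, z2⟩ := h.toTr.nlab1 (a2.trans rfl)
  obtain ⟨x3, y3, z3⟩ := lab0 (a3.trans rfl)
  obtain ⟨x4, y4, z4⟩ := h.toTr.nlab1 (a4.trans rfl)
  obtain ⟨x5, y5, z5⟩ := h.toTr.nlab2 (a5.trans rfl)
  obtain ⟨x6, y6, z6⟩ := h.toTr.nlab3 (a6.trans rfl)
  obtain ⟨x7, y7, z7⟩ := lab0 (a7.trans rfl)
  obtain ⟨x8, y8, z8⟩ := lab0 (a8.trans rfl)
  have sD := h.toTr.s9
  have sE := h.toTr.rot.s9
  have sG := h.toTr.rot.rot.s9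
  have pd := h.pos
  have v1 := dvd9 h.s1
  have v2 := dvd9 h.s2
  have r1 : (E 1 - G 1) + (E 3 - G 3) = (E 3 - G 3) + (E 5 - G 5) :=
    h.rd 2 4 (nz9 x2) (nz9 x4) 1
  have r2 : (E 0 - G 0) + (E 4 - G 4) = (E 2 - G 2) + (E 6 - G 6) :=
    h.rd 2 4 (nz9 x2) (nz9 x4) 2
  have r3 : (E 8 - G 8) + (E 5 - G 5) = (E 1 - G 1) + (E 7 - G 7) :=
    h.rd 2 4 (nz9 x2) (nz9 x4) 3
  have r4 : (E 7 - G 7) + (E 6 - G 6) = (E 0 - G 0) + (E 8 - G 8) :=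
    h.rd 2 4 (nz9 x2) (nz9 x4) 4
  have r5 : (G 0 - D 0) + (G 2 - D 2) = (G 4 - D 4) + (G 6 - D 6) :=
    h.re 1 5 (nz9 y1) (nz9 y5) 1
  have r6 : (G 8 - D 8) + (G 3 - D 3) = (G 3 - D 3) + (G 7 - D 7) :=
    h.re 1 5 (nz9 y1) (nz9 y5) 2
  have r7 : (G 7 - D 7) + (G 4 - D 4) = (G 2 - D 2) + (G 8 - D 8) :=
    h.re 1 5 (nz9 y1) (nz9 y5) 3
  have r8 : (G 6 - D 6) + (G 5 - D 5) = (G 1 - D 1) + (G 0 - D 0) :=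
    h.re 1 5 (nz9 y1) (nz9 y5) 4
  have r9 : (D 8 - E 8) + (D 1 - E 1) = (D 5 - E 5) + (D 7 - E 7) :=
    h.rg 0 6 (nz9 z0) (nz9 z6) 1
  have r10 : (D 7 - E 7) + (D 2 - E 2) = (D 4 - E 4) + (D 8 - E 8) :=
    h.rg 0 6 (nz9 z0) (nz9 z6) 2
  have r11 : (D 6 - E 6) + (D 3 - E 3) = (D 3 - E 3) + (D 0 - E 0) :=
    h.rg 0 6 (nz9 z0) (nz9 z6) 3
  have r12 : (D 5 - E 5) + (D 4 - E 4) = (D 2 - E 2) + (D 1 - E 1) :=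
    h.rg 0 6 (nz9 z0) (nz9 z6) 4
  simp only [x0, x1, x3, x5, x6, x7, x8, y0, y2, y3, y4, y6, y7, y8, z1, z2, z3, z4, z5, z7, z8, sub_zero, zero_sub, add_zero, zero_add, mul_zero, sub_self] at sD sE sG v1 v2 r1 r2 r3 r4 r5 r6 r7 r8 r9 r10 r11 r12
  clear hl a0 a1 a2 a3 a4 a5 a6 a7 a8
  have kD2 : D 2 = (D 4) * 1 := by
    clear x0 x1 x3 x5 x6 x7 x8 y0 y2 y3 y4 y6 y7 y8 z1 z2 z3 z4 z5 z7 z8
    omega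
  have kD4 : D 4 = (D 4) * 1 := by
    clear x0 x1 x3 x5 x6 x7 x8 y0 y2 y3 y4 y6 y7 y8 z1 z2 z3 z4 z5 z7 z8
    omega
  have kE1 : E 1 = (D 4) * 1 := by
    clear x0 x1 x3 x5 x6 x7 x8 y0 y2 y3 y4 y6 y7 y8 z1 z2 z3 z4 z5 z7 z8
    omega
  have kE5 : E 5 = (D 4) * 1 := by
    clear x0 x1 x3 x5 x6 x7 x8 y0 y2 y3 y4 y6 y7 y8 z1 z2 z3 z4 z5 z7 z8
    omega
  have kG0 : G 0 = (D 4) * 1 := by
    clear x0 x1 x3 x5 x6 x7 x8 y0 y2 y3 y4 y6 y7 y8 z1 z2 z3 z4 z5 z7 z8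
    omega
  have kG6 : G 6 = (D 4) * 1 := by
    clear x0 x1 x3 x5 x6 x7 x8 y0 y2 y3 y4 y6 y7 y8 z1 z2 z3 z4 z5 z7 z8
    omega
  refine Or.inl ⟨6, 4, 6, 5, (D 4), by linarith, all9 ?_ ?_ ?_ ?_ ?_ ?_ ?_ ?_ ?_,
    all9 ?_ ?_ ?_ ?_ ?_ ?_ ?_ ?_ ?_, all9 ?_ ?_ ?_ ?_ ?_ ?_ ?_ ?_ ?_⟩
  · show D 0 = (D 4) * 0
    rw [mul_zero]; exact x0
  · show D 1 = (D 4) * 0
    rw [mul_zero]; exact x1
  · exact kD2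
  · show D 3 = (D 4) * 0
    rw [mul_zero]; exact x3
  · exact kD4
  · show D 5 = (D 4) * 0
    rw [mul_zero]; exact x5
  · show D 6 = (D 4) * 0
    rw [mul_zero]; exact x6
  · show D 7 = (D 4) * 0
    rw [mul_zero]; exact x7
  · show D 8 = (D 4) * 0
    rw [mul_zero]; exact x8
  · show E 0 = (D 4) * 0
    rw [mul_zero]; exact y0
  · exact kE1
  · show E 2 = (D 4) * 0
    rw [mul_zero]; exact y2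
  · show E 3 = (D 4) * 0
    rw [mul_zero]; exact y3
  · show E 4 = (D 4) * 0
    rw [mul_zero]; exact y4
  · exact kE5
  · show E 6 = (D 4) * 0
    rw [mul_zero]; exact y6
  · show E 7 = (D 4) * 0
    rw [mul_zero]; exact y7
  · show E 8 = (D 4) * 0
    rw [mul_zero]; exact y8
  · exact kG0
  · show G 1 = (D 4) * 0
    rw [mul_zero]; exact z1
  · show G 2 = (D 4) * 0
    rw [mul_zero]; exact z2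
  · show G 3 = (D 4) * 0
    rw [mul_zero]; exact z3
  · show G 4 = (D 4) * 0
    rw [mul_zero]; exact z4
  · show G 5 = (D 4) * 0
    rw [mul_zero]; exact z5
  · exact kG6
  · show G 7 = (D 4) * 0
    rw [mul_zero]; exact z7
  · show G 8 = (D 4) * 0
    rw [mul_zero]; exact z8

lemma cas_539 (h : H9 D E G d)
    (hl : ∀ i : ℕ, i < 9 → lab D E G (i : ZMod 9) = dg 539 i) : Con9 D E G := by
  have hk : d ≤ 4 := h.rh9 hl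
  obtain ⟨a0, a1, a2, a3, a4, a5, a6, a7, a8⟩ := hl9 hl
  obtain ⟨x0, y0, z0⟩ := h.toTr.nlab3 (a0.trans rfl)
  obtain ⟨x1, y1, z1⟩ := h.toTr.nlab2 (a1.trans rfl)
  obtain ⟨x2, y2, z2⟩ := h.toTr.nlab1 (a2.trans rfl)
  obtain ⟨x3, y3, z3⟩ := lab0 (a3.trans rfl)
  obtain ⟨x4, y4, z4⟩ := h.toTr.nlab2 (a4.trans rfl)
  obtain ⟨x5, y5, z5⟩ := lab0 (a5.trans rfl)
  obtain ⟨x6, y6, z6⟩ := lab0 (a6.trans rfl)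
  obtain ⟨x7, y7, z7⟩ := lab0 (a7.trans rfl)
  obtain ⟨x8, y8, z8⟩ := lab0 (a8.trans rfl)
  have sD := h.toTr.s9
  have sE := h.toTr.rot.s9
  have sG := h.toTr.rot.rot.s9
  have pd := h.pos
  have v1 := dvd9 h.s1
  have v2 := dvd9 h.s2
  have r1 : (G 0 - D 0) + (G 2 - D 2) = (G 3 - D 3) + (G 5 - D 5) :=
    h.re 1 4 (nz9 y1) (nz9 y4) 1
  have r2 : (G 8 - D 8) + (G 3 - D 3) = (G 2 - D 2) + (G 6 - D 6) :=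
    h.re 1 4 (nz9 y1) (nz9 y4) 2
  have r3 : (G 7 - D 7) + (G 4 - D 4) = (G 1 - D 1) + (G 7 - D 7) :=
    h.re 1 4 (nz9 y1) (nz9 y4) 3
  have r4 : (G 6 - D 6) + (G 5 - D 5) = (G 0 - D 0) + (G 8 - D 8) :=
    h.re 1 4 (nz9 y1) (nz9 y4) 4
  simp only [x0, x1, x3, x4, x5, x6, x7, x8, y0, y2, y3, y5, y6, y7, y8, z1, z2, z3, z4, z5, z6, z7, z8, sub_zero, zero_sub, add_zero, zero_add, mul_zero, sub_self] at sD sE sG v1 v2 r1 r2 r3 r4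
  clear hl a0 a1 a2 a3 a4 a5 a6 a7 a8
  clear x0 x1 x3 x4 x5 x6 x7 x8 y0 y2 y3 y5 y6 y7 y8 z1 z2 z3 z4 z5 z6 z7 z8
  exfalso
  omega

lemma cas_33307 (h : H9 D E G d)
    (hl : ∀ i : ℕ, i < 9 → lab D E G (i : ZMod 9) = dg 33307 i) : Con9 D E G := by
  have hk : d ≤ 5 := h.rh9 hl
  obtain ⟨a0, a1, a2, a3, a4, a5, a6, a7, a8⟩ := hl9 hl
  obtain ⟨x0, y0, z0⟩ := h.toTr.nlab3 (a0.trans rfl)
  obtain ⟨x1, y1, z1⟩ := h.toTr.nlab2 (a1.trans rfl)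
  obtain ⟨x2, y2, z2⟩ := h.toTr.nlab1 (a2.trans rfl)
  obtain ⟨x3, y3, z3⟩ := lab0 (a3.trans rfl)
  obtain ⟨x4, y4, z4⟩ := h.toTr.nlab2 (a4.trans rfl)
  obtain ⟨x5, y5, z5⟩ := lab0 (a5.trans rfl)
  obtain ⟨x6, y6, z6⟩ := lab0 (a6.trans rfl)
  obtain ⟨x7, y7, z7⟩ := h.toTr.nlab2 (a7.trans rfl)
  obtain ⟨x8, y8, z8⟩ := lab0 (a8.trans rfl)
  have sD := h.toTr.s9
  have sE := h.toTr.rot.s9
  have sG := h.toTr.rot.rot.s9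
  have pd := h.pos
  have v1 := dvd9 h.s1
  have v2 := dvd9 h.s2
  have r1 : (G 0 - D 0) + (G 2 - D 2) = (G 3 - D 3) + (G 5 - D 5) :=
    h.re 1 4 (nz9 y1) (nz9 y4) 1
  have r2 : (G 8 - D 8) + (G 3 - D 3) = (G 2 - D 2) + (G 6 - D 6) :=
    h.re 1 4 (nz9 y1) (nz9 y4) 2
  have r3 : (G 7 - D 7) + (G 4 - D 4) = (G 1 - D 1) + (G 7 - D 7) :=
    h.re 1 4 (nz9 y1) (nz9 y4) 3
  have r4 : (G 6 - D 6) + (G 5 - D 5) = (G 0 - D 0) + (G 8 - D 8) :=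
    h.re 1 4 (nz9 y1) (nz9 y4) 4
  have r5 : (G 0 - D 0) + (G 2 - D 2) = (G 6 - D 6) + (G 8 - D 8) :=
    h.re 1 7 (nz9 y1) (nz9 y7) 1
  have r6 : (G 8 - D 8) + (G 3 - D 3) = (G 5 - D 5) + (G 0 - D 0) :=
    h.re 1 7 (nz9 y1) (nz9 y7) 2
  have r7 : (G 7 - D 7) + (G 4 - D 4) = (G 4 - D 4) + (G 1 - D 1) :=
    h.re 1 7 (nz9 y1) (nz9 y7) 3
  have r8 : (G 6 - D 6) + (G 5 - D 5) = (G 3 - D 3) + (G 2 - D 2) :=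
    h.re 1 7 (nz9 y1) (nz9 y7) 4
  simp only [x0, x1, x3, x4, x5, x6, x7, x8, y0, y2, y3, y5, y6, y8, z1, z2, z3, z4, z5, z6, z7, z8, sub_zero, zero_sub, add_zero, zero_add, mul_zero, sub_self] at sD sE sG v1 v2 r1 r2 r3 r4 r5 r6 r7 r8
  clear hl a0 a1 a2 a3 a4 a5 a6 a7 a8
  clear x0 x1 x3 x4 x5 x6 x7 x8 y0 y2 y3 y5 y6 y8 z1 z2 z3 z4 z5 z6 z7 z8
  exfalso
  omega

lemma cas_12827 (h : H9 D E G d)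
    (hl : ∀ i : ℕ, i < 9 → lab D E G (i : ZMod 9) = dg 12827 i) : Con9 D E G := by
  have hk : d ≤ 5 := h.rh9 hl
  obtain ⟨a0, a1, a2, a3, a4, a5, a6, a7, a8⟩ := hl9 hl
  obtain ⟨x0, y0, z0⟩ := h.toTr.nlab3 (a0.trans rfl)
  obtain ⟨x1, y1, z1⟩ := h.toTr.nlab2 (a1.trans rfl)
  obtain ⟨x2, y2, z2⟩ := h.toTr.nlab1 (a2.trans rfl)
  obtain ⟨x3, y3, z3⟩ := lab0 (a3.trans rfl)
  obtain ⟨x4, y4, z4⟩ := h.toTr.nlab2 (a4.trans rfl)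
  obtain ⟨x5, y5, z5⟩ := lab0 (a5.trans rfl)
  obtain ⟨x6, y6, z6⟩ := h.toTr.nlab3 (a6.trans rfl)
  obtain ⟨x7, y7, z7⟩ := lab0 (a7.trans rfl)
  obtain ⟨x8, y8, z8⟩ := lab0 (a8.trans rfl)
  have sD := h.toTr.s9
  have sE := h.toTr.rot.s9
  have sG := h.toTr.rot.rot.s9
  have pd := h.pos
  have v1 := dvd9 h.s1
  have v2 := dvd9 h.s2
  have r1 : (G 0 - D 0) + (G 2 - D 2) = (G 3 - D 3) + (G 5 - D 5) :=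
    h.re 1 4 (nz9 y1) (nz9 y4) 1
  have r2 : (G 8 - D 8) + (G 3 - D 3) = (G 2 - D 2) + (G 6 - D 6) :=
    h.re 1 4 (nz9 y1) (nz9 y4) 2
  have r3 : (G 7 - D 7) + (G 4 - D 4) = (G 1 - D 1) + (G 7 - D 7) :=
    h.re 1 4 (nz9 y1) (nz9 y4) 3
  have r4 : (G 6 - D 6) + (G 5 - D 5) = (G 0 - D 0) + (G 8 - D 8) :=
    h.re 1 4 (nz9 y1) (nz9 y4) 4
  have r5 : (D 8 - E 8) + (D 1 - E 1) = (D 5 - E 5) + (D 7 - E 7) :=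
    h.rg 0 6 (nz9 z0) (nz9 z6) 1
  have r6 : (D 7 - E 7) + (D 2 - E 2) = (D 4 - E 4) + (D 8 - E 8) :=
    h.rg 0 6 (nz9 z0) (nz9 z6) 2
  have r7 : (D 6 - E 6) + (D 3 - E 3) = (D 3 - E 3) + (D 0 - E 0) :=
    h.rg 0 6 (nz9 z0) (nz9 z6) 3
  have r8 : (D 5 - E 5) + (D 4 - E 4) = (D 2 - E 2) + (D 1 - E 1) :=
    h.rg 0 6 (nz9 z0) (nz9 z6) 4
  simp only [x0, x1, x3, x4, x5, x6, x7, x8, y0, y2, y3, y5, y6, y7, y8, z1, z2, z3, z4, z5, z7, z8, sub_zero, zero_sub, add_zero, zero_add, mul_zero, sub_self] at sD sE sG v1 v2 r1 r2 r3 r4 r5 r6 r7 r8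
  clear hl a0 a1 a2 a3 a4 a5 a6 a7 a8
  clear x0 x1 x3 x4 x5 x6 x7 x8 y0 y2 y3 y5 y6 y7 y8 z1 z2 z3 z4 z5 z7 z8
  exfalso
  omega

lemma cas_45595 (h : H9 D E G d)
    (hl : ∀ i : ℕ, i < 9 → lab D E G (i : ZMod 9) = dg 45595 i) : Con9 D E G := by
  have hk : d ≤ 6 := h.rh9 hl
  obtain ⟨a0, a1, a2, a3, a4, a5, a6, a7, a8⟩ := hl9 hl
  obtain ⟨x0, y0, z0⟩ := h.toTr.nlab3 (a0.trans rfl)
  obtain ⟨x1, y1, z1⟩ := h.toTr.nlab2 (a1.trans rfl)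
  obtain ⟨x2, y2, z2⟩ := h.toTr.nlab1 (a2.trans rfl)
  obtain ⟨x3, y3, z3⟩ := lab0 (a3.trans rfl)
  obtain ⟨x4, y4, z4⟩ := h.toTr.nlab2 (a4.trans rfl)
  obtain ⟨x5, y5, z5⟩ := lab0 (a5.trans rfl)
  obtain ⟨x6, y6, z6⟩ := h.toTr.nlab3 (a6.trans rfl)
  obtain ⟨x7, y7, z7⟩ := h.toTr.nlab2 (a7.trans rfl)
  obtain ⟨x8, y8, z8⟩ := lab0 (a8.trans rfl)
  have sD := h.toTr.s9
  have sE := h.toTr.rot.s9
  have sG := h.toTr.rot.rot.s9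
  have pd := h.pos
  have v1 := dvd9 h.s1
  have v2 := dvd9 h.s2
  have r1 : (G 0 - D 0) + (G 2 - D 2) = (G 3 - D 3) + (G 5 - D 5) :=
    h.re 1 4 (nz9 y1) (nz9 y4) 1
  have r2 : (G 8 - D 8) + (G 3 - D 3) = (G 2 - D 2) + (G 6 - D 6) :=
    h.re 1 4 (nz9 y1) (nz9 y4) 2
  have r3 : (G 7 - D 7) + (G 4 - D 4) = (G 1 - D 1) + (G 7 - D 7) :=
    h.re 1 4 (nz9 y1) (nz9 y4) 3
  have r4 : (G 6 - D 6) + (G 5 - D 5) = (G 0 - D 0) + (G 8 - D 8) :=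
    h.re 1 4 (nz9 y1) (nz9 y4) 4
  have r5 : (G 0 - D 0) + (G 2 - D 2) = (G 6 - D 6) + (G 8 - D 8) :=
    h.re 1 7 (nz9 y1) (nz9 y7) 1
  have r6 : (G 8 - D 8) + (G 3 - D 3) = (G 5 - D 5) + (G 0 - D 0) :=
    h.re 1 7 (nz9 y1) (nz9 y7) 2
  have r7 : (G 7 - D 7) + (G 4 - D 4) = (G 4 - D 4) + (G 1 - D 1) :=
    h.re 1 7 (nz9 y1) (nz9 y7) 3
  have r8 : (G 6 - D 6) + (G 5 - D 5) = (G 3 - D 3) + (G 2 - D 2) :=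
    h.re 1 7 (nz9 y1) (nz9 y7) 4
  have r9 : (D 8 - E 8) + (D 1 - E 1) = (D 5 - E 5) + (D 7 - E 7) :=
    h.rg 0 6 (nz9 z0) (nz9 z6) 1
  have r10 : (D 7 - E 7) + (D 2 - E 2) = (D 4 - E 4) + (D 8 - E 8) :=
    h.rg 0 6 (nz9 z0) (nz9 z6) 2
  have r11 : (D 6 - E 6) + (D 3 - E 3) = (D 3 - E 3) + (D 0 - E 0) :=
    h.rg 0 6 (nz9 z0) (nz9 z6) 3
  have r12 : (D 5 - E 5) + (D 4 - E 4) = (D 2 - E 2) + (D 1 - E 1) :=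
    h.rg 0 6 (nz9 z0) (nz9 z6) 4
  simp only [x0, x1, x3, x4, x5, x6, x7, x8, y0, y2, y3, y5, y6, y8, z1, z2, z3, z4, z5, z7, z8, sub_zero, zero_sub, add_zero, zero_add, mul_zero, sub_self] at sD sE sG v1 v2 r1 r2 r3 r4 r5 r6 r7 r8 r9 r10 r11 r12
  clear hl a0 a1 a2 a3 a4 a5 a6 a7 a8
  clear x0 x1 x3 x4 x5 x6 x7 x8 y0 y2 y3 y5 y6 y8 z1 z2 z3 z4 z5 z7 z8
  exfalso
  omega

lemma cas_1563 (h : H9 D E G d)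
    (hl : ∀ i : ℕ, i < 9 → lab D E G (i : ZMod 9) = dg 1563 i) : Con9 D E G := by
  have hk : d ≤ 5 := h.rh9 hl
  obtain ⟨a0, a1, a2, a3, a4, a5, a6, a7, a8⟩ := hl9 hl
  obtain ⟨x0, y0, z0⟩ := h.toTr.nlab3 (a0.trans rfl)
  obtain ⟨x1, y1, z1⟩ := h.toTr.nlab2 (a1.trans rfl)
  obtain ⟨x2, y2, z2⟩ := h.toTr.nlab1 (a2.trans rfl)
  obtain ⟨x3, y3, z3⟩ := lab0 (a3.trans rfl)
  obtain ⟨x4, y4, z4⟩ := h.toTr.nlab2 (a4.trans rfl)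
  obtain ⟨x5, y5, z5⟩ := h.toTr.nlab1 (a5.trans rfl)
  obtain ⟨x6, y6, z6⟩ := lab0 (a6.trans rfl)
  obtain ⟨x7, y7, z7⟩ := lab0 (a7.trans rfl)
  obtain ⟨x8, y8, z8⟩ := lab0 (a8.trans rfl)
  have sD := h.toTr.s9
  have sE := h.toTr.rot.s9
  have sG := h.toTr.rot.rot.s9
  have pd := h.pos
  have v1 := dvd9 h.s1
  have v2 := dvd9 h.s2
  have r1 : (E 1 - G 1) + (E 3 - G 3) = (E 4 - G 4) + (E 6 - G 6) :=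
    h.rd 2 5 (nz9 x2) (nz9 x5) 1
  have r2 : (E 0 - G 0) + (E 4 - G 4) = (E 3 - G 3) + (E 7 - G 7) :=
    h.rd 2 5 (nz9 x2) (nz9 x5) 2
  have r3 : (E 8 - G 8) + (E 5 - G 5) = (E 2 - G 2) + (E 8 - G 8) :=
    h.rd 2 5 (nz9 x2) (nz9 x5) 3
  have r4 : (E 7 - G 7) + (E 6 - G 6) = (E 1 - G 1) + (E 0 - G 0) :=
    h.rd 2 5 (nz9 x2) (nz9 x5) 4
  have r5 : (G 0 - D 0) + (G 2 - D 2) = (G 3 - D 3) + (G 5 - D 5) :=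
    h.re 1 4 (nz9 y1) (nz9 y4) 1
  have r6 : (G 8 - D 8) + (G 3 - D 3) = (G 2 - D 2) + (G 6 - D 6) :=
    h.re 1 4 (nz9 y1) (nz9 y4) 2
  have r7 : (G 7 - D 7) + (G 4 - D 4) = (G 1 - D 1) + (G 7 - D 7) :=
    h.re 1 4 (nz9 y1) (nz9 y4) 3
  have r8 : (G 6 - D 6) + (G 5 - D 5) = (G 0 - D 0) + (G 8 - D 8) :=
    h.re 1 4 (nz9 y1) (nz9 y4) 4
  simp only [x0, x1, x3, x4, x6, x7, x8, y0, y2, y3, y5, y6, y7, y8, z1, z2, z3, z4, z5, z6, z7, z8, sub_zero, zero_sub, add_zero, zero_add, mul_zero, sub_self] at sD sE sG v1 v2 r1 r2 r3 r4 r5 r6 r7 r8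
  clear hl a0 a1 a2 a3 a4 a5 a6 a7 a8
  clear x0 x1 x3 x4 x6 x7 x8 y0 y2 y3 y5 y6 y7 y8 z1 z2 z3 z4 z5 z6 z7 z8
  exfalso
  omega

lemma cas_34331 (h : H9 D E G d)
    (hl : ∀ i : ℕ, i < 9 → lab D E G (i : ZMod 9) = dg 34331 i) : Con9 D E G := by
  have hk : d ≤ 6 := h.rh9 hl
  obtain ⟨a0, a1, a2, a3, a4, a5, a6, a7, a8⟩ := hl9 hl
  obtain ⟨x0, y0, z0⟩ := h.toTr.nlab3 (a0.trans rfl)
  obtain ⟨x1, y1, z1⟩ := h.toTr.nlab2 (a1.trans rfl)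
  obtain ⟨x2, y2, z2⟩ := h.toTr.nlab1 (a2.trans rfl)
  obtain ⟨x3, y3, z3⟩ := lab0 (a3.trans rfl)
  obtain ⟨x4, y4, z4⟩ := h.toTr.nlab2 (a4.trans rfl)
  obtain ⟨x5, y5, z5⟩ := h.toTr.nlab1 (a5.trans rfl)
  obtain ⟨x6, y6, z6⟩ := lab0 (a6.trans rfl)
  obtain ⟨x7, y7, z7⟩ := h.toTr.nlab2 (a7.trans rfl)
  obtain ⟨x8, y8, z8⟩ := lab0 (a8.trans rfl)
  have sD := h.toTr.s9
  have sE := h.toTr.rot.s9
  have sG := h.toTr.rot.rot.s9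
  have pd := h.pos
  have v1 := dvd9 h.s1
  have v2 := dvd9 h.s2
  have r1 : (E 1 - G 1) + (E 3 - G 3) = (E 4 - G 4) + (E 6 - G 6) :=
    h.rd 2 5 (nz9 x2) (nz9 x5) 1
  have r2 : (E 0 - G 0) + (E 4 - G 4) = (E 3 - G 3) + (E 7 - G 7) :=
    h.rd 2 5 (nz9 x2) (nz9 x5) 2
  have r3 : (E 8 - G 8) + (E 5 - G 5) = (E 2 - G 2) + (E 8 - G 8) :=
    h.rd 2 5 (nz9 x2) (nz9 x5) 3
  have r4 : (E 7 - G 7) + (E 6 - G 6) = (E 1 - G 1) + (E 0 - G 0) :=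
    h.rd 2 5 (nz9 x2) (nz9 x5) 4
  have r5 : (G 0 - D 0) + (G 2 - D 2) = (G 3 - D 3) + (G 5 - D 5) :=
    h.re 1 4 (nz9 y1) (nz9 y4) 1
  have r6 : (G 8 - D 8) + (G 3 - D 3) = (G 2 - D 2) + (G 6 - D 6) :=
    h.re 1 4 (nz9 y1) (nz9 y4) 2
  have r7 : (G 7 - D 7) + (G 4 - D 4) = (G 1 - D 1) + (G 7 - D 7) :=
    h.re 1 4 (nz9 y1) (nz9 y4) 3
  have r8 : (G 6 - D 6) + (G 5 - D 5) = (G 0 - D 0) + (G 8 - D 8) :=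
    h.re 1 4 (nz9 y1) (nz9 y4) 4
  have r9 : (G 0 - D 0) + (G 2 - D 2) = (G 6 - D 6) + (G 8 - D 8) :=
    h.re 1 7 (nz9 y1) (nz9 y7) 1
  have r10 : (G 8 - D 8) + (G 3 - D 3) = (G 5 - D 5) + (G 0 - D 0) :=
    h.re 1 7 (nz9 y1) (nz9 y7) 2
  have r11 : (G 7 - D 7) + (G 4 - D 4) = (G 4 - D 4) + (G 1 - D 1) :=
    h.re 1 7 (nz9 y1) (nz9 y7) 3
  have r12 : (G 6 - D 6) + (G 5 - D 5) = (G 3 - D 3) + (G 2 - D 2) :=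
    h.re 1 7 (nz9 y1) (nz9 y7) 4
  simp only [x0, x1, x3, x4, x6, x7, x8, y0, y2, y3, y5, y6, y8, z1, z2, z3, z4, z5, z6, z7, z8, sub_zero, zero_sub, add_zero, zero_add, mul_zero, sub_self] at sD sE sG v1 v2 r1 r2 r3 r4 r5 r6 r7 r8 r9 r10 r11 r12
  clear hl a0 a1 a2 a3 a4 a5 a6 a7 a8
  clear x0 x1 x3 x4 x6 x7 x8 y0 y2 y3 y5 y6 y8 z1 z2 z3 z4 z5 z6 z7 z8
  exfalso
  omega

lemma cas_13851 (h : H9 D E G d)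
    (hl : ∀ i : ℕ, i < 9 → lab D E G (i : ZMod 9) = dg 13851 i) : Con9 D E G := by
  have hk : d ≤ 6 := h.rh9 hl
  obtain ⟨a0, a1, a2, a3, a4, a5, a6, a7, a8⟩ := hl9 hl
  obtain ⟨x0, y0, z0⟩ := h.toTr.nlab3 (a0.trans rfl)
  obtain ⟨x1, y1, z1⟩ := h.toTr.nlab2 (a1.trans rfl)
  obtain ⟨x2, y2, z2⟩ := h.toTr.nlab1 (a2.trans rfl)
  obtain ⟨x3, y3, z3⟩ := lab0 (a3.trans rfl)
  obtain ⟨x4, y4, z4⟩ := h.toTr.nlab2 (a4.trans rfl)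
  obtain ⟨x5, y5, z5⟩ := h.toTr.nlab1 (a5.trans rfl)
  obtain ⟨x6, y6, z6⟩ := h.toTr.nlab3 (a6.trans rfl)
  obtain ⟨x7, y7, z7⟩ := lab0 (a7.trans rfl)
  obtain ⟨x8, y8, z8⟩ := lab0 (a8.trans rfl)
  have sD := h.toTr.s9
  have sE := h.toTr.rot.s9
  have sG := h.toTr.rot.rot.s9
  have pd := h.pos
  have v1 := dvd9 h.s1
  have v2 := dvd9 h.s2
  have r1 : (E 1 - G 1) + (E 3 - G 3) = (E 4 - G 4) + (E 6 - G 6) :=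
    h.rd 2 5 (nz9 x2) (nz9 x5) 1
  have r2 : (E 0 - G 0) + (E 4 - G 4) = (E 3 - G 3) + (E 7 - G 7) :=
    h.rd 2 5 (nz9 x2) (nz9 x5) 2
  have r3 : (E 8 - G 8) + (E 5 - G 5) = (E 2 - G 2) + (E 8 - G 8) :=
    h.rd 2 5 (nz9 x2) (nz9 x5) 3
  have r4 : (E 7 - G 7) + (E 6 - G 6) = (E 1 - G 1) + (E 0 - G 0) :=
    h.rd 2 5 (nz9 x2) (nz9 x5) 4
  have r5 : (G 0 - D 0) + (G 2 - D 2) = (G 3 - D 3) + (G 5 - D 5) :=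
    h.re 1 4 (nz9 y1) (nz9 y4) 1
  have r6 : (G 8 - D 8) + (G 3 - D 3) = (G 2 - D 2) + (G 6 - D 6) :=
    h.re 1 4 (nz9 y1) (nz9 y4) 2
  have r7 : (G 7 - D 7) + (G 4 - D 4) = (G 1 - D 1) + (G 7 - D 7) :=
    h.re 1 4 (nz9 y1) (nz9 y4) 3
  have r8 : (G 6 - D 6) + (G 5 - D 5) = (G 0 - D 0) + (G 8 - D 8) :=
    h.re 1 4 (nz9 y1) (nz9 y4) 4
  have r9 : (D 8 - E 8) + (D 1 - E 1) = (D 5 - E 5) + (D 7 - E 7) :=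
    h.rg 0 6 (nz9 z0) (nz9 z6) 1
  have r10 : (D 7 - E 7) + (D 2 - E 2) = (D 4 - E 4) + (D 8 - E 8) :=
    h.rg 0 6 (nz9 z0) (nz9 z6) 2
  have r11 : (D 6 - E 6) + (D 3 - E 3) = (D 3 - E 3) + (D 0 - E 0) :=
    h.rg 0 6 (nz9 z0) (nz9 z6) 3
  have r12 : (D 5 - E 5) + (D 4 - E 4) = (D 2 - E 2) + (D 1 - E 1) :=
    h.rg 0 6 (nz9 z0) (nz9 z6) 4
  simp only [x0, x1, x3, x4, x6, x7, x8, y0, y2, y3, y5, y6, y7, y8, z1, z2, z3, z4, z5, z7, z8, sub_zero, zero_sub, add_zero, zero_add, mul_zero, sub_self] at sD sE sG v1 v2 r1 r2 r3 r4 r5 r6 r7 r8 r9 r10 r11 r12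
  clear hl a0 a1 a2 a3 a4 a5 a6 a7 a8
  clear x0 x1 x3 x4 x6 x7 x8 y0 y2 y3 y5 y6 y7 y8 z1 z2 z3 z4 z5 z7 z8
  exfalso
  omega

lemma cas_219 (h : H9 D E G d)
    (hl : ∀ i : ℕ, i < 9 → lab D E G (i : ZMod 9) = dg 219 i) : Con9 D E G := by
  have hk : d ≤ 4 := h.rh9 hl
  obtain ⟨a0, a1, a2, a3, a4, a5, a6, a7, a8⟩ := hl9 hl
  obtain ⟨x0, y0, z0⟩ := h.toTr.nlab3 (a0.trans rfl)
  obtain ⟨x1, y1, z1⟩ := h.toTr.nlab2 (a1.trans rfl)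
  obtain ⟨x2, y2, z2⟩ := h.toTr.nlab1 (a2.trans rfl)
  obtain ⟨x3, y3, z3⟩ := h.toTr.nlab3 (a3.trans rfl)
  obtain ⟨x4, y4, z4⟩ := lab0 (a4.trans rfl)
  obtain ⟨x5, y5, z5⟩ := lab0 (a5.trans rfl)
  obtain ⟨x6, y6, z6⟩ := lab0 (a6.trans rfl)
  obtain ⟨x7, y7, z7⟩ := lab0 (a7.trans rfl)
  obtain ⟨x8, y8, z8⟩ := lab0 (a8.trans rfl)
  have sD := h.toTr.s9
  have sE := h.toTr.rot.s9
  have sG := h.toTr.rot.rot.s9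
  have pd := h.pos
  have v1 := dvd9 h.s1
  have v2 := dvd9 h.s2
  have r1 : (D 8 - E 8) + (D 1 - E 1) = (D 2 - E 2) + (D 4 - E 4) :=
    h.rg 0 3 (nz9 z0) (nz9 z3) 1
  have r2 : (D 7 - E 7) + (D 2 - E 2) = (D 1 - E 1) + (D 5 - E 5) :=
    h.rg 0 3 (nz9 z0) (nz9 z3) 2
  have r3 : (D 6 - E 6) + (D 3 - E 3) = (D 0 - E 0) + (D 6 - E 6) :=
    h.rg 0 3 (nz9 z0) (nz9 z3) 3
  have r4 : (D 5 - E 5) + (D 4 - E 4) = (D 8 - E 8) + (D 7 - E 7) :=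
    h.rg 0 3 (nz9 z0) (nz9 z3) 4
  simp only [x0, x1, x3, x4, x5, x6, x7, x8, y0, y2, y3, y4, y5, y6, y7, y8, z1, z2, z4, z5, z6, z7, z8, sub_zero, zero_sub, add_zero, zero_add, mul_zero, sub_self] at sD sE sG v1 v2 r1 r2 r3 r4
  clear hl a0 a1 a2 a3 a4 a5 a6 a7 a8
  clear x0 x1 x3 x4 x5 x6 x7 x8 y0 y2 y3 y4 y5 y6 y7 y8 z1 z2 z4 z5 z6 z7 z8
  exfalso
  omega

lemma cas_32987 (h : H9 D E G d)
    (hl : ∀ i : ℕ, i < 9 → lab D E G (i : ZMod 9) = dg 32987 i) : Con9 D E G := by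
  have hk : d ≤ 5 := h.rh9 hl
  obtain ⟨a0, a1, a2, a3, a4, a5, a6, a7, a8⟩ := hl9 hl
  obtain ⟨x0, y0, z0⟩ := h.toTr.nlab3 (a0.trans rfl)
  obtain ⟨x1, y1, z1⟩ := h.toTr.nlab2 (a1.trans rfl)
  obtain ⟨x2, y2, z2⟩ := h.toTr.nlab1 (a2.trans rfl)
  obtain ⟨x3, y3, z3⟩ := h.toTr.nlab3 (a3.trans rfl)
  obtain ⟨x4, y4, z4⟩ := lab0 (a4.trans rfl)
  obtain ⟨x5, y5, z5⟩ := lab0 (a5.trans rfl)
  obtain ⟨x6, y6, z6⟩ := lab0 (a6.trans rfl)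
  obtain ⟨x7, y7, z7⟩ := h.toTr.nlab2 (a7.trans rfl)
  obtain ⟨x8, y8, z8⟩ := lab0 (a8.trans rfl)
  have sD := h.toTr.s9
  have sE := h.toTr.rot.s9
  have sG := h.toTr.rot.rot.s9
  have pd := h.pos
  have v1 := dvd9 h.s1
  have v2 := dvd9 h.s2
  have r1 : (G 0 - D 0) + (G 2 - D 2) = (G 6 - D 6) + (G 8 - D 8) :=
    h.re 1 7 (nz9 y1) (nz9 y7) 1
  have r2 : (G 8 - D 8) + (G 3 - D 3) = (G 5 - D 5) + (G 0 - D 0) :=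
    h.re 1 7 (nz9 y1) (nz9 y7) 2
  have r3 : (G 7 - D 7) + (G 4 - D 4) = (G 4 - D 4) + (G 1 - D 1) :=
    h.re 1 7 (nz9 y1) (nz9 y7) 3
  have r4 : (G 6 - D 6) + (G 5 - D 5) = (G 3 - D 3) + (G 2 - D 2) :=
    h.re 1 7 (nz9 y1) (nz9 y7) 4
  have r5 : (D 8 - E 8) + (D 1 - E 1) = (D 2 - E 2) + (D 4 - E 4) :=
    h.rg 0 3 (nz9 z0) (nz9 z3) 1
  have r6 : (D 7 - E 7) + (D 2 - E 2) = (D 1 - E 1) + (D 5 - E 5) :=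
    h.rg 0 3 (nz9 z0) (nz9 z3) 2
  have r7 : (D 6 - E 6) + (D 3 - E 3) = (D 0 - E 0) + (D 6 - E 6) :=
    h.rg 0 3 (nz9 z0) (nz9 z3) 3
  have r8 : (D 5 - E 5) + (D 4 - E 4) = (D 8 - E 8) + (D 7 - E 7) :=
    h.rg 0 3 (nz9 z0) (nz9 z3) 4
  simp only [x0, x1, x3, x4, x5, x6, x7, x8, y0, y2, y3, y4, y5, y6, y8, z1, z2, z4, z5, z6, z7, z8, sub_zero, zero_sub, add_zero, zero_add, mul_zero, sub_self] at sD sE sG v1 v2 r1 r2 r3 r4 r5 r6 r7 r8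
  clear hl a0 a1 a2 a3 a4 a5 a6 a7 a8
  clear x0 x1 x3 x4 x5 x6 x7 x8 y0 y2 y3 y4 y5 y6 y8 z1 z2 z4 z5 z6 z7 z8
  exfalso
  omega

lemma cas_12507 (h : H9 D E G d)
    (hl : ∀ i : ℕ, i < 9 → lab D E G (i : ZMod 9) = dg 12507 i) : Con9 D E G := by
  have hk : d ≤ 5 := h.rh9 hl
  obtain ⟨a0, a1, a2, a3, a4, a5, a6, a7, a8⟩ := hl9 hl
  obtain ⟨x0, y0, z0⟩ := h.toTr.nlab3 (a0.trans rfl)
  obtain ⟨x1, y1, z1⟩ := h.toTr.nlab2 (a1.trans rfl)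
  obtain ⟨x2, y2, z2⟩ := h.toTr.nlab1 (a2.trans rfl)
  obtain ⟨x3, y3, z3⟩ := h.toTr.nlab3 (a3.trans rfl)
  obtain ⟨x4, y4, z4⟩ := lab0 (a4.trans rfl)
  obtain ⟨x5, y5, z5⟩ := lab0 (a5.trans rfl)
  obtain ⟨x6, y6, z6⟩ := h.toTr.nlab3 (a6.trans rfl)
  obtain ⟨x7, y7, z7⟩ := lab0 (a7.trans rfl)
  obtain ⟨x8, y8, z8⟩ := lab0 (a8.trans rfl)
  have sD := h.toTr.s9
  have sE := h.toTr.rot.s9
  have sG := h.toTr.rot.rot.s9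
  have pd := h.pos
  have v1 := dvd9 h.s1
  have v2 := dvd9 h.s2
  have r1 : (D 8 - E 8) + (D 1 - E 1) = (D 2 - E 2) + (D 4 - E 4) :=
    h.rg 0 3 (nz9 z0) (nz9 z3) 1
  have r2 : (D 7 - E 7) + (D 2 - E 2) = (D 1 - E 1) + (D 5 - E 5) :=
    h.rg 0 3 (nz9 z0) (nz9 z3) 2
  have r3 : (D 6 - E 6) + (D 3 - E 3) = (D 0 - E 0) + (D 6 - E 6) :=
    h.rg 0 3 (nz9 z0) (nz9 z3) 3
  have r4 : (D 5 - E 5) + (D 4 - E 4) = (D 8 - E 8) + (D 7 - E 7) :=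
    h.rg 0 3 (nz9 z0) (nz9 z3) 4
  have r5 : (D 8 - E 8) + (D 1 - E 1) = (D 5 - E 5) + (D 7 - E 7) :=
    h.rg 0 6 (nz9 z0) (nz9 z6) 1
  have r6 : (D 7 - E 7) + (D 2 - E 2) = (D 4 - E 4) + (D 8 - E 8) :=
    h.rg 0 6 (nz9 z0) (nz9 z6) 2
  have r7 : (D 6 - E 6) + (D 3 - E 3) = (D 3 - E 3) + (D 0 - E 0) :=
    h.rg 0 6 (nz9 z0) (nz9 z6) 3
  have r8 : (D 5 - E 5) + (D 4 - E 4) = (D 2 - E 2) + (D 1 - E 1) :=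
    h.rg 0 6 (nz9 z0) (nz9 z6) 4
  simp only [x0, x1, x3, x4, x5, x6, x7, x8, y0, y2, y3, y4, y5, y6, y7, y8, z1, z2, z4, z5, z7, z8, sub_zero, zero_sub, add_zero, zero_add, mul_zero, sub_self] at sD sE sG v1 v2 r1 r2 r3 r4 r5 r6 r7 r8
  clear hl a0 a1 a2 a3 a4 a5 a6 a7 a8
  clear x0 x1 x3 x4 x5 x6 x7 x8 y0 y2 y3 y4 y5 y6 y7 y8 z1 z2 z4 z5 z7 z8
  exfalso
  omega

lemma cas_45275 (h : H9 D E G d)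
    (hl : ∀ i : ℕ, i < 9 → lab D E G (i : ZMod 9) = dg 45275 i) : Con9 D E G := by
  have hk : d ≤ 6 := h.rh9 hl
  obtain ⟨a0, a1, a2, a3, a4, a5, a6, a7, a8⟩ := hl9 hl
  obtain ⟨x0, y0, z0⟩ := h.toTr.nlab3 (a0.trans rfl)
  obtain ⟨x1, y1, z1⟩ := h.toTr.nlab2 (a1.trans rfl)
  obtain ⟨x2, y2, z2⟩ := h.toTr.nlab1 (a2.trans rfl)
  obtain ⟨x3, y3, z3⟩ := h.toTr.nlab3 (a3.trans rfl)
  obtain ⟨x4, y4, z4⟩ := lab0 (a4.trans rfl)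
  obtain ⟨x5, y5, z5⟩ := lab0 (a5.trans rfl)
  obtain ⟨x6, y6, z6⟩ := h.toTr.nlab3 (a6.trans rfl)
  obtain ⟨x7, y7, z7⟩ := h.toTr.nlab2 (a7.trans rfl)
  obtain ⟨x8, y8, z8⟩ := lab0 (a8.trans rfl)
  have sD := h.toTr.s9
  have sE := h.toTr.rot.s9
  have sG := h.toTr.rot.rot.s9
  have pd := h.pos
  have v1 := dvd9 h.s1
  have v2 := dvd9 h.s2
  have r1 : (G 0 - D 0) + (G 2 - D 2) = (G 6 - D 6) + (G 8 - D 8) :=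
    h.re 1 7 (nz9 y1) (nz9 y7) 1
  have r2 : (G 8 - D 8) + (G 3 - D 3) = (G 5 - D 5) + (G 0 - D 0) :=
    h.re 1 7 (nz9 y1) (nz9 y7) 2
  have r3 : (G 7 - D 7) + (G 4 - D 4) = (G 4 - D 4) + (G 1 - D 1) :=
    h.re 1 7 (nz9 y1) (nz9 y7) 3
  have r4 : (G 6 - D 6) + (G 5 - D 5) = (G 3 - D 3) + (G 2 - D 2) :=
    h.re 1 7 (nz9 y1) (nz9 y7) 4
  have r5 : (D 8 - E 8) + (D 1 - E 1) = (D 2 - E 2) + (D 4 - E 4) :=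
    h.rg 0 3 (nz9 z0) (nz9 z3) 1
  have r6 : (D 7 - E 7) + (D 2 - E 2) = (D 1 - E 1) + (D 5 - E 5) :=
    h.rg 0 3 (nz9 z0) (nz9 z3) 2
  have r7 : (D 6 - E 6) + (D 3 - E 3) = (D 0 - E 0) + (D 6 - E 6) :=
    h.rg 0 3 (nz9 z0) (nz9 z3) 3
  have r8 : (D 5 - E 5) + (D 4 - E 4) = (D 8 - E 8) + (D 7 - E 7) :=
    h.rg 0 3 (nz9 z0) (nz9 z3) 4
  have r9 : (D 8 - E 8) + (D 1 - E 1) = (D 5 - E 5) + (D 7 - E 7) :=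
    h.rg 0 6 (nz9 z0) (nz9 z6) 1
  have r10 : (D 7 - E 7) + (D 2 - E 2) = (D 4 - E 4) + (D 8 - E 8) :=
    h.rg 0 6 (nz9 z0) (nz9 z6) 2
  have r11 : (D 6 - E 6) + (D 3 - E 3) = (D 3 - E 3) + (D 0 - E 0) :=
    h.rg 0 6 (nz9 z0) (nz9 z6) 3
  have r12 : (D 5 - E 5) + (D 4 - E 4) = (D 2 - E 2) + (D 1 - E 1) :=
    h.rg 0 6 (nz9 z0) (nz9 z6) 4
  simp only [x0, x1, x3, x4, x5, x6, x7, x8, y0, y2, y3, y4, y5, y6, y8, z1, z2, z4, z5, z7, z8, sub_zero, zero_sub, add_zero, zero_add, mul_zero, sub_self] at sD sE sG v1 v2 r1 r2 r3 r4 r5 r6 r7 r8 r9 r10 r11 r12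
  clear hl a0 a1 a2 a3 a4 a5 a6 a7 a8
  clear x0 x1 x3 x4 x5 x6 x7 x8 y0 y2 y3 y4 y5 y6 y8 z1 z2 z4 z5 z7 z8
  exfalso
  omega

lemma cas_1243 (h : H9 D E G d)
    (hl : ∀ i : ℕ, i < 9 → lab D E G (i : ZMod 9) = dg 1243 i) : Con9 D E G := by
  have hk : d ≤ 5 := h.rh9 hl
  obtain ⟨a0, a1, a2, a3, a4, a5, a6, a7, a8⟩ := hl9 hl
  obtain ⟨x0, y0, z0⟩ := h.toTr.nlab3 (a0.trans rfl)
  obtain ⟨x1, y1, z1⟩ := h.toTr.nlab2 (a1.trans rfl)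
  obtain ⟨x2, y2, z2⟩ := h.toTr.nlab1 (a2.trans rfl)
  obtain ⟨x3, y3, z3⟩ := h.toTr.nlab3 (a3.trans rfl)
  obtain ⟨x4, y4, z4⟩ := lab0 (a4.trans rfl)
  obtain ⟨x5, y5, z5⟩ := h.toTr.nlab1 (a5.trans rfl)
  obtain ⟨x6, y6, z6⟩ := lab0 (a6.trans rfl)
  obtain ⟨x7, y7, z7⟩ := lab0 (a7.trans rfl)
  obtain ⟨x8, y8, z8⟩ := lab0 (a8.trans rfl)
  have sD := h.toTr.s9
  have sE := h.toTr.rot.s9
  have sG := h.toTr.rot.rot.s9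
  have pd := h.pos
  have v1 := dvd9 h.s1
  have v2 := dvd9 h.s2
  have r1 : (E 1 - G 1) + (E 3 - G 3) = (E 4 - G 4) + (E 6 - G 6) :=
    h.rd 2 5 (nz9 x2) (nz9 x5) 1
  have r2 : (E 0 - G 0) + (E 4 - G 4) = (E 3 - G 3) + (E 7 - G 7) :=
    h.rd 2 5 (nz9 x2) (nz9 x5) 2
  have r3 : (E 8 - G 8) + (E 5 - G 5) = (E 2 - G 2) + (E 8 - G 8) :=
    h.rd 2 5 (nz9 x2) (nz9 x5) 3
  have r4 : (E 7 - G 7) + (E 6 - G 6) = (E 1 - G 1) + (E 0 - G 0) :=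
    h.rd 2 5 (nz9 x2) (nz9 x5) 4
  have r5 : (D 8 - E 8) + (D 1 - E 1) = (D 2 - E 2) + (D 4 - E 4) :=
    h.rg 0 3 (nz9 z0) (nz9 z3) 1
  have r6 : (D 7 - E 7) + (D 2 - E 2) = (D 1 - E 1) + (D 5 - E 5) :=
    h.rg 0 3 (nz9 z0) (nz9 z3) 2
  have r7 : (D 6 - E 6) + (D 3 - E 3) = (D 0 - E 0) + (D 6 - E 6) :=
    h.rg 0 3 (nz9 z0) (nz9 z3) 3
  have r8 : (D 5 - E 5) + (D 4 - E 4) = (D 8 - E 8) + (D 7 - E 7) :=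
    h.rg 0 3 (nz9 z0) (nz9 z3) 4
  simp only [x0, x1, x3, x4, x6, x7, x8, y0, y2, y3, y4, y5, y6, y7, y8, z1, z2, z4, z5, z6, z7, z8, sub_zero, zero_sub, add_zero, zero_add, mul_zero, sub_self] at sD sE sG v1 v2 r1 r2 r3 r4 r5 r6 r7 r8
  clear hl a0 a1 a2 a3 a4 a5 a6 a7 a8
  clear x0 x1 x3 x4 x6 x7 x8 y0 y2 y3 y4 y5 y6 y7 y8 z1 z2 z4 z5 z6 z7 z8
  exfalso
  omega

lemma cas_34011 (h : H9 D E G d)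
    (hl : ∀ i : ℕ, i < 9 → lab D E G (i : ZMod 9) = dg 34011 i) : Con9 D E G := by
  have hk : d ≤ 6 := h.rh9 hl
  obtain ⟨a0, a1, a2, a3, a4, a5, a6, a7, a8⟩ := hl9 hl
  obtain ⟨x0, y0, z0⟩ := h.toTr.nlab3 (a0.trans rfl)
  obtain ⟨x1, y1, z1⟩ := h.toTr.nlab2 (a1.trans rfl)
  obtain ⟨x2, y2, z2⟩ := h.toTr.nlab1 (a2.trans rfl)
  obtain ⟨x3, y3, z3⟩ := h.toTr.nlab3 (a3.trans rfl)
  obtain ⟨x4, y4, z4⟩ := lab0 (a4.trans rfl)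
  obtain ⟨x5, y5, z5⟩ := h.toTr.nlab1 (a5.trans rfl)
  obtain ⟨x6, y6, z6⟩ := lab0 (a6.trans rfl)
  obtain ⟨x7, y7, z7⟩ := h.toTr.nlab2 (a7.trans rfl)
  obtain ⟨x8, y8, z8⟩ := lab0 (a8.trans rfl)
  have sD := h.toTr.s9
  have sE := h.toTr.rot.s9
  have sG := h.toTr.rot.rot.s9
  have pd := h.pos
  have v1 := dvd9 h.s1
  have v2 := dvd9 h.s2
  have r1 : (E 1 - G 1) + (E 3 - G 3) = (E 4 - G 4) + (E 6 - G 6) :=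
    h.rd 2 5 (nz9 x2) (nz9 x5) 1
  have r2 : (E 0 - G 0) + (E 4 - G 4) = (E 3 - G 3) + (E 7 - G 7) :=
    h.rd 2 5 (nz9 x2) (nz9 x5) 2
  have r3 : (E 8 - G 8) + (E 5 - G 5) = (E 2 - G 2) + (E 8 - G 8) :=
    h.rd 2 5 (nz9 x2) (nz9 x5) 3
  have r4 : (E 7 - G 7) + (E 6 - G 6) = (E 1 - G 1) + (E 0 - G 0) :=
    h.rd 2 5 (nz9 x2) (nz9 x5) 4
  have r5 : (G 0 - D 0) + (G 2 - D 2) = (G 6 - D 6) + (G 8 - D 8) :=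
    h.re 1 7 (nz9 y1) (nz9 y7) 1
  have r6 : (G 8 - D 8) + (G 3 - D 3) = (G 5 - D 5) + (G 0 - D 0) :=
    h.re 1 7 (nz9 y1) (nz9 y7) 2
  have r7 : (G 7 - D 7) + (G 4 - D 4) = (G 4 - D 4) + (G 1 - D 1) :=
    h.re 1 7 (nz9 y1) (nz9 y7) 3
  have r8 : (G 6 - D 6) + (G 5 - D 5) = (G 3 - D 3) + (G 2 - D 2) :=
    h.re 1 7 (nz9 y1) (nz9 y7) 4
  have r9 : (D 8 - E 8) + (D 1 - E 1) = (D 2 - E 2) + (D 4 - E 4) :=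
    h.rg 0 3 (nz9 z0) (nz9 z3) 1
  have r10 : (D 7 - E 7) + (D 2 - E 2) = (D 1 - E 1) + (D 5 - E 5) :=
    h.rg 0 3 (nz9 z0) (nz9 z3) 2
  have r11 : (D 6 - E 6) + (D 3 - E 3) = (D 0 - E 0) + (D 6 - E 6) :=
    h.rg 0 3 (nz9 z0) (nz9 z3) 3
  have r12 : (D 5 - E 5) + (D 4 - E 4) = (D 8 - E 8) + (D 7 - E 7) :=
    h.rg 0 3 (nz9 z0) (nz9 z3) 4
  simp only [x0, x1, x3, x4, x6, x7, x8, y0, y2, y3, y4, y5, y6, y8, z1, z2, z4, z5, z6, z7, z8, sub_zero, zero_sub, add_zero, zero_add, mul_zero, sub_self] at sD sE sG v1 v2 r1 r2 r3 r4 r5 r6 r7 r8 r9 r10 r11 r12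
  clear hl a0 a1 a2 a3 a4 a5 a6 a7 a8
  clear x0 x1 x3 x4 x6 x7 x8 y0 y2 y3 y4 y5 y6 y8 z1 z2 z4 z5 z6 z7 z8
  exfalso
  omega

lemma cas_13531 (h : H9 D E G d)
    (hl : ∀ i : ℕ, i < 9 → lab D E G (i : ZMod 9) = dg 13531 i) : Con9 D E G := by
  have hk : d ≤ 6 := h.rh9 hl
  obtain ⟨a0, a1, a2, a3, a4, a5, a6, a7, a8⟩ := hl9 hl
  obtain ⟨x0, y0, z0⟩ := h.toTr.nlab3 (a0.trans rfl)
  obtain ⟨x1, y1, z1⟩ := h.toTr.nlab2 (a1.trans rfl)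
  obtain ⟨x2, y2, z2⟩ := h.toTr.nlab1 (a2.trans rfl)
  obtain ⟨x3, y3, z3⟩ := h.toTr.nlab3 (a3.trans rfl)
  obtain ⟨x4, y4, z4⟩ := lab0 (a4.trans rfl)
  obtain ⟨x5, y5, z5⟩ := h.toTr.nlab1 (a5.trans rfl)
  obtain ⟨x6, y6, z6⟩ := h.toTr.nlab3 (a6.trans rfl)
  obtain ⟨x7, y7, z7⟩ := lab0 (a7.trans rfl)
  obtain ⟨x8, y8, z8⟩ := lab0 (a8.trans rfl)
  have sD := h.toTr.s9
  have sE := h.toTr.rot.s9
  have sG := h.toTr.rot.rot.s9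
  have pd := h.pos
  have v1 := dvd9 h.s1
  have v2 := dvd9 h.s2
  have r1 : (E 1 - G 1) + (E 3 - G 3) = (E 4 - G 4) + (E 6 - G 6) :=
    h.rd 2 5 (nz9 x2) (nz9 x5) 1
  have r2 : (E 0 - G 0) + (E 4 - G 4) = (E 3 - G 3) + (E 7 - G 7) :=
    h.rd 2 5 (nz9 x2) (nz9 x5) 2
  have r3 : (E 8 - G 8) + (E 5 - G 5) = (E 2 - G 2) + (E 8 - G 8) :=
    h.rd 2 5 (nz9 x2) (nz9 x5) 3
  have r4 : (E 7 - G 7) + (E 6 - G 6) = (E 1 - G 1) + (E 0 - G 0) :=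
    h.rd 2 5 (nz9 x2) (nz9 x5) 4
  have r5 : (D 8 - E 8) + (D 1 - E 1) = (D 2 - E 2) + (D 4 - E 4) :=
    h.rg 0 3 (nz9 z0) (nz9 z3) 1
  have r6 : (D 7 - E 7) + (D 2 - E 2) = (D 1 - E 1) + (D 5 - E 5) :=
    h.rg 0 3 (nz9 z0) (nz9 z3) 2
  have r7 : (D 6 - E 6) + (D 3 - E 3) = (D 0 - E 0) + (D 6 - E 6) :=
    h.rg 0 3 (nz9 z0) (nz9 z3) 3
  have r8 : (D 5 - E 5) + (D 4 - E 4) = (D 8 - E 8) + (D 7 - E 7) :=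
    h.rg 0 3 (nz9 z0) (nz9 z3) 4
  have r9 : (D 8 - E 8) + (D 1 - E 1) = (D 5 - E 5) + (D 7 - E 7) :=
    h.rg 0 6 (nz9 z0) (nz9 z6) 1
  have r10 : (D 7 - E 7) + (D 2 - E 2) = (D 4 - E 4) + (D 8 - E 8) :=
    h.rg 0 6 (nz9 z0) (nz9 z6) 2
  have r11 : (D 6 - E 6) + (D 3 - E 3) = (D 3 - E 3) + (D 0 - E 0) :=
    h.rg 0 6 (nz9 z0) (nz9 z6) 3
  have r12 : (D 5 - E 5) + (D 4 - E 4) = (D 2 - E 2) + (D 1 - E 1) :=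
    h.rg 0 6 (nz9 z0) (nz9 z6) 4
  simp only [x0, x1, x3, x4, x6, x7, x8, y0, y2, y3, y4, y5, y6, y7, y8, z1, z2, z4, z5, z7, z8, sub_zero, zero_sub, add_zero, zero_add, mul_zero, sub_self] at sD sE sG v1 v2 r1 r2 r3 r4 r5 r6 r7 r8 r9 r10 r11 r12
  clear hl a0 a1 a2 a3 a4 a5 a6 a7 a8
  clear x0 x1 x3 x4 x6 x7 x8 y0 y2 y3 y4 y5 y6 y7 y8 z1 z2 z4 z5 z7 z8
  exfalso
  omega

lemma cas_46299 (h : H9 D E G d)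
    (hl : ∀ i : ℕ, i < 9 → lab D E G (i : ZMod 9) = dg 46299 i) : Con9 D E G := by
  have hk : d ≤ 7 := h.rh9 hl
  obtain ⟨a0, a1, a2, a3, a4, a5, a6, a7, a8⟩ := hl9 hl
  obtain ⟨x0, y0, z0⟩ := h.toTr.nlab3 (a0.trans rfl)
  obtain ⟨x1, y1, z1⟩ := h.toTr.nlab2 (a1.trans rfl)
  obtain ⟨x2, y2, z2⟩ := h.toTr.nlab1 (a2.trans rfl)
  obtain ⟨x3, y3, z3⟩ := h.toTr.nlab3 (a3.trans rfl)
  obtain ⟨x4, y4, z4⟩ := lab0 (a4.trans rfl)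
  obtain ⟨x5, y5, z5⟩ := h.toTr.nlab1 (a5.trans rfl)
  obtain ⟨x6, y6, z6⟩ := h.toTr.nlab3 (a6.trans rfl)
  obtain ⟨x7, y7, z7⟩ := h.toTr.nlab2 (a7.trans rfl)
  obtain ⟨x8, y8, z8⟩ := lab0 (a8.trans rfl)
  have sD := h.toTr.s9
  have sE := h.toTr.rot.s9
  have sG := h.toTr.rot.rot.s9
  have pd := h.pos
  have v1 := dvd9 h.s1
  have v2 := dvd9 h.s2
  have r1 : (E 1 - G 1) + (E 3 - G 3) = (E 4 - G 4) + (E 6 - G 6) :=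
    h.rd 2 5 (nz9 x2) (nz9 x5) 1
  have r2 : (E 0 - G 0) + (E 4 - G 4) = (E 3 - G 3) + (E 7 - G 7) :=
    h.rd 2 5 (nz9 x2) (nz9 x5) 2
  have r3 : (E 8 - G 8) + (E 5 - G 5) = (E 2 - G 2) + (E 8 - G 8) :=
    h.rd 2 5 (nz9 x2) (nz9 x5) 3
  have r4 : (E 7 - G 7) + (E 6 - G 6) = (E 1 - G 1) + (E 0 - G 0) :=
    h.rd 2 5 (nz9 x2) (nz9 x5) 4
  have r5 : (G 0 - D 0) + (G 2 - D 2) = (G 6 - D 6) + (G 8 - D 8) :=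
    h.re 1 7 (nz9 y1) (nz9 y7) 1
  have r6 : (G 8 - D 8) + (G 3 - D 3) = (G 5 - D 5) + (G 0 - D 0) :=
    h.re 1 7 (nz9 y1) (nz9 y7) 2
  have r7 : (G 7 - D 7) + (G 4 - D 4) = (G 4 - D 4) + (G 1 - D 1) :=
    h.re 1 7 (nz9 y1) (nz9 y7) 3
  have r8 : (G 6 - D 6) + (G 5 - D 5) = (G 3 - D 3) + (G 2 - D 2) :=
    h.re 1 7 (nz9 y1) (nz9 y7) 4
  have r9 : (D 8 - E 8) + (D 1 - E 1) = (D 2 - E 2) + (D 4 - E 4) :=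
    h.rg 0 3 (nz9 z0) (nz9 z3) 1
  have r10 : (D 7 - E 7) + (D 2 - E 2) = (D 1 - E 1) + (D 5 - E 5) :=
    h.rg 0 3 (nz9 z0) (nz9 z3) 2
  have r11 : (D 6 - E 6) + (D 3 - E 3) = (D 0 - E 0) + (D 6 - E 6) :=
    h.rg 0 3 (nz9 z0) (nz9 z3) 3
  have r12 : (D 5 - E 5) + (D 4 - E 4) = (D 8 - E 8) + (D 7 - E 7) :=
    h.rg 0 3 (nz9 z0) (nz9 z3) 4
  have r13 : (D 8 - E 8) + (D 1 - E 1) = (D 5 - E 5) + (D 7 - E 7) :=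
    h.rg 0 6 (nz9 z0) (nz9 z6) 1
  have r14 : (D 7 - E 7) + (D 2 - E 2) = (D 4 - E 4) + (D 8 - E 8) :=
    h.rg 0 6 (nz9 z0) (nz9 z6) 2
  have r15 : (D 6 - E 6) + (D 3 - E 3) = (D 3 - E 3) + (D 0 - E 0) :=
    h.rg 0 6 (nz9 z0) (nz9 z6) 3
  have r16 : (D 5 - E 5) + (D 4 - E 4) = (D 2 - E 2) + (D 1 - E 1) :=
    h.rg 0 6 (nz9 z0) (nz9 z6) 4
  simp only [x0, x1, x3, x4, x6, x7, x8, y0, y2, y3, y4, y5, y6, y8, z1, z2, z4, z5, z7, z8, sub_zero, zero_sub, add_zero, zero_add, mul_zero, sub_self] at sD sE sG v1 v2 r1 r2 r3 r4 r5 r6 r7 r8 r9 r10 r11 r12 r13 r14 r15 r16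
  clear hl a0 a1 a2 a3 a4 a5 a6 a7 a8
  clear x0 x1 x3 x4 x6 x7 x8 y0 y2 y3 y4 y5 y6 y8 z1 z2 z4 z5 z7 z8
  exfalso
  omega

lemma cas_731 (h : H9 D E G d)
    (hl : ∀ i : ℕ, i < 9 → lab D E G (i : ZMod 9) = dg 731 i) : Con9 D E G := by
  have hk : d ≤ 5 := h.rh9 hl
  obtain ⟨a0, a1, a2, a3, a4, a5, a6, a7, a8⟩ := hl9 hl
  obtain ⟨x0, y0, z0⟩ := h.toTr.nlab3 (a0.trans rfl)
  obtain ⟨x1, y1, z1⟩ := h.toTr.nlab2 (a1.trans rfl)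
  obtain ⟨x2, y2, z2⟩ := h.toTr.nlab1 (a2.trans rfl)
  obtain ⟨x3, y3, z3⟩ := h.toTr.nlab3 (a3.trans rfl)
  obtain ⟨x4, y4, z4⟩ := h.toTr.nlab2 (a4.trans rfl)
  obtain ⟨x5, y5, z5⟩ := lab0 (a5.trans rfl)
  obtain ⟨x6, y6, z6⟩ := lab0 (a6.trans rfl)
  obtain ⟨x7, y7, z7⟩ := lab0 (a7.trans rfl)
  obtain ⟨x8, y8, z8⟩ := lab0 (a8.trans rfl)
  have sD := h.toTr.s9
  have sE := h.toTr.rot.s9
  have sG := h.toTr.rot.rot.s9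
  have pd := h.pos
  have v1 := dvd9 h.s1
  have v2 := dvd9 h.s2
  have r1 : (G 0 - D 0) + (G 2 - D 2) = (G 3 - D 3) + (G 5 - D 5) :=
    h.re 1 4 (nz9 y1) (nz9 y4) 1
  have r2 : (G 8 - D 8) + (G 3 - D 3) = (G 2 - D 2) + (G 6 - D 6) :=
    h.re 1 4 (nz9 y1) (nz9 y4) 2
  have r3 : (G 7 - D 7) + (G 4 - D 4) = (G 1 - D 1) + (G 7 - D 7) :=
    h.re 1 4 (nz9 y1) (nz9 y4) 3
  have r4 : (G 6 - D 6) + (G 5 - D 5) = (G 0 - D 0) + (G 8 - D 8) :=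
    h.re 1 4 (nz9 y1) (nz9 y4) 4
  have r5 : (D 8 - E 8) + (D 1 - E 1) = (D 2 - E 2) + (D 4 - E 4) :=
    h.rg 0 3 (nz9 z0) (nz9 z3) 1
  have r6 : (D 7 - E 7) + (D 2 - E 2) = (D 1 - E 1) + (D 5 - E 5) :=
    h.rg 0 3 (nz9 z0) (nz9 z3) 2
  have r7 : (D 6 - E 6) + (D 3 - E 3) = (D 0 - E 0) + (D 6 - E 6) :=
    h.rg 0 3 (nz9 z0) (nz9 z3) 3
  have r8 : (D 5 - E 5) + (D 4 - E 4) = (D 8 - E 8) + (D 7 - E 7) :=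
    h.rg 0 3 (nz9 z0) (nz9 z3) 4
  simp only [x0, x1, x3, x4, x5, x6, x7, x8, y0, y2, y3, y5, y6, y7, y8, z1, z2, z4, z5, z6, z7, z8, sub_zero, zero_sub, add_zero, zero_add, mul_zero, sub_self] at sD sE sG v1 v2 r1 r2 r3 r4 r5 r6 r7 r8
  clear hl a0 a1 a2 a3 a4 a5 a6 a7 a8
  clear x0 x1 x3 x4 x5 x6 x7 x8 y0 y2 y3 y5 y6 y7 y8 z1 z2 z4 z5 z6 z7 z8
  exfalso
  omega

lemma cas_33499 (h : H9 D E G d)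
    (hl : ∀ i : ℕ, i < 9 → lab D E G (i : ZMod 9) = dg 33499 i) : Con9 D E G := by
  have hk : d ≤ 6 := h.rh9 hl
  obtain ⟨a0, a1, a2, a3, a4, a5, a6, a7, a8⟩ := hl9 hl
  obtain ⟨x0, y0, z0⟩ := h.toTr.nlab3 (a0.trans rfl)
  obtain ⟨x1, y1, z1⟩ := h.toTr.nlab2 (a1.trans rfl)
  obtain ⟨x2, y2, z2⟩ := h.toTr.nlab1 (a2.trans rfl)
  obtain ⟨x3, y3, z3⟩ := h.toTr.nlab3 (a3.trans rfl)
  obtain ⟨x4, y4, z4⟩ := h.toTr.nlab2 (a4.trans rfl)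
  obtain ⟨x5, y5, z5⟩ := lab0 (a5.trans rfl)
  obtain ⟨x6, y6, z6⟩ := lab0 (a6.trans rfl)
  obtain ⟨x7, y7, z7⟩ := h.toTr.nlab2 (a7.trans rfl)
  obtain ⟨x8, y8, z8⟩ := lab0 (a8.trans rfl)
  have sD := h.toTr.s9
  have sE := h.toTr.rot.s9
  have sG := h.toTr.rot.rot.s9
  have pd := h.pos
  have v1 := dvd9 h.s1
  have v2 := dvd9 h.s2
  have r1 : (G 0 - D 0) + (G 2 - D 2) = (G 3 - D 3) + (G 5 - D 5) :=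
    h.re 1 4 (nz9 y1) (nz9 y4) 1
  have r2 : (G 8 - D 8) + (G 3 - D 3) = (G 2 - D 2) + (G 6 - D 6) :=
    h.re 1 4 (nz9 y1) (nz9 y4) 2
  have r3 : (G 7 - D 7) + (G 4 - D 4) = (G 1 - D 1) + (G 7 - D 7) :=
    h.re 1 4 (nz9 y1) (nz9 y4) 3
  have r4 : (G 6 - D 6) + (G 5 - D 5) = (G 0 - D 0) + (G 8 - D 8) :=
    h.re 1 4 (nz9 y1) (nz9 y4) 4
  have r5 : (G 0 - D 0) + (G 2 - D 2) = (G 6 - D 6) + (G 8 - D 8) :=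
    h.re 1 7 (nz9 y1) (nz9 y7) 1
  have r6 : (G 8 - D 8) + (G 3 - D 3) = (G 5 - D 5) + (G 0 - D 0) :=
    h.re 1 7 (nz9 y1) (nz9 y7) 2
  have r7 : (G 7 - D 7) + (G 4 - D 4) = (G 4 - D 4) + (G 1 - D 1) :=
    h.re 1 7 (nz9 y1) (nz9 y7) 3
  have r8 : (G 6 - D 6) + (G 5 - D 5) = (G 3 - D 3) + (G 2 - D 2) :=
    h.re 1 7 (nz9 y1) (nz9 y7) 4
  have r9 : (D 8 - E 8) + (D 1 - E 1) = (D 2 - E 2) + (D 4 - E 4) :=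
    h.rg 0 3 (nz9 z0) (nz9 z3) 1
  have r10 : (D 7 - E 7) + (D 2 - E 2) = (D 1 - E 1) + (D 5 - E 5) :=
    h.rg 0 3 (nz9 z0) (nz9 z3) 2
  have r11 : (D 6 - E 6) + (D 3 - E 3) = (D 0 - E 0) + (D 6 - E 6) :=
    h.rg 0 3 (nz9 z0) (nz9 z3) 3
  have r12 : (D 5 - E 5) + (D 4 - E 4) = (D 8 - E 8) + (D 7 - E 7) :=
    h.rg 0 3 (nz9 z0) (nz9 z3) 4
  simp only [x0, x1, x3, x4, x5, x6, x7, x8, y0, y2, y3, y5, y6, y8, z1, z2, z4, z5, z6, z7, z8, sub_zero, zero_sub, add_zero, zero_add, mul_zero, sub_self] at sD sE sG v1 v2 r1 r2 r3 r4 r5 r6 r7 r8 r9 r10 r11 r12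
  clear hl a0 a1 a2 a3 a4 a5 a6 a7 a8
  clear x0 x1 x3 x4 x5 x6 x7 x8 y0 y2 y3 y5 y6 y8 z1 z2 z4 z5 z6 z7 z8
  exfalso
  omega

lemma cas_13019 (h : H9 D E G d)
    (hl : ∀ i : ℕ, i < 9 → lab D E G (i : ZMod 9) = dg 13019 i) : Con9 D E G := by
  have hk : d ≤ 6 := h.rh9 hl
  obtain ⟨a0, a1, a2, a3, a4, a5, a6, a7, a8⟩ := hl9 hl
  obtain ⟨x0, y0, z0⟩ := h.toTr.nlab3 (a0.trans rfl)
  obtain ⟨x1, y1, z1⟩ := h.toTr.nlab2 (a1.trans rfl)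
  obtain ⟨x2, y2, z2⟩ := h.toTr.nlab1 (a2.trans rfl)
  obtain ⟨x3, y3, z3⟩ := h.toTr.nlab3 (a3.trans rfl)
  obtain ⟨x4, y4, z4⟩ := h.toTr.nlab2 (a4.trans rfl)
  obtain ⟨x5, y5, z5⟩ := lab0 (a5.trans rfl)
  obtain ⟨x6, y6, z6⟩ := h.toTr.nlab3 (a6.trans rfl)
  obtain ⟨x7, y7, z7⟩ := lab0 (a7.trans rfl)
  obtain ⟨x8, y8, z8⟩ := lab0 (a8.trans rfl)
  have sD := h.toTr.s9
  have sE := h.toTr.rot.s9
  have sG := h.toTr.rot.rot.s9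
  have pd := h.pos
  have v1 := dvd9 h.s1
  have v2 := dvd9 h.s2
  have r1 : (G 0 - D 0) + (G 2 - D 2) = (G 3 - D 3) + (G 5 - D 5) :=
    h.re 1 4 (nz9 y1) (nz9 y4) 1
  have r2 : (G 8 - D 8) + (G 3 - D 3) = (G 2 - D 2) + (G 6 - D 6) :=
    h.re 1 4 (nz9 y1) (nz9 y4) 2
  have r3 : (G 7 - D 7) + (G 4 - D 4) = (G 1 - D 1) + (G 7 - D 7) :=
    h.re 1 4 (nz9 y1) (nz9 y4) 3
  have r4 : (G 6 - D 6) + (G 5 - D 5) = (G 0 - D 0) + (G 8 - D 8) :=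
    h.re 1 4 (nz9 y1) (nz9 y4) 4
  have r5 : (D 8 - E 8) + (D 1 - E 1) = (D 2 - E 2) + (D 4 - E 4) :=
    h.rg 0 3 (nz9 z0) (nz9 z3) 1
  have r6 : (D 7 - E 7) + (D 2 - E 2) = (D 1 - E 1) + (D 5 - E 5) :=
    h.rg 0 3 (nz9 z0) (nz9 z3) 2
  have r7 : (D 6 - E 6) + (D 3 - E 3) = (D 0 - E 0) + (D 6 - E 6) :=
    h.rg 0 3 (nz9 z0) (nz9 z3) 3
  have r8 : (D 5 - E 5) + (D 4 - E 4) = (D 8 - E 8) + (D 7 - E 7) :=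
    h.rg 0 3 (nz9 z0) (nz9 z3) 4
  have r9 : (D 8 - E 8) + (D 1 - E 1) = (D 5 - E 5) + (D 7 - E 7) :=
    h.rg 0 6 (nz9 z0) (nz9 z6) 1
  have r10 : (D 7 - E 7) + (D 2 - E 2) = (D 4 - E 4) + (D 8 - E 8) :=
    h.rg 0 6 (nz9 z0) (nz9 z6) 2
  have r11 : (D 6 - E 6) + (D 3 - E 3) = (D 3 - E 3) + (D 0 - E 0) :=
    h.rg 0 6 (nz9 z0) (nz9 z6) 3
  have r12 : (D 5 - E 5) + (D 4 - E 4) = (D 2 - E 2) + (D 1 - E 1) :=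
    h.rg 0 6 (nz9 z0) (nz9 z6) 4
  simp only [x0, x1, x3, x4, x5, x6, x7, x8, y0, y2, y3, y5, y6, y7, y8, z1, z2, z4, z5, z7, z8, sub_zero, zero_sub, add_zero, zero_add, mul_zero, sub_self] at sD sE sG v1 v2 r1 r2 r3 r4 r5 r6 r7 r8 r9 r10 r11 r12
  clear hl a0 a1 a2 a3 a4 a5 a6 a7 a8
  clear x0 x1 x3 x4 x5 x6 x7 x8 y0 y2 y3 y5 y6 y7 y8 z1 z2 z4 z5 z7 z8
  exfalso
  omega

lemma cas_45787 (h : H9 D E G d)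
    (hl : ∀ i : ℕ, i < 9 → lab D E G (i : ZMod 9) = dg 45787 i) : Con9 D E G := by
  have hk : d ≤ 7 := h.rh9 hl
  obtain ⟨a0, a1, a2, a3, a4, a5, a6, a7, a8⟩ := hl9 hl
  obtain ⟨x0, y0, z0⟩ := h.toTr.nlab3 (a0.trans rfl)
  obtain ⟨x1, y1, z1⟩ := h.toTr.nlab2 (a1.trans rfl)
  obtain ⟨x2, y2, z2⟩ := h.toTr.nlab1 (a2.trans rfl)
  obtain ⟨x3, y3, z3⟩ := h.toTr.nlab3 (a3.trans rfl)
  obtain ⟨x4, y4, z4⟩ := h.toTr.nlab2 (a4.trans rfl)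
  obtain ⟨x5, y5, z5⟩ := lab0 (a5.trans rfl)
  obtain ⟨x6, y6, z6⟩ := h.toTr.nlab3 (a6.trans rfl)
  obtain ⟨x7, y7, z7⟩ := h.toTr.nlab2 (a7.trans rfl)
  obtain ⟨x8, y8, z8⟩ := lab0 (a8.trans rfl)
  have sD := h.toTr.s9
  have sE := h.toTr.rot.s9
  have sG := h.toTr.rot.rot.s9
  have pd := h.pos
  have v1 := dvd9 h.s1
  have v2 := dvd9 h.s2
  have r1 : (G 0 - D 0) + (G 2 - D 2) = (G 3 - D 3) + (G 5 - D 5) :=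
    h.re 1 4 (nz9 y1) (nz9 y4) 1
  have r2 : (G 8 - D 8) + (G 3 - D 3) = (G 2 - D 2) + (G 6 - D 6) :=
    h.re 1 4 (nz9 y1) (nz9 y4) 2
  have r3 : (G 7 - D 7) + (G 4 - D 4) = (G 1 - D 1) + (G 7 - D 7) :=
    h.re 1 4 (nz9 y1) (nz9 y4) 3
  have r4 : (G 6 - D 6) + (G 5 - D 5) = (G 0 - D 0) + (G 8 - D 8) :=
    h.re 1 4 (nz9 y1) (nz9 y4) 4
  have r5 : (G 0 - D 0) + (G 2 - D 2) = (G 6 - D 6) + (G 8 - D 8) :=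
    h.re 1 7 (nz9 y1) (nz9 y7) 1
  have r6 : (G 8 - D 8) + (G 3 - D 3) = (G 5 - D 5) + (G 0 - D 0) :=
    h.re 1 7 (nz9 y1) (nz9 y7) 2
  have r7 : (G 7 - D 7) + (G 4 - D 4) = (G 4 - D 4) + (G 1 - D 1) :=
    h.re 1 7 (nz9 y1) (nz9 y7) 3
  have r8 : (G 6 - D 6) + (G 5 - D 5) = (G 3 - D 3) + (G 2 - D 2) :=
    h.re 1 7 (nz9 y1) (nz9 y7) 4
  have r9 : (D 8 - E 8) + (D 1 - E 1) = (D 2 - E 2) + (D 4 - E 4) :=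
    h.rg 0 3 (nz9 z0) (nz9 z3) 1
  have r10 : (D 7 - E 7) + (D 2 - E 2) = (D 1 - E 1) + (D 5 - E 5) :=
    h.rg 0 3 (nz9 z0) (nz9 z3) 2
  have r11 : (D 6 - E 6) + (D 3 - E 3) = (D 0 - E 0) + (D 6 - E 6) :=
    h.rg 0 3 (nz9 z0) (nz9 z3) 3
  have r12 : (D 5 - E 5) + (D 4 - E 4) = (D 8 - E 8) + (D 7 - E 7) :=
    h.rg 0 3 (nz9 z0) (nz9 z3) 4
  have r13 : (D 8 - E 8) + (D 1 - E 1) = (D 5 - E 5) + (D 7 - E 7) :=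
    h.rg 0 6 (nz9 z0) (nz9 z6) 1
  have r14 : (D 7 - E 7) + (D 2 - E 2) = (D 4 - E 4) + (D 8 - E 8) :=
    h.rg 0 6 (nz9 z0) (nz9 z6) 2
  have r15 : (D 6 - E 6) + (D 3 - E 3) = (D 3 - E 3) + (D 0 - E 0) :=
    h.rg 0 6 (nz9 z0) (nz9 z6) 3
  have r16 : (D 5 - E 5) + (D 4 - E 4) = (D 2 - E 2) + (D 1 - E 1) :=
    h.rg 0 6 (nz9 z0) (nz9 z6) 4
  simp only [x0, x1, x3, x4, x5, x6, x7, x8, y0, y2, y3, y5, y6, y8, z1, z2, z4, z5, z7, z8, sub_zero, zero_sub, add_zero, zero_add, mul_zero, sub_self] at sD sE sG v1 v2 r1 r2 r3 r4 r5 r6 r7 r8 r9 r10 r11 r12 r13 r14 r15 r16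
  clear hl a0 a1 a2 a3 a4 a5 a6 a7 a8
  clear x0 x1 x3 x4 x5 x6 x7 x8 y0 y2 y3 y5 y6 y8 z1 z2 z4 z5 z7 z8
  exfalso
  omega

lemma cas_1755 (h : H9 D E G d)
    (hl : ∀ i : ℕ, i < 9 → lab D E G (i : ZMod 9) = dg 1755 i) : Con9 D E G := by
  have hk : d ≤ 6 := h.rh9 hl
  obtain ⟨a0, a1, a2, a3, a4, a5, a6, a7, a8⟩ := hl9 hl
  obtain ⟨x0, y0, z0⟩ := h.toTr.nlab3 (a0.trans rfl)
  obtain ⟨x1, y1, z1⟩ := h.toTr.nlab2 (a1.trans rfl)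
  obtain ⟨x2, y2, z2⟩ := h.toTr.nlab1 (a2.trans rfl)
  obtain ⟨x3, y3, z3⟩ := h.toTr.nlab3 (a3.trans rfl)
  obtain ⟨x4, y4, z4⟩ := h.toTr.nlab2 (a4.trans rfl)
  obtain ⟨x5, y5, z5⟩ := h.toTr.nlab1 (a5.trans rfl)
  obtain ⟨x6, y6, z6⟩ := lab0 (a6.trans rfl)
  obtain ⟨x7, y7, z7⟩ := lab0 (a7.trans rfl)
  obtain ⟨x8, y8, z8⟩ := lab0 (a8.trans rfl)
  have sD := h.toTr.s9
  have sE := h.toTr.rot.s9
  have sG := h.toTr.rot.rot.s9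
  have pd := h.pos
  have v1 := dvd9 h.s1
  have v2 := dvd9 h.s2
  have r1 : (E 1 - G 1) + (E 3 - G 3) = (E 4 - G 4) + (E 6 - G 6) :=
    h.rd 2 5 (nz9 x2) (nz9 x5) 1
  have r2 : (E 0 - G 0) + (E 4 - G 4) = (E 3 - G 3) + (E 7 - G 7) :=
    h.rd 2 5 (nz9 x2) (nz9 x5) 2
  have r3 : (E 8 - G 8) + (E 5 - G 5) = (E 2 - G 2) + (E 8 - G 8) :=
    h.rd 2 5 (nz9 x2) (nz9 x5) 3
  have r4 : (E 7 - G 7) + (E 6 - G 6) = (E 1 - G 1) + (E 0 - G 0) :=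
    h.rd 2 5 (nz9 x2) (nz9 x5) 4
  have r5 : (G 0 - D 0) + (G 2 - D 2) = (G 3 - D 3) + (G 5 - D 5) :=
    h.re 1 4 (nz9 y1) (nz9 y4) 1
  have r6 : (G 8 - D 8) + (G 3 - D 3) = (G 2 - D 2) + (G 6 - D 6) :=
    h.re 1 4 (nz9 y1) (nz9 y4) 2
  have r7 : (G 7 - D 7) + (G 4 - D 4) = (G 1 - D 1) + (G 7 - D 7) :=
    h.re 1 4 (nz9 y1) (nz9 y4) 3
  have r8 : (G 6 - D 6) + (G 5 - D 5) = (G 0 - D 0) + (G 8 - D 8) :=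
    h.re 1 4 (nz9 y1) (nz9 y4) 4
  have r9 : (D 8 - E 8) + (D 1 - E 1) = (D 2 - E 2) + (D 4 - E 4) :=
    h.rg 0 3 (nz9 z0) (nz9 z3) 1
  have r10 : (D 7 - E 7) + (D 2 - E 2) = (D 1 - E 1) + (D 5 - E 5) :=
    h.rg 0 3 (nz9 z0) (nz9 z3) 2
  have r11 : (D 6 - E 6) + (D 3 - E 3) = (D 0 - E 0) + (D 6 - E 6) :=
    h.rg 0 3 (nz9 z0) (nz9 z3) 3
  have r12 : (D 5 - E 5) + (D 4 - E 4) = (D 8 - E 8) + (D 7 - E 7) :=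
    h.rg 0 3 (nz9 z0) (nz9 z3) 4
  simp only [x0, x1, x3, x4, x6, x7, x8, y0, y2, y3, y5, y6, y7, y8, z1, z2, z4, z5, z6, z7, z8, sub_zero, zero_sub, add_zero, zero_add, mul_zero, sub_self] at sD sE sG v1 v2 r1 r2 r3 r4 r5 r6 r7 r8 r9 r10 r11 r12
  clear hl a0 a1 a2 a3 a4 a5 a6 a7 a8
  clear x0 x1 x3 x4 x6 x7 x8 y0 y2 y3 y5 y6 y7 y8 z1 z2 z4 z5 z6 z7 z8
  exfalso
  omega

lemma cas_34523 (h : H9 D E G d)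
    (hl : ∀ i : ℕ, i < 9 → lab D E G (i : ZMod 9) = dg 34523 i) : Con9 D E G := by
  have hk : d ≤ 7 := h.rh9 hl
  obtain ⟨a0, a1, a2, a3, a4, a5, a6, a7, a8⟩ := hl9 hl
  obtain ⟨x0, y0, z0⟩ := h.toTr.nlab3 (a0.trans rfl)
  obtain ⟨x1, y1, z1⟩ := h.toTr.nlab2 (a1.trans rfl)
  obtain ⟨x2, y2, z2⟩ := h.toTr.nlab1 (a2.trans rfl)
  obtain ⟨x3, y3, z3⟩ := h.toTr.nlab3 (a3.trans rfl)
  obtain ⟨x4, y4, z4⟩ := h.toTr.nlab2 (a4.trans rfl)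
  obtain ⟨x5, y5, z5⟩ := h.toTr.nlab1 (a5.trans rfl)
  obtain ⟨x6, y6, z6⟩ := lab0 (a6.trans rfl)
  obtain ⟨x7, y7, z7⟩ := h.toTr.nlab2 (a7.trans rfl)
  obtain ⟨x8, y8, z8⟩ := lab0 (a8.trans rfl)
  have sD := h.toTr.s9
  have sE := h.toTr.rot.s9
  have sG := h.toTr.rot.rot.s9
  have pd := h.pos
  have v1 := dvd9 h.s1
  have v2 := dvd9 h.s2
  have r1 : (E 1 - G 1) + (E 3 - G 3) = (E 4 - G 4) + (E 6 - G 6) :=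
    h.rd 2 5 (nz9 x2) (nz9 x5) 1
  have r2 : (E 0 - G 0) + (E 4 - G 4) = (E 3 - G 3) + (E 7 - G 7) :=
    h.rd 2 5 (nz9 x2) (nz9 x5) 2
  have r3 : (E 8 - G 8) + (E 5 - G 5) = (E 2 - G 2) + (E 8 - G 8) :=
    h.rd 2 5 (nz9 x2) (nz9 x5) 3
  have r4 : (E 7 - G 7) + (E 6 - G 6) = (E 1 - G 1) + (E 0 - G 0) :=
    h.rd 2 5 (nz9 x2) (nz9 x5) 4
  have r5 : (G 0 - D 0) + (G 2 - D 2) = (G 3 - D 3) + (G 5 - D 5) :=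
    h.re 1 4 (nz9 y1) (nz9 y4) 1
  have r6 : (G 8 - D 8) + (G 3 - D 3) = (G 2 - D 2) + (G 6 - D 6) :=
    h.re 1 4 (nz9 y1) (nz9 y4) 2
  have r7 : (G 7 - D 7) + (G 4 - D 4) = (G 1 - D 1) + (G 7 - D 7) :=
    h.re 1 4 (nz9 y1) (nz9 y4) 3
  have r8 : (G 6 - D 6) + (G 5 - D 5) = (G 0 - D 0) + (G 8 - D 8) :=
    h.re 1 4 (nz9 y1) (nz9 y4) 4
  have r9 : (G 0 - D 0) + (G 2 - D 2) = (G 6 - D 6) + (G 8 - D 8) :=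
    h.re 1 7 (nz9 y1) (nz9 y7) 1
  have r10 : (G 8 - D 8) + (G 3 - D 3) = (G 5 - D 5) + (G 0 - D 0) :=
    h.re 1 7 (nz9 y1) (nz9 y7) 2
  have r11 : (G 7 - D 7) + (G 4 - D 4) = (G 4 - D 4) + (G 1 - D 1) :=
    h.re 1 7 (nz9 y1) (nz9 y7) 3
  have r12 : (G 6 - D 6) + (G 5 - D 5) = (G 3 - D 3) + (G 2 - D 2) :=
    h.re 1 7 (nz9 y1) (nz9 y7) 4
  have r13 : (D 8 - E 8) + (D 1 - E 1) = (D 2 - E 2) + (D 4 - E 4) :=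
    h.rg 0 3 (nz9 z0) (nz9 z3) 1
  have r14 : (D 7 - E 7) + (D 2 - E 2) = (D 1 - E 1) + (D 5 - E 5) :=
    h.rg 0 3 (nz9 z0) (nz9 z3) 2
  have r15 : (D 6 - E 6) + (D 3 - E 3) = (D 0 - E 0) + (D 6 - E 6) :=
    h.rg 0 3 (nz9 z0) (nz9 z3) 3
  have r16 : (D 5 - E 5) + (D 4 - E 4) = (D 8 - E 8) + (D 7 - E 7) :=
    h.rg 0 3 (nz9 z0) (nz9 z3) 4
  simp only [x0, x1, x3, x4, x6, x7, x8, y0, y2, y3, y5, y6, y8, z1, z2, z4, z5, z6, z7, z8, sub_zero, zero_sub, add_zero, zero_add, mul_zero, sub_self] at sD sE sG v1 v2 r1 r2 r3 r4 r5 r6 r7 r8 r9 r10 r11 r12 r13 r14 r15 r16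
  clear hl a0 a1 a2 a3 a4 a5 a6 a7 a8
  clear x0 x1 x3 x4 x6 x7 x8 y0 y2 y3 y5 y6 y8 z1 z2 z4 z5 z6 z7 z8
  exfalso
  omega

lemma cas_14043 (h : H9 D E G d)
    (hl : ∀ i : ℕ, i < 9 → lab D E G (i : ZMod 9) = dg 14043 i) : Con9 D E G := by
  have hk : d ≤ 7 := h.rh9 hl
  obtain ⟨a0, a1, a2, a3, a4, a5, a6, a7, a8⟩ := hl9 hl
  obtain ⟨x0, y0, z0⟩ := h.toTr.nlab3 (a0.trans rfl)
  obtain ⟨x1, y1, z1⟩ := h.toTr.nlab2 (a1.trans rfl)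
  obtain ⟨x2, y2, z2⟩ := h.toTr.nlab1 (a2.trans rfl)
  obtain ⟨x3, y3, z3⟩ := h.toTr.nlab3 (a3.trans rfl)
  obtain ⟨x4, y4, z4⟩ := h.toTr.nlab2 (a4.trans rfl)
  obtain ⟨x5, y5, z5⟩ := h.toTr.nlab1 (a5.trans rfl)
  obtain ⟨x6, y6, z6⟩ := h.toTr.nlab3 (a6.trans rfl)
  obtain ⟨x7, y7, z7⟩ := lab0 (a7.trans rfl)
  obtain ⟨x8, y8, z8⟩ := lab0 (a8.trans rfl)
  have sD := h.toTr.s9
  have sE := h.toTr.rot.s9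
  have sG := h.toTr.rot.rot.s9
  have pd := h.pos
  have v1 := dvd9 h.s1
  have v2 := dvd9 h.s2
  have r1 : (E 1 - G 1) + (E 3 - G 3) = (E 4 - G 4) + (E 6 - G 6) :=
    h.rd 2 5 (nz9 x2) (nz9 x5) 1
  have r2 : (E 0 - G 0) + (E 4 - G 4) = (E 3 - G 3) + (E 7 - G 7) :=
    h.rd 2 5 (nz9 x2) (nz9 x5) 2
  have r3 : (E 8 - G 8) + (E 5 - G 5) = (E 2 - G 2) + (E 8 - G 8) :=
    h.rd 2 5 (nz9 x2) (nz9 x5) 3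
  have r4 : (E 7 - G 7) + (E 6 - G 6) = (E 1 - G 1) + (E 0 - G 0) :=
    h.rd 2 5 (nz9 x2) (nz9 x5) 4
  have r5 : (G 0 - D 0) + (G 2 - D 2) = (G 3 - D 3) + (G 5 - D 5) :=
    h.re 1 4 (nz9 y1) (nz9 y4) 1
  have r6 : (G 8 - D 8) + (G 3 - D 3) = (G 2 - D 2) + (G 6 - D 6) :=
    h.re 1 4 (nz9 y1) (nz9 y4) 2
  have r7 : (G 7 - D 7) + (G 4 - D 4) = (G 1 - D 1) + (G 7 - D 7) :=
    h.re 1 4 (nz9 y1) (nz9 y4) 3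
  have r8 : (G 6 - D 6) + (G 5 - D 5) = (G 0 - D 0) + (G 8 - D 8) :=
    h.re 1 4 (nz9 y1) (nz9 y4) 4
  have r9 : (D 8 - E 8) + (D 1 - E 1) = (D 2 - E 2) + (D 4 - E 4) :=
    h.rg 0 3 (nz9 z0) (nz9 z3) 1
  have r10 : (D 7 - E 7) + (D 2 - E 2) = (D 1 - E 1) + (D 5 - E 5) :=
    h.rg 0 3 (nz9 z0) (nz9 z3) 2
  have r11 : (D 6 - E 6) + (D 3 - E 3) = (D 0 - E 0) + (D 6 - E 6) :=
    h.rg 0 3 (nz9 z0) (nz9 z3) 3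
  have r12 : (D 5 - E 5) + (D 4 - E 4) = (D 8 - E 8) + (D 7 - E 7) :=
    h.rg 0 3 (nz9 z0) (nz9 z3) 4
  have r13 : (D 8 - E 8) + (D 1 - E 1) = (D 5 - E 5) + (D 7 - E 7) :=
    h.rg 0 6 (nz9 z0) (nz9 z6) 1
  have r14 : (D 7 - E 7) + (D 2 - E 2) = (D 4 - E 4) + (D 8 - E 8) :=
    h.rg 0 6 (nz9 z0) (nz9 z6) 2
  have r15 : (D 6 - E 6) + (D 3 - E 3) = (D 3 - E 3) + (D 0 - E 0) :=
    h.rg 0 6 (nz9 z0) (nz9 z6) 3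
  have r16 : (D 5 - E 5) + (D 4 - E 4) = (D 2 - E 2) + (D 1 - E 1) :=
    h.rg 0 6 (nz9 z0) (nz9 z6) 4
  simp only [x0, x1, x3, x4, x6, x7, x8, y0, y2, y3, y5, y6, y7, y8, z1, z2, z4, z5, z7, z8, sub_zero, zero_sub, add_zero, zero_add, mul_zero, sub_self] at sD sE sG v1 v2 r1 r2 r3 r4 r5 r6 r7 r8 r9 r10 r11 r12 r13 r14 r15 r16
  clear hl a0 a1 a2 a3 a4 a5 a6 a7 a8
  clear x0 x1 x3 x4 x6 x7 x8 y0 y2 y3 y5 y6 y7 y8 z1 z2 z4 z5 z7 z8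
  exfalso
  omega

lemma cas_46811 (h : H9 D E G d)
    (hl : ∀ i : ℕ, i < 9 → lab D E G (i : ZMod 9) = dg 46811 i) : Con9 D E G := by
  have hk : d ≤ 8 := h.rh9 hl
  obtain ⟨a0, a1, a2, a3, a4, a5, a6, a7, a8⟩ := hl9 hl
  obtain ⟨x0, y0, z0⟩ := h.toTr.nlab3 (a0.trans rfl)
  obtain ⟨x1, y1, z1⟩ := h.toTr.nlab2 (a1.trans rfl)
  obtain ⟨x2, y2, z2⟩ := h.toTr.nlab1 (a2.trans rfl)
  obtain ⟨x3, y3, z3⟩ := h.toTr.nlab3 (a3.trans rfl)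
  obtain ⟨x4, y4, z4⟩ := h.toTr.nlab2 (a4.trans rfl)
  obtain ⟨x5, y5, z5⟩ := h.toTr.nlab1 (a5.trans rfl)
  obtain ⟨x6, y6, z6⟩ := h.toTr.nlab3 (a6.trans rfl)
  obtain ⟨x7, y7, z7⟩ := h.toTr.nlab2 (a7.trans rfl)
  obtain ⟨x8, y8, z8⟩ := lab0 (a8.trans rfl)
  have sD := h.toTr.s9
  have sE := h.toTr.rot.s9
  have sG := h.toTr.rot.rot.s9
  have pd := h.pos
  have v1 := dvd9 h.s1
  have v2 := dvd9 h.s2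
  have r1 : (E 1 - G 1) + (E 3 - G 3) = (E 4 - G 4) + (E 6 - G 6) :=
    h.rd 2 5 (nz9 x2) (nz9 x5) 1
  have r2 : (E 0 - G 0) + (E 4 - G 4) = (E 3 - G 3) + (E 7 - G 7) :=
    h.rd 2 5 (nz9 x2) (nz9 x5) 2
  have r3 : (E 8 - G 8) + (E 5 - G 5) = (E 2 - G 2) + (E 8 - G 8) :=
    h.rd 2 5 (nz9 x2) (nz9 x5) 3
  have r4 : (E 7 - G 7) + (E 6 - G 6) = (E 1 - G 1) + (E 0 - G 0) :=
    h.rd 2 5 (nz9 x2) (nz9 x5) 4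
  have r5 : (G 0 - D 0) + (G 2 - D 2) = (G 3 - D 3) + (G 5 - D 5) :=
    h.re 1 4 (nz9 y1) (nz9 y4) 1
  have r6 : (G 8 - D 8) + (G 3 - D 3) = (G 2 - D 2) + (G 6 - D 6) :=
    h.re 1 4 (nz9 y1) (nz9 y4) 2
  have r7 : (G 7 - D 7) + (G 4 - D 4) = (G 1 - D 1) + (G 7 - D 7) :=
    h.re 1 4 (nz9 y1) (nz9 y4) 3
  have r8 : (G 6 - D 6) + (G 5 - D 5) = (G 0 - D 0) + (G 8 - D 8) :=
    h.re 1 4 (nz9 y1) (nz9 y4) 4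
  have r9 : (G 0 - D 0) + (G 2 - D 2) = (G 6 - D 6) + (G 8 - D 8) :=
    h.re 1 7 (nz9 y1) (nz9 y7) 1
  have r10 : (G 8 - D 8) + (G 3 - D 3) = (G 5 - D 5) + (G 0 - D 0) :=
    h.re 1 7 (nz9 y1) (nz9 y7) 2
  have r11 : (G 7 - D 7) + (G 4 - D 4) = (G 4 - D 4) + (G 1 - D 1) :=
    h.re 1 7 (nz9 y1) (nz9 y7) 3
  have r12 : (G 6 - D 6) + (G 5 - D 5) = (G 3 - D 3) + (G 2 - D 2) :=
    h.re 1 7 (nz9 y1) (nz9 y7) 4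
  have r13 : (D 8 - E 8) + (D 1 - E 1) = (D 2 - E 2) + (D 4 - E 4) :=
    h.rg 0 3 (nz9 z0) (nz9 z3) 1
  have r14 : (D 7 - E 7) + (D 2 - E 2) = (D 1 - E 1) + (D 5 - E 5) :=
    h.rg 0 3 (nz9 z0) (nz9 z3) 2
  have r15 : (D 6 - E 6) + (D 3 - E 3) = (D 0 - E 0) + (D 6 - E 6) :=
    h.rg 0 3 (nz9 z0) (nz9 z3) 3
  have r16 : (D 5 - E 5) + (D 4 - E 4) = (D 8 - E 8) + (D 7 - E 7) :=
    h.rg 0 3 (nz9 z0) (nz9 z3) 4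
  have r17 : (D 8 - E 8) + (D 1 - E 1) = (D 5 - E 5) + (D 7 - E 7) :=
    h.rg 0 6 (nz9 z0) (nz9 z6) 1
  have r18 : (D 7 - E 7) + (D 2 - E 2) = (D 4 - E 4) + (D 8 - E 8) :=
    h.rg 0 6 (nz9 z0) (nz9 z6) 2
  have r19 : (D 6 - E 6) + (D 3 - E 3) = (D 3 - E 3) + (D 0 - E 0) :=
    h.rg 0 6 (nz9 z0) (nz9 z6) 3
  have r20 : (D 5 - E 5) + (D 4 - E 4) = (D 2 - E 2) + (D 1 - E 1) :=
    h.rg 0 6 (nz9 z0) (nz9 z6) 4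
  simp only [x0, x1, x3, x4, x6, x7, x8, y0, y2, y3, y5, y6, y8, z1, z2, z4, z5, z7, z8, sub_zero, zero_sub, add_zero, zero_add, mul_zero, sub_self] at sD sE sG v1 v2 r1 r2 r3 r4 r5 r6 r7 r8 r9 r10 r11 r12 r13 r14 r15 r16 r17 r18 r19 r20
  clear hl a0 a1 a2 a3 a4 a5 a6 a7 a8
  clear x0 x1 x3 x4 x6 x7 x8 y0 y2 y3 y5 y6 y8 z1 z2 z4 z5 z7 z8
  exfalso
  omega

lemma cas_112347 (h : H9 D E G d)
    (hl : ∀ i : ℕ, i < 9 → lab D E G (i : ZMod 9) = dg 112347 i) : Con9 D E G := by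
  have hk : d ≤ 9 := h.rh9 hl
  obtain ⟨a0, a1, a2, a3, a4, a5, a6, a7, a8⟩ := hl9 hl
  obtain ⟨x0, y0, z0⟩ := h.toTr.nlab3 (a0.trans rfl)
  obtain ⟨x1, y1, z1⟩ := h.toTr.nlab2 (a1.trans rfl)
  obtain ⟨x2, y2, z2⟩ := h.toTr.nlab1 (a2.trans rfl)
  obtain ⟨x3, y3, z3⟩ := h.toTr.nlab3 (a3.trans rfl)
  obtain ⟨x4, y4, z4⟩ := h.toTr.nlab2 (a4.trans rfl)
  obtain ⟨x5, y5, z5⟩ := h.toTr.nlab1 (a5.trans rfl)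
  obtain ⟨x6, y6, z6⟩ := h.toTr.nlab3 (a6.trans rfl)
  obtain ⟨x7, y7, z7⟩ := h.toTr.nlab2 (a7.trans rfl)
  obtain ⟨x8, y8, z8⟩ := h.toTr.nlab1 (a8.trans rfl)
  have sD := h.toTr.s9
  have sE := h.toTr.rot.s9
  have sG := h.toTr.rot.rot.s9
  have pd := h.pos
  have v1 := dvd9 h.s1
  have v2 := dvd9 h.s2
  have r1 : (E 1 - G 1) + (E 3 - G 3) = (E 4 - G 4) + (E 6 - G 6) :=
    h.rd 2 5 (nz9 x2) (nz9 x5) 1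
  have r2 : (E 0 - G 0) + (E 4 - G 4) = (E 3 - G 3) + (E 7 - G 7) :=
    h.rd 2 5 (nz9 x2) (nz9 x5) 2
  have r3 : (E 8 - G 8) + (E 5 - G 5) = (E 2 - G 2) + (E 8 - G 8) :=
    h.rd 2 5 (nz9 x2) (nz9 x5) 3
  have r4 : (E 7 - G 7) + (E 6 - G 6) = (E 1 - G 1) + (E 0 - G 0) :=
    h.rd 2 5 (nz9 x2) (nz9 x5) 4
  have r5 : (E 1 - G 1) + (E 3 - G 3) = (E 7 - G 7) + (E 0 - G 0) :=
    h.rd 2 8 (nz9 x2) (nz9 x8) 1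
  have r6 : (E 0 - G 0) + (E 4 - G 4) = (E 6 - G 6) + (E 1 - G 1) :=
    h.rd 2 8 (nz9 x2) (nz9 x8) 2
  have r7 : (E 8 - G 8) + (E 5 - G 5) = (E 5 - G 5) + (E 2 - G 2) :=
    h.rd 2 8 (nz9 x2) (nz9 x8) 3
  have r8 : (E 7 - G 7) + (E 6 - G 6) = (E 4 - G 4) + (E 3 - G 3) :=
    h.rd 2 8 (nz9 x2) (nz9 x8) 4
  have r9 : (G 0 - D 0) + (G 2 - D 2) = (G 3 - D 3) + (G 5 - D 5) :=
    h.re 1 4 (nz9 y1) (nz9 y4) 1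
  have r10 : (G 8 - D 8) + (G 3 - D 3) = (G 2 - D 2) + (G 6 - D 6) :=
    h.re 1 4 (nz9 y1) (nz9 y4) 2
  have r11 : (G 7 - D 7) + (G 4 - D 4) = (G 1 - D 1) + (G 7 - D 7) :=
    h.re 1 4 (nz9 y1) (nz9 y4) 3
  have r12 : (G 6 - D 6) + (G 5 - D 5) = (G 0 - D 0) + (G 8 - D 8) :=
    h.re 1 4 (nz9 y1) (nz9 y4) 4
  have r13 : (G 0 - D 0) + (G 2 - D 2) = (G 6 - D 6) + (G 8 - D 8) :=
    h.re 1 7 (nz9 y1) (nz9 y7) 1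
  have r14 : (G 8 - D 8) + (G 3 - D 3) = (G 5 - D 5) + (G 0 - D 0) :=
    h.re 1 7 (nz9 y1) (nz9 y7) 2
  have r15 : (G 7 - D 7) + (G 4 - D 4) = (G 4 - D 4) + (G 1 - D 1) :=
    h.re 1 7 (nz9 y1) (nz9 y7) 3
  have r16 : (G 6 - D 6) + (G 5 - D 5) = (G 3 - D 3) + (G 2 - D 2) :=
    h.re 1 7 (nz9 y1) (nz9 y7) 4
  have r17 : (D 8 - E 8) + (D 1 - E 1) = (D 2 - E 2) + (D 4 - E 4) :=
    h.rg 0 3 (nz9 z0) (nz9 z3) 1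
  have r18 : (D 7 - E 7) + (D 2 - E 2) = (D 1 - E 1) + (D 5 - E 5) :=
    h.rg 0 3 (nz9 z0) (nz9 z3) 2
  have r19 : (D 6 - E 6) + (D 3 - E 3) = (D 0 - E 0) + (D 6 - E 6) :=
    h.rg 0 3 (nz9 z0) (nz9 z3) 3
  have r20 : (D 5 - E 5) + (D 4 - E 4) = (D 8 - E 8) + (D 7 - E 7) :=
    h.rg 0 3 (nz9 z0) (nz9 z3) 4
  have r21 : (D 8 - E 8) + (D 1 - E 1) = (D 5 - E 5) + (D 7 - E 7) :=
    h.rg 0 6 (nz9 z0) (nz9 z6) 1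
  have r22 : (D 7 - E 7) + (D 2 - E 2) = (D 4 - E 4) + (D 8 - E 8) :=
    h.rg 0 6 (nz9 z0) (nz9 z6) 2
  have r23 : (D 6 - E 6) + (D 3 - E 3) = (D 3 - E 3) + (D 0 - E 0) :=
    h.rg 0 6 (nz9 z0) (nz9 z6) 3
  have r24 : (D 5 - E 5) + (D 4 - E 4) = (D 2 - E 2) + (D 1 - E 1) :=
    h.rg 0 6 (nz9 z0) (nz9 z6) 4
  simp only [x0, x1, x3, x4, x6, x7, y0, y2, y3, y5, y6, y8, z1, z2, z4, z5, z7, z8, sub_zero, zero_sub, add_zero, zero_add, mul_zero, sub_self] at sD sE sG v1 v2 r1 r2 r3 r4 r5 r6 r7 r8 r9 r10 r11 r12 r13 r14 r15 r16 r17 r18 r19 r20 r21 r22 r23 r24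
  clear hl a0 a1 a2 a3 a4 a5 a6 a7 a8
  have hh : (D 2 = 3 ∧ D 5 = 3 ∧ D 8 = 3 ∧ E 1 = 3 ∧ E 4 = 3 ∧ E 7 = 3 ∧ G 0 = 3 ∧ G 3 = 3 ∧ G 6 = 3) := by
    clear x0 x1 x3 x4 x6 x7 y0 y2 y3 y5 y6 y8 z1 z2 z4 z5 z7 z8
    omega
  rcases hh with hh
  · refine Or.inr ⟨0, (Or.inr (Or.inr (Or.inr (Or.inr (Or.inr (Or.inr ⟨funext (all9 ?_ ?_ ?_ ?_ ?_ ?_ ?_ ?_ ?_),
      funext (all9 ?_ ?_ ?_ ?_ ?_ ?_ ?_ ?_ ?_), funext (all9 ?_ ?_ ?_ ?_ ?_ ?_ ?_ ?_ ?_)⟩))))))⟩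
    · show G 0 = 3
      exact hh.2.2.2.2.2.2.1
    · exact z1
    · exact z2
    · show G 3 = 3
      exact hh.2.2.2.2.2.2.2.1
    · exact z4
    · exact z5
    · show G 6 = 3
      exact hh.2.2.2.2.2.2.2.2
    · exact z7
    · exact z8
    · exact y0
    · show E 1 = 3
      exact hh.2.2.2.1
    · exact y2
    · exact y3
    · show E 4 = 3
      exact hh.2.2.2.2.1
    · exact y5
    · exact y6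
    · show E 7 = 3
      exact hh.2.2.2.2.2.1
    · exact y8
    · exact x0
    · exact x1
    · show D 2 = 3
      exact hh.1
    · exact x3
    · exact x4
    · show D 5 = 3
      exact hh.2.1
    · exact x6
    · exact x7
    · show D 8 = 3
      exact hh.2.2.1

lemma cas_16699 (h : H9 D E G d)
    (hl : ∀ i : ℕ, i < 9 → lab D E G (i : ZMod 9) = dg 16699 i) : Con9 D E G := by
  have hk : d ≤ 5 := h.rh9 hl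
  obtain ⟨a0, a1, a2, a3, a4, a5, a6, a7, a8⟩ := hl9 hl
  obtain ⟨x0, y0, z0⟩ := h.toTr.nlab3 (a0.trans rfl)
  obtain ⟨x1, y1, z1⟩ := h.toTr.nlab2 (a1.trans rfl)
  obtain ⟨x2, y2, z2⟩ := h.toTr.nlab3 (a2.trans rfl)
  obtain ⟨x3, y3, z3⟩ := lab0 (a3.trans rfl)
  obtain ⟨x4, y4, z4⟩ := h.toTr.nlab1 (a4.trans rfl)
  obtain ⟨x5, y5, z5⟩ := lab0 (a5.trans rfl)
  obtain ⟨x6, y6, z6⟩ := lab0 (a6.trans rfl)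
  obtain ⟨x7, y7, z7⟩ := h.toTr.nlab1 (a7.trans rfl)
  obtain ⟨x8, y8, z8⟩ := lab0 (a8.trans rfl)
  have sD := h.toTr.s9
  have sE := h.toTr.rot.s9
  have sG := h.toTr.rot.rot.s9
  have pd := h.pos
  have v1 := dvd9 h.s1
  have v2 := dvd9 h.s2
  have r1 : (E 3 - G 3) + (E 5 - G 5) = (E 6 - G 6) + (E 8 - G 8) :=
    h.rd 4 7 (nz9 x4) (nz9 x7) 1
  have r2 : (E 2 - G 2) + (E 6 - G 6) = (E 5 - G 5) + (E 0 - G 0) :=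
    h.rd 4 7 (nz9 x4) (nz9 x7) 2
  have r3 : (E 1 - G 1) + (E 7 - G 7) = (E 4 - G 4) + (E 1 - G 1) :=
    h.rd 4 7 (nz9 x4) (nz9 x7) 3
  have r4 : (E 0 - G 0) + (E 8 - G 8) = (E 3 - G 3) + (E 2 - G 2) :=
    h.rd 4 7 (nz9 x4) (nz9 x7) 4
  have r5 : (D 8 - E 8) + (D 1 - E 1) = (D 1 - E 1) + (D 3 - E 3) :=
    h.rg 0 2 (nz9 z0) (nz9 z2) 1
  have r6 : (D 7 - E 7) + (D 2 - E 2) = (D 0 - E 0) + (D 4 - E 4) :=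
    h.rg 0 2 (nz9 z0) (nz9 z2) 2
  have r7 : (D 6 - E 6) + (D 3 - E 3) = (D 8 - E 8) + (D 5 - E 5) :=
    h.rg 0 2 (nz9 z0) (nz9 z2) 3
  have r8 : (D 5 - E 5) + (D 4 - E 4) = (D 7 - E 7) + (D 6 - E 6) :=
    h.rg 0 2 (nz9 z0) (nz9 z2) 4
  simp only [x0, x1, x2, x3, x5, x6, x8, y0, y2, y3, y4, y5, y6, y7, y8, z1, z3, z4, z5, z6, z7, z8, sub_zero, zero_sub, add_zero, zero_add, mul_zero, sub_self] at sD sE sG v1 v2 r1 r2 r3 r4 r5 r6 r7 r8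
  clear hl a0 a1 a2 a3 a4 a5 a6 a7 a8
  have kD4 : D 4 = (D 7) * 1 := by
    clear x0 x1 x2 x3 x5 x6 x8 y0 y2 y3 y4 y5 y6 y7 y8 z1 z3 z4 z5 z6 z7 z8
    omega
  have kD7 : D 7 = (D 7) * 1 := by
    clear x0 x1 x2 x3 x5 x6 x8 y0 y2 y3 y4 y5 y6 y7 y8 z1 z3 z4 z5 z6 z7 z8
    omega
  have kE1 : E 1 = (D 7) * 2 := by
    clear x0 x1 x2 x3 x5 x6 x8 y0 y2 y3 y4 y5 y6 y7 y8 z1 z3 z4 z5 z6 z7 z8
    omega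
  have kG0 : G 0 = (D 7) * 1 := by
    clear x0 x1 x2 x3 x5 x6 x8 y0 y2 y3 y4 y5 y6 y7 y8 z1 z3 z4 z5 z6 z7 z8
    omega
  have kG2 : G 2 = (D 7) * 1 := by
    clear x0 x1 x2 x3 x5 x6 x8 y0 y2 y3 y4 y5 y6 y7 y8 z1 z3 z4 z5 z6 z7 z8
    omega
  refine Or.inl ⟨2, 7, 2, 1, (D 7), by linarith, all9 ?_ ?_ ?_ ?_ ?_ ?_ ?_ ?_ ?_,
    all9 ?_ ?_ ?_ ?_ ?_ ?_ ?_ ?_ ?_, all9 ?_ ?_ ?_ ?_ ?_ ?_ ?_ ?_ ?_⟩
  · show D 0 = (D 7) * 0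
    rw [mul_zero]; exact x0
  · show D 1 = (D 7) * 0
    rw [mul_zero]; exact x1
  · show D 2 = (D 7) * 0
    rw [mul_zero]; exact x2
  · show D 3 = (D 7) * 0
    rw [mul_zero]; exact x3
  · exact kD4
  · show D 5 = (D 7) * 0
    rw [mul_zero]; exact x5
  · show D 6 = (D 7) * 0
    rw [mul_zero]; exact x6
  · exact kD7
  · show D 8 = (D 7) * 0
    rw [mul_zero]; exact x8
  · show E 0 = (D 7) * 0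
    rw [mul_zero]; exact y0
  · exact kE1
  · show E 2 = (D 7) * 0
    rw [mul_zero]; exact y2
  · show E 3 = (D 7) * 0
    rw [mul_zero]; exact y3
  · show E 4 = (D 7) * 0
    rw [mul_zero]; exact y4
  · show E 5 = (D 7) * 0
    rw [mul_zero]; exact y5
  · show E 6 = (D 7) * 0
    rw [mul_zero]; exact y6
  · show E 7 = (D 7) * 0
    rw [mul_zero]; exact y7
  · show E 8 = (D 7) * 0
    rw [mul_zero]; exact y8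
  · exact kG0
  · show G 1 = (D 7) * 0
    rw [mul_zero]; exact z1
  · exact kG2
  · show G 3 = (D 7) * 0
    rw [mul_zero]; exact z3
  · show G 4 = (D 7) * 0
    rw [mul_zero]; exact z4
  · show G 5 = (D 7) * 0
    rw [mul_zero]; exact z5
  · show G 6 = (D 7) * 0
    rw [mul_zero]; exact z6
  · show G 7 = (D 7) * 0
    rw [mul_zero]; exact z7
  · show G 8 = (D 7) * 0
    rw [mul_zero]; exact z8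

lemma cas_65659 (h : H9 D E G d)
    (hl : ∀ i : ℕ, i < 9 → lab D E G (i : ZMod 9) = dg 65659 i) : Con9 D E G := by
  have hk : d ≤ 5 := h.rh9 hl
  obtain ⟨a0, a1, a2, a3, a4, a5, a6, a7, a8⟩ := hl9 hl
  obtain ⟨x0, y0, z0⟩ := h.toTr.nlab3 (a0.trans rfl)
  obtain ⟨x1, y1, z1⟩ := h.toTr.nlab2 (a1.trans rfl)
  obtain ⟨x2, y2, z2⟩ := h.toTr.nlab3 (a2.trans rfl)
  obtain ⟨x3, y3, z3⟩ := h.toTr.nlab1 (a3.trans rfl)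
  obtain ⟨x4, y4, z4⟩ := lab0 (a4.trans rfl)
  obtain ⟨x5, y5, z5⟩ := lab0 (a5.trans rfl)
  obtain ⟨x6, y6, z6⟩ := lab0 (a6.trans rfl)
  obtain ⟨x7, y7, z7⟩ := lab0 (a7.trans rfl)
  obtain ⟨x8, y8, z8⟩ := h.toTr.nlab1 (a8.trans rfl)
  have sD := h.toTr.s9
  have sE := h.toTr.rot.s9
  have sG := h.toTr.rot.rot.s9
  have pd := h.pos
  have v1 := dvd9 h.s1
  have v2 := dvd9 h.s2
  have r1 : (E 2 - G 2) + (E 4 - G 4) = (E 7 - G 7) + (E 0 - G 0) :=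
    h.rd 3 8 (nz9 x3) (nz9 x8) 1
  have r2 : (E 1 - G 1) + (E 5 - G 5) = (E 6 - G 6) + (E 1 - G 1) :=
    h.rd 3 8 (nz9 x3) (nz9 x8) 2
  have r3 : (E 0 - G 0) + (E 6 - G 6) = (E 5 - G 5) + (E 2 - G 2) :=
    h.rd 3 8 (nz9 x3) (nz9 x8) 3
  have r4 : (E 8 - G 8) + (E 7 - G 7) = (E 4 - G 4) + (E 3 - G 3) :=
    h.rd 3 8 (nz9 x3) (nz9 x8) 4
  have r5 : (D 8 - E 8) + (D 1 - E 1) = (D 1 - E 1) + (D 3 - E 3) :=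
    h.rg 0 2 (nz9 z0) (nz9 z2) 1
  have r6 : (D 7 - E 7) + (D 2 - E 2) = (D 0 - E 0) + (D 4 - E 4) :=
    h.rg 0 2 (nz9 z0) (nz9 z2) 2
  have r7 : (D 6 - E 6) + (D 3 - E 3) = (D 8 - E 8) + (D 5 - E 5) :=
    h.rg 0 2 (nz9 z0) (nz9 z2) 3
  have r8 : (D 5 - E 5) + (D 4 - E 4) = (D 7 - E 7) + (D 6 - E 6) :=
    h.rg 0 2 (nz9 z0) (nz9 z2) 4
  simp only [x0, x1, x2, x4, x5, x6, x7, y0, y2, y3, y4, y5, y6, y7, y8, z1, z3, z4, z5, z6, z7, z8, sub_zero, zero_sub, add_zero, zero_add, mul_zero, sub_self] at sD sE sG v1 v2 r1 r2 r3 r4 r5 r6 r7 r8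
  clear hl a0 a1 a2 a3 a4 a5 a6 a7 a8
  have kD3 : D 3 = (D 8) * 1 := by
    clear x0 x1 x2 x4 x5 x6 x7 y0 y2 y3 y4 y5 y6 y7 y8 z1 z3 z4 z5 z6 z7 z8
    omega
  have kD8 : D 8 = (D 8) * 1 := by
    clear x0 x1 x2 x4 x5 x6 x7 y0 y2 y3 y4 y5 y6 y7 y8 z1 z3 z4 z5 z6 z7 z8
    omega
  have kE1 : E 1 = (D 8) * 2 := by
    clear x0 x1 x2 x4 x5 x6 x7 y0 y2 y3 y4 y5 y6 y7 y8 z1 z3 z4 z5 z6 z7 z8
    omega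
  have kG0 : G 0 = (D 8) * 1 := by
    clear x0 x1 x2 x4 x5 x6 x7 y0 y2 y3 y4 y5 y6 y7 y8 z1 z3 z4 z5 z6 z7 z8
    omega
  have kG2 : G 2 = (D 8) * 1 := by
    clear x0 x1 x2 x4 x5 x6 x7 y0 y2 y3 y4 y5 y6 y7 y8 z1 z3 z4 z5 z6 z7 z8
    omega
  refine Or.inl ⟨2, 8, 2, 1, (D 8), by linarith, all9 ?_ ?_ ?_ ?_ ?_ ?_ ?_ ?_ ?_,
    all9 ?_ ?_ ?_ ?_ ?_ ?_ ?_ ?_ ?_, all9 ?_ ?_ ?_ ?_ ?_ ?_ ?_ ?_ ?_⟩
  · show D 0 = (D 8) * 0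
    rw [mul_zero]; exact x0
  · show D 1 = (D 8) * 0
    rw [mul_zero]; exact x1
  · show D 2 = (D 8) * 0
    rw [mul_zero]; exact x2
  · exact kD3
  · show D 4 = (D 8) * 0
    rw [mul_zero]; exact x4
  · show D 5 = (D 8) * 0
    rw [mul_zero]; exact x5
  · show D 6 = (D 8) * 0
    rw [mul_zero]; exact x6
  · show D 7 = (D 8) * 0
    rw [mul_zero]; exact x7
  · exact kD8
  · show E 0 = (D 8) * 0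
    rw [mul_zero]; exact y0
  · exact kE1
  · show E 2 = (D 8) * 0
    rw [mul_zero]; exact y2
  · show E 3 = (D 8) * 0
    rw [mul_zero]; exact y3
  · show E 4 = (D 8) * 0
    rw [mul_zero]; exact y4
  · show E 5 = (D 8) * 0
    rw [mul_zero]; exact y5
  · show E 6 = (D 8) * 0
    rw [mul_zero]; exact y6
  · show E 7 = (D 8) * 0
    rw [mul_zero]; exact y7
  · show E 8 = (D 8) * 0
    rw [mul_zero]; exact y8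
  · exact kG0
  · show G 1 = (D 8) * 0
    rw [mul_zero]; exact z1
  · exact kG2
  · show G 3 = (D 8) * 0
    rw [mul_zero]; exact z3
  · show G 4 = (D 8) * 0
    rw [mul_zero]; exact z4
  · show G 5 = (D 8) * 0
    rw [mul_zero]; exact z5
  · show G 6 = (D 8) * 0
    rw [mul_zero]; exact z6
  · show G 7 = (D 8) * 0
    rw [mul_zero]; exact z7
  · show G 8 = (D 8) * 0
    rw [mul_zero]; exact z8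

lemma cas_98939 (h : H9 D E G d)
    (hl : ∀ i : ℕ, i < 9 → lab D E G (i : ZMod 9) = dg 98939 i) : Con9 D E G := by
  have hk : d ≤ 7 := h.rh9 hl
  obtain ⟨a0, a1, a2, a3, a4, a5, a6, a7, a8⟩ := hl9 hl
  obtain ⟨x0, y0, z0⟩ := h.toTr.nlab3 (a0.trans rfl)
  obtain ⟨x1, y1, z1⟩ := h.toTr.nlab2 (a1.trans rfl)
  obtain ⟨x2, y2, z2⟩ := h.toTr.nlab3 (a2.trans rfl)
  obtain ⟨x3, y3, z3⟩ := h.toTr.nlab1 (a3.trans rfl)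
  obtain ⟨x4, y4, z4⟩ := h.toTr.nlab2 (a4.trans rfl)
  obtain ⟨x5, y5, z5⟩ := lab0 (a5.trans rfl)
  obtain ⟨x6, y6, z6⟩ := lab0 (a6.trans rfl)
  obtain ⟨x7, y7, z7⟩ := h.toTr.nlab2 (a7.trans rfl)
  obtain ⟨x8, y8, z8⟩ := h.toTr.nlab1 (a8.trans rfl)
  have sD := h.toTr.s9
  have sE := h.toTr.rot.s9
  have sG := h.toTr.rot.rot.s9
  have pd := h.pos
  have v1 := dvd9 h.s1
  have v2 := dvd9 h.s2
  have r1 : (E 2 - G 2) + (E 4 - G 4) = (E 7 - G 7) + (E 0 - G 0) :=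
    h.rd 3 8 (nz9 x3) (nz9 x8) 1
  have r2 : (E 1 - G 1) + (E 5 - G 5) = (E 6 - G 6) + (E 1 - G 1) :=
    h.rd 3 8 (nz9 x3) (nz9 x8) 2
  have r3 : (E 0 - G 0) + (E 6 - G 6) = (E 5 - G 5) + (E 2 - G 2) :=
    h.rd 3 8 (nz9 x3) (nz9 x8) 3
  have r4 : (E 8 - G 8) + (E 7 - G 7) = (E 4 - G 4) + (E 3 - G 3) :=
    h.rd 3 8 (nz9 x3) (nz9 x8) 4
  have r5 : (G 0 - D 0) + (G 2 - D 2) = (G 3 - D 3) + (G 5 - D 5) :=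
    h.re 1 4 (nz9 y1) (nz9 y4) 1
  have r6 : (G 8 - D 8) + (G 3 - D 3) = (G 2 - D 2) + (G 6 - D 6) :=
    h.re 1 4 (nz9 y1) (nz9 y4) 2
  have r7 : (G 7 - D 7) + (G 4 - D 4) = (G 1 - D 1) + (G 7 - D 7) :=
    h.re 1 4 (nz9 y1) (nz9 y4) 3
  have r8 : (G 6 - D 6) + (G 5 - D 5) = (G 0 - D 0) + (G 8 - D 8) :=
    h.re 1 4 (nz9 y1) (nz9 y4) 4
  have r9 : (G 0 - D 0) + (G 2 - D 2) = (G 6 - D 6) + (G 8 - D 8) :=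
    h.re 1 7 (nz9 y1) (nz9 y7) 1
  have r10 : (G 8 - D 8) + (G 3 - D 3) = (G 5 - D 5) + (G 0 - D 0) :=
    h.re 1 7 (nz9 y1) (nz9 y7) 2
  have r11 : (G 7 - D 7) + (G 4 - D 4) = (G 4 - D 4) + (G 1 - D 1) :=
    h.re 1 7 (nz9 y1) (nz9 y7) 3
  have r12 : (G 6 - D 6) + (G 5 - D 5) = (G 3 - D 3) + (G 2 - D 2) :=
    h.re 1 7 (nz9 y1) (nz9 y7) 4
  have r13 : (D 8 - E 8) + (D 1 - E 1) = (D 1 - E 1) + (D 3 - E 3) :=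
    h.rg 0 2 (nz9 z0) (nz9 z2) 1
  have r14 : (D 7 - E 7) + (D 2 - E 2) = (D 0 - E 0) + (D 4 - E 4) :=
    h.rg 0 2 (nz9 z0) (nz9 z2) 2
  have r15 : (D 6 - E 6) + (D 3 - E 3) = (D 8 - E 8) + (D 5 - E 5) :=
    h.rg 0 2 (nz9 z0) (nz9 z2) 3
  have r16 : (D 5 - E 5) + (D 4 - E 4) = (D 7 - E 7) + (D 6 - E 6) :=
    h.rg 0 2 (nz9 z0) (nz9 z2) 4
  simp only [x0, x1, x2, x4, x5, x6, x7, y0, y2, y3, y5, y6, y8, z1, z3, z4, z5, z6, z7, z8, sub_zero, zero_sub, add_zero, zero_add, mul_zero, sub_self] at sD sE sG v1 v2 r1 r2 r3 r4 r5 r6 r7 r8 r9 r10 r11 r12 r13 r14 r15 r16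
  clear hl a0 a1 a2 a3 a4 a5 a6 a7 a8
  clear x0 x1 x2 x4 x5 x6 x7 y0 y2 y3 y5 y6 y8 z1 z3 z4 z5 z6 z7 z8
  exfalso
  omega

lemma cas_9743 (h : H9 D E G d)
    (hl : ∀ i : ℕ, i < 9 → lab D E G (i : ZMod 9) = dg 9743 i) : Con9 D E G := by
  have hk : d ≤ 5 := h.rh9 hl
  obtain ⟨a0, a1, a2, a3, a4, a5, a6, a7, a8⟩ := hl9 hl
  obtain ⟨x0, y0, z0⟩ := h.toTr.nlab3 (a0.trans rfl)
  obtain ⟨x1, y1, z1⟩ := h.toTr.nlab3 (a1.trans rfl)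
  obtain ⟨x2, y2, z2⟩ := lab0 (a2.trans rfl)
  obtain ⟨x3, y3, z3⟩ := lab0 (a3.trans rfl)
  obtain ⟨x4, y4, z4⟩ := h.toTr.nlab2 (a4.trans rfl)
  obtain ⟨x5, y5, z5⟩ := h.toTr.nlab1 (a5.trans rfl)
  obtain ⟨x6, y6, z6⟩ := h.toTr.nlab2 (a6.trans rfl)
  obtain ⟨x7, y7, z7⟩ := lab0 (a7.trans rfl)
  obtain ⟨x8, y8, z8⟩ := lab0 (a8.trans rfl)
  have sD := h.toTr.s9
  have sE := h.toTr.rot.s9
  have sG := h.toTr.rot.rot.s9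
  have pd := h.pos
  have v1 := dvd9 h.s1
  have v2 := dvd9 h.s2
  have r1 : (G 3 - D 3) + (G 5 - D 5) = (G 5 - D 5) + (G 7 - D 7) :=
    h.re 4 6 (nz9 y4) (nz9 y6) 1
  have r2 : (G 2 - D 2) + (G 6 - D 6) = (G 4 - D 4) + (G 8 - D 8) :=
    h.re 4 6 (nz9 y4) (nz9 y6) 2
  have r3 : (G 1 - D 1) + (G 7 - D 7) = (G 3 - D 3) + (G 0 - D 0) :=
    h.re 4 6 (nz9 y4) (nz9 y6) 3
  have r4 : (G 0 - D 0) + (G 8 - D 8) = (G 2 - D 2) + (G 1 - D 1) :=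
    h.re 4 6 (nz9 y4) (nz9 y6) 4
  have r5 : (D 8 - E 8) + (D 1 - E 1) = (D 0 - E 0) + (D 2 - E 2) :=
    h.rg 0 1 (nz9 z0) (nz9 z1) 1
  have r6 : (D 7 - E 7) + (D 2 - E 2) = (D 8 - E 8) + (D 3 - E 3) :=
    h.rg 0 1 (nz9 z0) (nz9 z1) 2
  have r7 : (D 6 - E 6) + (D 3 - E 3) = (D 7 - E 7) + (D 4 - E 4) :=
    h.rg 0 1 (nz9 z0) (nz9 z1) 3
  have r8 : (D 5 - E 5) + (D 4 - E 4) = (D 6 - E 6) + (D 5 - E 5) :=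
    h.rg 0 1 (nz9 z0) (nz9 z1) 4
  simp only [x0, x1, x2, x3, x4, x6, x7, x8, y0, y1, y2, y3, y5, y7, y8, z2, z3, z4, z5, z6, z7, z8, sub_zero, zero_sub, add_zero, zero_add, mul_zero, sub_self] at sD sE sG v1 v2 r1 r2 r3 r4 r5 r6 r7 r8
  clear hl a0 a1 a2 a3 a4 a5 a6 a7 a8
  have kD5 : D 5 = (E 6) * 2 := by
    clear x0 x1 x2 x3 x4 x6 x7 x8 y0 y1 y2 y3 y5 y7 y8 z2 z3 z4 z5 z6 z7 z8
    omega
  have kE4 : E 4 = (E 6) * 1 := by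
    clear x0 x1 x2 x3 x4 x6 x7 x8 y0 y1 y2 y3 y5 y7 y8 z2 z3 z4 z5 z6 z7 z8
    omega
  have kE6 : E 6 = (E 6) * 1 := by
    clear x0 x1 x2 x3 x4 x6 x7 x8 y0 y1 y2 y3 y5 y7 y8 z2 z3 z4 z5 z6 z7 z8
    omega
  have kG0 : G 0 = (E 6) * 1 := by
    clear x0 x1 x2 x3 x4 x6 x7 x8 y0 y1 y2 y3 y5 y7 y8 z2 z3 z4 z5 z6 z7 z8
    omega
  have kG1 : G 1 = (E 6) * 1 := by
    clear x0 x1 x2 x3 x4 x6 x7 x8 y0 y1 y2 y3 y5 y7 y8 z2 z3 z4 z5 z6 z7 z8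
    omega
  refine Or.inl ⟨1, 5, 1, 6, (E 6), by linarith, all9 ?_ ?_ ?_ ?_ ?_ ?_ ?_ ?_ ?_,
    all9 ?_ ?_ ?_ ?_ ?_ ?_ ?_ ?_ ?_, all9 ?_ ?_ ?_ ?_ ?_ ?_ ?_ ?_ ?_⟩
  · show D 0 = (E 6) * 0
    rw [mul_zero]; exact x0
  · show D 1 = (E 6) * 0
    rw [mul_zero]; exact x1
  · show D 2 = (E 6) * 0
    rw [mul_zero]; exact x2
  · show D 3 = (E 6) * 0
    rw [mul_zero]; exact x3
  · show D 4 = (E 6) * 0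
    rw [mul_zero]; exact x4
  · exact kD5
  · show D 6 = (E 6) * 0
    rw [mul_zero]; exact x6
  · show D 7 = (E 6) * 0
    rw [mul_zero]; exact x7
  · show D 8 = (E 6) * 0
    rw [mul_zero]; exact x8
  · show E 0 = (E 6) * 0
    rw [mul_zero]; exact y0
  · show E 1 = (E 6) * 0
    rw [mul_zero]; exact y1
  · show E 2 = (E 6) * 0
    rw [mul_zero]; exact y2
  · show E 3 = (E 6) * 0
    rw [mul_zero]; exact y3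
  · exact kE4
  · show E 5 = (E 6) * 0
    rw [mul_zero]; exact y5
  · exact kE6
  · show E 7 = (E 6) * 0
    rw [mul_zero]; exact y7
  · show E 8 = (E 6) * 0
    rw [mul_zero]; exact y8
  · exact kG0
  · exact kG1
  · show G 2 = (E 6) * 0
    rw [mul_zero]; exact z2
  · show G 3 = (E 6) * 0
    rw [mul_zero]; exact z3
  · show G 4 = (E 6) * 0
    rw [mul_zero]; exact z4
  · show G 5 = (E 6) * 0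
    rw [mul_zero]; exact z5
  · show G 6 = (E 6) * 0
    rw [mul_zero]; exact z6
  · show G 7 = (E 6) * 0
    rw [mul_zero]; exact z7
  · show G 8 = (E 6) * 0
    rw [mul_zero]; exact z8

lemma cas_33935 (h : H9 D E G d)
    (hl : ∀ i : ℕ, i < 9 → lab D E G (i : ZMod 9) = dg 33935 i) : Con9 D E G := by
  have hk : d ≤ 5 := h.rh9 hl
  obtain ⟨a0, a1, a2, a3, a4, a5, a6, a7, a8⟩ := hl9 hl
  obtain ⟨x0, y0, z0⟩ := h.toTr.nlab3 (a0.trans rfl)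
  obtain ⟨x1, y1, z1⟩ := h.toTr.nlab3 (a1.trans rfl)
  obtain ⟨x2, y2, z2⟩ := lab0 (a2.trans rfl)
  obtain ⟨x3, y3, z3⟩ := h.toTr.nlab2 (a3.trans rfl)
  obtain ⟨x4, y4, z4⟩ := lab0 (a4.trans rfl)
  obtain ⟨x5, y5, z5⟩ := h.toTr.nlab1 (a5.trans rfl)
  obtain ⟨x6, y6, z6⟩ := lab0 (a6.trans rfl)
  obtain ⟨x7, y7, z7⟩ := h.toTr.nlab2 (a7.trans rfl)
  obtain ⟨x8, y8, z8⟩ := lab0 (a8.trans rfl)
  have sD := h.toTr.s9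
  have sE := h.toTr.rot.s9
  have sG := h.toTr.rot.rot.s9
  have pd := h.pos
  have v1 := dvd9 h.s1
  have v2 := dvd9 h.s2
  have r1 : (G 2 - D 2) + (G 4 - D 4) = (G 6 - D 6) + (G 8 - D 8) :=
    h.re 3 7 (nz9 y3) (nz9 y7) 1
  have r2 : (G 1 - D 1) + (G 5 - D 5) = (G 5 - D 5) + (G 0 - D 0) :=
    h.re 3 7 (nz9 y3) (nz9 y7) 2
  have r3 : (G 0 - D 0) + (G 6 - D 6) = (G 4 - D 4) + (G 1 - D 1) :=
    h.re 3 7 (nz9 y3) (nz9 y7) 3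
  have r4 : (G 8 - D 8) + (G 7 - D 7) = (G 3 - D 3) + (G 2 - D 2) :=
    h.re 3 7 (nz9 y3) (nz9 y7) 4
  have r5 : (D 8 - E 8) + (D 1 - E 1) = (D 0 - E 0) + (D 2 - E 2) :=
    h.rg 0 1 (nz9 z0) (nz9 z1) 1
  have r6 : (D 7 - E 7) + (D 2 - E 2) = (D 8 - E 8) + (D 3 - E 3) :=
    h.rg 0 1 (nz9 z0) (nz9 z1) 2
  have r7 : (D 6 - E 6) + (D 3 - E 3) = (D 7 - E 7) + (D 4 - E 4) :=
    h.rg 0 1 (nz9 z0) (nz9 z1) 3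
  have r8 : (D 5 - E 5) + (D 4 - E 4) = (D 6 - E 6) + (D 5 - E 5) :=
    h.rg 0 1 (nz9 z0) (nz9 z1) 4
  simp only [x0, x1, x2, x3, x4, x6, x7, x8, y0, y1, y2, y4, y5, y6, y8, z2, z3, z4, z5, z6, z7, z8, sub_zero, zero_sub, add_zero, zero_add, mul_zero, sub_self] at sD sE sG v1 v2 r1 r2 r3 r4 r5 r6 r7 r8
  clear hl a0 a1 a2 a3 a4 a5 a6 a7 a8
  have kD5 : D 5 = (E 7) * 2 := by
    clear x0 x1 x2 x3 x4 x6 x7 x8 y0 y1 y2 y4 y5 y6 y8 z2 z3 z4 z5 z6 z7 z8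
    omega
  have kE3 : E 3 = (E 7) * 1 := by
    clear x0 x1 x2 x3 x4 x6 x7 x8 y0 y1 y2 y4 y5 y6 y8 z2 z3 z4 z5 z6 z7 z8
    omega
  have kE7 : E 7 = (E 7) * 1 := by
    clear x0 x1 x2 x3 x4 x6 x7 x8 y0 y1 y2 y4 y5 y6 y8 z2 z3 z4 z5 z6 z7 z8
    omega
  have kG0 : G 0 = (E 7) * 1 := by
    clear x0 x1 x2 x3 x4 x6 x7 x8 y0 y1 y2 y4 y5 y6 y8 z2 z3 z4 z5 z6 z7 z8
    omega
  have kG1 : G 1 = (E 7) * 1 := by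
    clear x0 x1 x2 x3 x4 x6 x7 x8 y0 y1 y2 y4 y5 y6 y8 z2 z3 z4 z5 z6 z7 z8
    omega
  refine Or.inl ⟨1, 5, 1, 7, (E 7), by linarith, all9 ?_ ?_ ?_ ?_ ?_ ?_ ?_ ?_ ?_,
    all9 ?_ ?_ ?_ ?_ ?_ ?_ ?_ ?_ ?_, all9 ?_ ?_ ?_ ?_ ?_ ?_ ?_ ?_ ?_⟩
  · show D 0 = (E 7) * 0
    rw [mul_zero]; exact x0
  · show D 1 = (E 7) * 0
    rw [mul_zero]; exact x1
  · show D 2 = (E 7) * 0
    rw [mul_zero]; exact x2
  · show D 3 = (E 7) * 0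
    rw [mul_zero]; exact x3
  · show D 4 = (E 7) * 0
    rw [mul_zero]; exact x4
  · exact kD5
  · show D 6 = (E 7) * 0
    rw [mul_zero]; exact x6
  · show D 7 = (E 7) * 0
    rw [mul_zero]; exact x7
  · show D 8 = (E 7) * 0
    rw [mul_zero]; exact x8
  · show E 0 = (E 7) * 0
    rw [mul_zero]; exact y0
  · show E 1 = (E 7) * 0
    rw [mul_zero]; exact y1
  · show E 2 = (E 7) * 0
    rw [mul_zero]; exact y2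
  · exact kE3
  · show E 4 = (E 7) * 0
    rw [mul_zero]; exact y4
  · show E 5 = (E 7) * 0
    rw [mul_zero]; exact y5
  · show E 6 = (E 7) * 0
    rw [mul_zero]; exact y6
  · exact kE7
  · show E 8 = (E 7) * 0
    rw [mul_zero]; exact y8
  · exact kG0
  · exact kG1
  · show G 2 = (E 7) * 0
    rw [mul_zero]; exact z2
  · show G 3 = (E 7) * 0
    rw [mul_zero]; exact z3
  · show G 4 = (E 7) * 0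
    rw [mul_zero]; exact z4
  · show G 5 = (E 7) * 0
    rw [mul_zero]; exact z5
  · show G 6 = (E 7) * 0
    rw [mul_zero]; exact z6
  · show G 7 = (E 7) * 0
    rw [mul_zero]; exact z7
  · show G 8 = (E 7) * 0
    rw [mul_zero]; exact z8

lemma cas_37263 (h : H9 D E G d)
    (hl : ∀ i : ℕ, i < 9 → lab D E G (i : ZMod 9) = dg 37263 i) : Con9 D E G := by
  have hk : d ≤ 6 := h.rh9 hl
  obtain ⟨a0, a1, a2, a3, a4, a5, a6, a7, a8⟩ := hl9 hl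
  obtain ⟨x0, y0, z0⟩ := h.toTr.nlab3 (a0.trans rfl)
  obtain ⟨x1, y1, z1⟩ := h.toTr.nlab3 (a1.trans rfl)
  obtain ⟨x2, y2, z2⟩ := lab0 (a2.trans rfl)
  obtain ⟨x3, y3, z3⟩ := h.toTr.nlab2 (a3.trans rfl)
  obtain ⟨x4, y4, z4⟩ := h.toTr.nlab1 (a4.trans rfl)
  obtain ⟨x5, y5, z5⟩ := lab0 (a5.trans rfl)
  obtain ⟨x6, y6, z6⟩ := h.toTr.nlab1 (a6.trans rfl)
  obtain ⟨x7, y7, z7⟩ := h.toTr.nlab2 (a7.trans rfl)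
  obtain ⟨x8, y8, z8⟩ := lab0 (a8.trans rfl)
  have sD := h.toTr.s9
  have sE := h.toTr.rot.s9
  have sG := h.toTr.rot.rot.s9
  have pd := h.pos
  have v1 := dvd9 h.s1
  have v2 := dvd9 h.s2
  have r1 : (E 3 - G 3) + (E 5 - G 5) = (E 5 - G 5) + (E 7 - G 7) :=
    h.rd 4 6 (nz9 x4) (nz9 x6) 1
  have r2 : (E 2 - G 2) + (E 6 - G 6) = (E 4 - G 4) + (E 8 - G 8) :=
    h.rd 4 6 (nz9 x4) (nz9 x6) 2
  have r3 : (E 1 - G 1) + (E 7 - G 7) = (E 3 - G 3) + (E 0 - G 0) :=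
    h.rd 4 6 (nz9 x4) (nz9 x6) 3
  have r4 : (E 0 - G 0) + (E 8 - G 8) = (E 2 - G 2) + (E 1 - G 1) :=
    h.rd 4 6 (nz9 x4) (nz9 x6) 4
  have r5 : (G 2 - D 2) + (G 4 - D 4) = (G 6 - D 6) + (G 8 - D 8) :=
    h.re 3 7 (nz9 y3) (nz9 y7) 1
  have r6 : (G 1 - D 1) + (G 5 - D 5) = (G 5 - D 5) + (G 0 - D 0) :=
    h.re 3 7 (nz9 y3) (nz9 y7) 2
  have r7 : (G 0 - D 0) + (G 6 - D 6) = (G 4 - D 4) + (G 1 - D 1) :=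
    h.re 3 7 (nz9 y3) (nz9 y7) 3
  have r8 : (G 8 - D 8) + (G 7 - D 7) = (G 3 - D 3) + (G 2 - D 2) :=
    h.re 3 7 (nz9 y3) (nz9 y7) 4
  have r9 : (D 8 - E 8) + (D 1 - E 1) = (D 0 - E 0) + (D 2 - E 2) :=
    h.rg 0 1 (nz9 z0) (nz9 z1) 1
  have r10 : (D 7 - E 7) + (D 2 - E 2) = (D 8 - E 8) + (D 3 - E 3) :=
    h.rg 0 1 (nz9 z0) (nz9 z1) 2
  have r11 : (D 6 - E 6) + (D 3 - E 3) = (D 7 - E 7) + (D 4 - E 4) :=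
    h.rg 0 1 (nz9 z0) (nz9 z1) 3
  have r12 : (D 5 - E 5) + (D 4 - E 4) = (D 6 - E 6) + (D 5 - E 5) :=
    h.rg 0 1 (nz9 z0) (nz9 z1) 4
  simp only [x0, x1, x2, x3, x5, x7, x8, y0, y1, y2, y4, y5, y6, y8, z2, z3, z4, z5, z6, z7, z8, sub_zero, zero_sub, add_zero, zero_add, mul_zero, sub_self] at sD sE sG v1 v2 r1 r2 r3 r4 r5 r6 r7 r8 r9 r10 r11 r12
  clear hl a0 a1 a2 a3 a4 a5 a6 a7 a8
  have kD4 : D 4 = (D 6) * 1 := by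
    clear x0 x1 x2 x3 x5 x7 x8 y0 y1 y2 y4 y5 y6 y8 z2 z3 z4 z5 z6 z7 z8
    omega
  have kD6 : D 6 = (D 6) * 1 := by
    clear x0 x1 x2 x3 x5 x7 x8 y0 y1 y2 y4 y5 y6 y8 z2 z3 z4 z5 z6 z7 z8
    omega
  have kE3 : E 3 = (D 6) * 1 := by
    clear x0 x1 x2 x3 x5 x7 x8 y0 y1 y2 y4 y5 y6 y8 z2 z3 z4 z5 z6 z7 z8
    omega
  have kE7 : E 7 = (D 6) * 1 := by
    clear x0 x1 x2 x3 x5 x7 x8 y0 y1 y2 y4 y5 y6 y8 z2 z3 z4 z5 z6 z7 z8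
    omega
  have kG0 : G 0 = (D 6) * 1 := by
    clear x0 x1 x2 x3 x5 x7 x8 y0 y1 y2 y4 y5 y6 y8 z2 z3 z4 z5 z6 z7 z8
    omega
  have kG1 : G 1 = (D 6) * 1 := by
    clear x0 x1 x2 x3 x5 x7 x8 y0 y1 y2 y4 y5 y6 y8 z2 z3 z4 z5 z6 z7 z8
    omega
  refine Or.inl ⟨1, 6, 1, 7, (D 6), by linarith, all9 ?_ ?_ ?_ ?_ ?_ ?_ ?_ ?_ ?_,
    all9 ?_ ?_ ?_ ?_ ?_ ?_ ?_ ?_ ?_, all9 ?_ ?_ ?_ ?_ ?_ ?_ ?_ ?_ ?_⟩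
  · show D 0 = (D 6) * 0
    rw [mul_zero]; exact x0
  · show D 1 = (D 6) * 0
    rw [mul_zero]; exact x1
  · show D 2 = (D 6) * 0
    rw [mul_zero]; exact x2
  · show D 3 = (D 6) * 0
    rw [mul_zero]; exact x3
  · exact kD4
  · show D 5 = (D 6) * 0
    rw [mul_zero]; exact x5
  · exact kD6
  · show D 7 = (D 6) * 0
    rw [mul_zero]; exact x7
  · show D 8 = (D 6) * 0
    rw [mul_zero]; exact x8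
  · show E 0 = (D 6) * 0
    rw [mul_zero]; exact y0
  · show E 1 = (D 6) * 0
    rw [mul_zero]; exact y1
  · show E 2 = (D 6) * 0
    rw [mul_zero]; exact y2
  · exact kE3
  · show E 4 = (D 6) * 0
    rw [mul_zero]; exact y4
  · show E 5 = (D 6) * 0
    rw [mul_zero]; exact y5
  · show E 6 = (D 6) * 0
    rw [mul_zero]; exact y6
  · exact kE7
  · show E 8 = (D 6) * 0
    rw [mul_zero]; exact y8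
  · exact kG0
  · exact kG1
  · show G 2 = (D 6) * 0
    rw [mul_zero]; exact z2
  · show G 3 = (D 6) * 0
    rw [mul_zero]; exact z3
  · show G 4 = (D 6) * 0
    rw [mul_zero]; exact z4
  · show G 5 = (D 6) * 0
    rw [mul_zero]; exact z5
  · show G 6 = (D 6) * 0
    rw [mul_zero]; exact z6
  · show G 7 = (D 6) * 0
    rw [mul_zero]; exact z7
  · show G 8 = (D 6) * 0
    rw [mul_zero]; exact z8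

lemma cas_132143 (h : H9 D E G d)
    (hl : ∀ i : ℕ, i < 9 → lab D E G (i : ZMod 9) = dg 132143 i) : Con9 D E G := by
  have hk : d ≤ 5 := h.rh9 hl
  obtain ⟨a0, a1, a2, a3, a4, a5, a6, a7, a8⟩ := hl9 hl
  obtain ⟨x0, y0, z0⟩ := h.toTr.nlab3 (a0.trans rfl)
  obtain ⟨x1, y1, z1⟩ := h.toTr.nlab3 (a1.trans rfl)
  obtain ⟨x2, y2, z2⟩ := h.toTr.nlab2 (a2.trans rfl)
  obtain ⟨x3, y3, z3⟩ := lab0 (a3.trans rfl)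
  obtain ⟨x4, y4, z4⟩ := lab0 (a4.trans rfl)
  obtain ⟨x5, y5, z5⟩ := h.toTr.nlab1 (a5.trans rfl)
  obtain ⟨x6, y6, z6⟩ := lab0 (a6.trans rfl)
  obtain ⟨x7, y7, z7⟩ := lab0 (a7.trans rfl)
  obtain ⟨x8, y8, z8⟩ := h.toTr.nlab2 (a8.trans rfl)
  have sD := h.toTr.s9
  have sE := h.toTr.rot.s9
  have sG := h.toTr.rot.rot.s9
  have pd := h.pos
  have v1 := dvd9 h.s1
  have v2 := dvd9 h.s2
  have r1 : (G 1 - D 1) + (G 3 - D 3) = (G 7 - D 7) + (G 0 - D 0) :=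
    h.re 2 8 (nz9 y2) (nz9 y8) 1
  have r2 : (G 0 - D 0) + (G 4 - D 4) = (G 6 - D 6) + (G 1 - D 1) :=
    h.re 2 8 (nz9 y2) (nz9 y8) 2
  have r3 : (G 8 - D 8) + (G 5 - D 5) = (G 5 - D 5) + (G 2 - D 2) :=
    h.re 2 8 (nz9 y2) (nz9 y8) 3
  have r4 : (G 7 - D 7) + (G 6 - D 6) = (G 4 - D 4) + (G 3 - D 3) :=
    h.re 2 8 (nz9 y2) (nz9 y8) 4
  have r5 : (D 8 - E 8) + (D 1 - E 1) = (D 0 - E 0) + (D 2 - E 2) :=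
    h.rg 0 1 (nz9 z0) (nz9 z1) 1
  have r6 : (D 7 - E 7) + (D 2 - E 2) = (D 8 - E 8) + (D 3 - E 3) :=
    h.rg 0 1 (nz9 z0) (nz9 z1) 2
  have r7 : (D 6 - E 6) + (D 3 - E 3) = (D 7 - E 7) + (D 4 - E 4) :=
    h.rg 0 1 (nz9 z0) (nz9 z1) 3
  have r8 : (D 5 - E 5) + (D 4 - E 4) = (D 6 - E 6) + (D 5 - E 5) :=
    h.rg 0 1 (nz9 z0) (nz9 z1) 4
  simp only [x0, x1, x2, x3, x4, x6, x7, x8, y0, y1, y3, y4, y5, y6, y7, z2, z3, z4, z5, z6, z7, z8, sub_zero, zero_sub, add_zero, zero_add, mul_zero, sub_self] at sD sE sG v1 v2 r1 r2 r3 r4 r5 r6 r7 r8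
  clear hl a0 a1 a2 a3 a4 a5 a6 a7 a8
  have kD5 : D 5 = (E 8) * 2 := by
    clear x0 x1 x2 x3 x4 x6 x7 x8 y0 y1 y3 y4 y5 y6 y7 z2 z3 z4 z5 z6 z7 z8
    omega
  have kE2 : E 2 = (E 8) * 1 := by
    clear x0 x1 x2 x3 x4 x6 x7 x8 y0 y1 y3 y4 y5 y6 y7 z2 z3 z4 z5 z6 z7 z8
    omega
  have kE8 : E 8 = (E 8) * 1 := by
    clear x0 x1 x2 x3 x4 x6 x7 x8 y0 y1 y3 y4 y5 y6 y7 z2 z3 z4 z5 z6 z7 z8
    omega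
  have kG0 : G 0 = (E 8) * 1 := by
    clear x0 x1 x2 x3 x4 x6 x7 x8 y0 y1 y3 y4 y5 y6 y7 z2 z3 z4 z5 z6 z7 z8
    omega
  have kG1 : G 1 = (E 8) * 1 := by
    clear x0 x1 x2 x3 x4 x6 x7 x8 y0 y1 y3 y4 y5 y6 y7 z2 z3 z4 z5 z6 z7 z8
    omega
  refine Or.inl ⟨1, 5, 1, 8, (E 8), by linarith, all9 ?_ ?_ ?_ ?_ ?_ ?_ ?_ ?_ ?_,
    all9 ?_ ?_ ?_ ?_ ?_ ?_ ?_ ?_ ?_, all9 ?_ ?_ ?_ ?_ ?_ ?_ ?_ ?_ ?_⟩
  · show D 0 = (E 8) * 0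
    rw [mul_zero]; exact x0
  · show D 1 = (E 8) * 0
    rw [mul_zero]; exact x1
  · show D 2 = (E 8) * 0
    rw [mul_zero]; exact x2
  · show D 3 = (E 8) * 0
    rw [mul_zero]; exact x3
  · show D 4 = (E 8) * 0
    rw [mul_zero]; exact x4
  · exact kD5
  · show D 6 = (E 8) * 0
    rw [mul_zero]; exact x6
  · show D 7 = (E 8) * 0
    rw [mul_zero]; exact x7
  · show D 8 = (E 8) * 0
    rw [mul_zero]; exact x8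
  · show E 0 = (E 8) * 0
    rw [mul_zero]; exact y0
  · show E 1 = (E 8) * 0
    rw [mul_zero]; exact y1
  · exact kE2
  · show E 3 = (E 8) * 0
    rw [mul_zero]; exact y3
  · show E 4 = (E 8) * 0
    rw [mul_zero]; exact y4
  · show E 5 = (E 8) * 0
    rw [mul_zero]; exact y5
  · show E 6 = (E 8) * 0
    rw [mul_zero]; exact y6
  · show E 7 = (E 8) * 0
    rw [mul_zero]; exact y7
  · exact kE8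
  · exact kG0
  · exact kG1
  · show G 2 = (E 8) * 0
    rw [mul_zero]; exact z2
  · show G 3 = (E 8) * 0
    rw [mul_zero]; exact z3
  · show G 4 = (E 8) * 0
    rw [mul_zero]; exact z4
  · show G 5 = (E 8) * 0
    rw [mul_zero]; exact z5
  · show G 6 = (E 8) * 0
    rw [mul_zero]; exact z6
  · show G 7 = (E 8) * 0
    rw [mul_zero]; exact z7
  · show G 8 = (E 8) * 0
    rw [mul_zero]; exact z8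

lemma cas_135471 (h : H9 D E G d)
    (hl : ∀ i : ℕ, i < 9 → lab D E G (i : ZMod 9) = dg 135471 i) : Con9 D E G := by
  have hk : d ≤ 6 := h.rh9 hl
  obtain ⟨a0, a1, a2, a3, a4, a5, a6, a7, a8⟩ := hl9 hl
  obtain ⟨x0, y0, z0⟩ := h.toTr.nlab3 (a0.trans rfl)
  obtain ⟨x1, y1, z1⟩ := h.toTr.nlab3 (a1.trans rfl)
  obtain ⟨x2, y2, z2⟩ := h.toTr.nlab2 (a2.trans rfl)
  obtain ⟨x3, y3, z3⟩ := lab0 (a3.trans rfl)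
  obtain ⟨x4, y4, z4⟩ := h.toTr.nlab1 (a4.trans rfl)
  obtain ⟨x5, y5, z5⟩ := lab0 (a5.trans rfl)
  obtain ⟨x6, y6, z6⟩ := h.toTr.nlab1 (a6.trans rfl)
  obtain ⟨x7, y7, z7⟩ := lab0 (a7.trans rfl)
  obtain ⟨x8, y8, z8⟩ := h.toTr.nlab2 (a8.trans rfl)
  have sD := h.toTr.s9
  have sE := h.toTr.rot.s9
  have sG := h.toTr.rot.rot.s9
  have pd := h.pos
  have v1 := dvd9 h.s1
  have v2 := dvd9 h.s2
  have r1 : (E 3 - G 3) + (E 5 - G 5) = (E 5 - G 5) + (E 7 - G 7) :=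
    h.rd 4 6 (nz9 x4) (nz9 x6) 1
  have r2 : (E 2 - G 2) + (E 6 - G 6) = (E 4 - G 4) + (E 8 - G 8) :=
    h.rd 4 6 (nz9 x4) (nz9 x6) 2
  have r3 : (E 1 - G 1) + (E 7 - G 7) = (E 3 - G 3) + (E 0 - G 0) :=
    h.rd 4 6 (nz9 x4) (nz9 x6) 3
  have r4 : (E 0 - G 0) + (E 8 - G 8) = (E 2 - G 2) + (E 1 - G 1) :=
    h.rd 4 6 (nz9 x4) (nz9 x6) 4
  have r5 : (G 1 - D 1) + (G 3 - D 3) = (G 7 - D 7) + (G 0 - D 0) :=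
    h.re 2 8 (nz9 y2) (nz9 y8) 1
  have r6 : (G 0 - D 0) + (G 4 - D 4) = (G 6 - D 6) + (G 1 - D 1) :=
    h.re 2 8 (nz9 y2) (nz9 y8) 2
  have r7 : (G 8 - D 8) + (G 5 - D 5) = (G 5 - D 5) + (G 2 - D 2) :=
    h.re 2 8 (nz9 y2) (nz9 y8) 3
  have r8 : (G 7 - D 7) + (G 6 - D 6) = (G 4 - D 4) + (G 3 - D 3) :=
    h.re 2 8 (nz9 y2) (nz9 y8) 4
  have r9 : (D 8 - E 8) + (D 1 - E 1) = (D 0 - E 0) + (D 2 - E 2) :=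
    h.rg 0 1 (nz9 z0) (nz9 z1) 1
  have r10 : (D 7 - E 7) + (D 2 - E 2) = (D 8 - E 8) + (D 3 - E 3) :=
    h.rg 0 1 (nz9 z0) (nz9 z1) 2
  have r11 : (D 6 - E 6) + (D 3 - E 3) = (D 7 - E 7) + (D 4 - E 4) :=
    h.rg 0 1 (nz9 z0) (nz9 z1) 3
  have r12 : (D 5 - E 5) + (D 4 - E 4) = (D 6 - E 6) + (D 5 - E 5) :=
    h.rg 0 1 (nz9 z0) (nz9 z1) 4
  simp only [x0, x1, x2, x3, x5, x7, x8, y0, y1, y3, y4, y5, y6, y7, z2, z3, z4, z5, z6, z7, z8, sub_zero, zero_sub, add_zero, zero_add, mul_zero, sub_self] at sD sE sG v1 v2 r1 r2 r3 r4 r5 r6 r7 r8 r9 r10 r11 r12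
  clear hl a0 a1 a2 a3 a4 a5 a6 a7 a8
  have kD4 : D 4 = (D 6) * 1 := by
    clear x0 x1 x2 x3 x5 x7 x8 y0 y1 y3 y4 y5 y6 y7 z2 z3 z4 z5 z6 z7 z8
    omega
  have kD6 : D 6 = (D 6) * 1 := by
    clear x0 x1 x2 x3 x5 x7 x8 y0 y1 y3 y4 y5 y6 y7 z2 z3 z4 z5 z6 z7 z8
    omega
  have kE2 : E 2 = (D 6) * 1 := by
    clear x0 x1 x2 x3 x5 x7 x8 y0 y1 y3 y4 y5 y6 y7 z2 z3 z4 z5 z6 z7 z8
    omega
  have kE8 : E 8 = (D 6) * 1 := by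
    clear x0 x1 x2 x3 x5 x7 x8 y0 y1 y3 y4 y5 y6 y7 z2 z3 z4 z5 z6 z7 z8
    omega
  have kG0 : G 0 = (D 6) * 1 := by
    clear x0 x1 x2 x3 x5 x7 x8 y0 y1 y3 y4 y5 y6 y7 z2 z3 z4 z5 z6 z7 z8
    omega
  have kG1 : G 1 = (D 6) * 1 := by
    clear x0 x1 x2 x3 x5 x7 x8 y0 y1 y3 y4 y5 y6 y7 z2 z3 z4 z5 z6 z7 z8
    omega
  refine Or.inl ⟨1, 6, 1, 8, (D 6), by linarith, all9 ?_ ?_ ?_ ?_ ?_ ?_ ?_ ?_ ?_,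
    all9 ?_ ?_ ?_ ?_ ?_ ?_ ?_ ?_ ?_, all9 ?_ ?_ ?_ ?_ ?_ ?_ ?_ ?_ ?_⟩
  · show D 0 = (D 6) * 0
    rw [mul_zero]; exact x0
  · show D 1 = (D 6) * 0
    rw [mul_zero]; exact x1
  · show D 2 = (D 6) * 0
    rw [mul_zero]; exact x2
  · show D 3 = (D 6) * 0
    rw [mul_zero]; exact x3
  · exact kD4
  · show D 5 = (D 6) * 0
    rw [mul_zero]; exact x5
  · exact kD6
  · show D 7 = (D 6) * 0
    rw [mul_zero]; exact x7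
  · show D 8 = (D 6) * 0
    rw [mul_zero]; exact x8
  · show E 0 = (D 6) * 0
    rw [mul_zero]; exact y0
  · show E 1 = (D 6) * 0
    rw [mul_zero]; exact y1
  · exact kE2
  · show E 3 = (D 6) * 0
    rw [mul_zero]; exact y3
  · show E 4 = (D 6) * 0
    rw [mul_zero]; exact y4
  · show E 5 = (D 6) * 0
    rw [mul_zero]; exact y5
  · show E 6 = (D 6) * 0
    rw [mul_zero]; exact y6
  · show E 7 = (D 6) * 0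
    rw [mul_zero]; exact y7
  · exact kE8
  · exact kG0
  · exact kG1
  · show G 2 = (D 6) * 0
    rw [mul_zero]; exact z2
  · show G 3 = (D 6) * 0
    rw [mul_zero]; exact z3
  · show G 4 = (D 6) * 0
    rw [mul_zero]; exact z4
  · show G 5 = (D 6) * 0
    rw [mul_zero]; exact z5
  · show G 6 = (D 6) * 0
    rw [mul_zero]; exact z6
  · show G 7 = (D 6) * 0
    rw [mul_zero]; exact z7
  · show G 8 = (D 6) * 0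
    rw [mul_zero]; exact z8

lemma cas_137519 (h : H9 D E G d)
    (hl : ∀ i : ℕ, i < 9 → lab D E G (i : ZMod 9) = dg 137519 i) : Con9 D E G := by
  have hk : d ≤ 7 := h.rh9 hl
  obtain ⟨a0, a1, a2, a3, a4, a5, a6, a7, a8⟩ := hl9 hl
  obtain ⟨x0, y0, z0⟩ := h.toTr.nlab3 (a0.trans rfl)
  obtain ⟨x1, y1, z1⟩ := h.toTr.nlab3 (a1.trans rfl)
  obtain ⟨x2, y2, z2⟩ := h.toTr.nlab2 (a2.trans rfl)
  obtain ⟨x3, y3, z3⟩ := lab0 (a3.trans rfl)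
  obtain ⟨x4, y4, z4⟩ := h.toTr.nlab1 (a4.trans rfl)
  obtain ⟨x5, y5, z5⟩ := h.toTr.nlab2 (a5.trans rfl)
  obtain ⟨x6, y6, z6⟩ := h.toTr.nlab1 (a6.trans rfl)
  obtain ⟨x7, y7, z7⟩ := lab0 (a7.trans rfl)
  obtain ⟨x8, y8, z8⟩ := h.toTr.nlab2 (a8.trans rfl)
  have sD := h.toTr.s9
  have sE := h.toTr.rot.s9
  have sG := h.toTr.rot.rot.s9
  have pd := h.pos
  have v1 := dvd9 h.s1
  have v2 := dvd9 h.s2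
  have r1 : (E 3 - G 3) + (E 5 - G 5) = (E 5 - G 5) + (E 7 - G 7) :=
    h.rd 4 6 (nz9 x4) (nz9 x6) 1
  have r2 : (E 2 - G 2) + (E 6 - G 6) = (E 4 - G 4) + (E 8 - G 8) :=
    h.rd 4 6 (nz9 x4) (nz9 x6) 2
  have r3 : (E 1 - G 1) + (E 7 - G 7) = (E 3 - G 3) + (E 0 - G 0) :=
    h.rd 4 6 (nz9 x4) (nz9 x6) 3
  have r4 : (E 0 - G 0) + (E 8 - G 8) = (E 2 - G 2) + (E 1 - G 1) :=
    h.rd 4 6 (nz9 x4) (nz9 x6) 4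
  have r5 : (G 1 - D 1) + (G 3 - D 3) = (G 4 - D 4) + (G 6 - D 6) :=
    h.re 2 5 (nz9 y2) (nz9 y5) 1
  have r6 : (G 0 - D 0) + (G 4 - D 4) = (G 3 - D 3) + (G 7 - D 7) :=
    h.re 2 5 (nz9 y2) (nz9 y5) 2
  have r7 : (G 8 - D 8) + (G 5 - D 5) = (G 2 - D 2) + (G 8 - D 8) :=
    h.re 2 5 (nz9 y2) (nz9 y5) 3
  have r8 : (G 7 - D 7) + (G 6 - D 6) = (G 1 - D 1) + (G 0 - D 0) :=
    h.re 2 5 (nz9 y2) (nz9 y5) 4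
  have r9 : (G 1 - D 1) + (G 3 - D 3) = (G 7 - D 7) + (G 0 - D 0) :=
    h.re 2 8 (nz9 y2) (nz9 y8) 1
  have r10 : (G 0 - D 0) + (G 4 - D 4) = (G 6 - D 6) + (G 1 - D 1) :=
    h.re 2 8 (nz9 y2) (nz9 y8) 2
  have r11 : (G 8 - D 8) + (G 5 - D 5) = (G 5 - D 5) + (G 2 - D 2) :=
    h.re 2 8 (nz9 y2) (nz9 y8) 3
  have r12 : (G 7 - D 7) + (G 6 - D 6) = (G 4 - D 4) + (G 3 - D 3) :=
    h.re 2 8 (nz9 y2) (nz9 y8) 4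
  have r13 : (D 8 - E 8) + (D 1 - E 1) = (D 0 - E 0) + (D 2 - E 2) :=
    h.rg 0 1 (nz9 z0) (nz9 z1) 1
  have r14 : (D 7 - E 7) + (D 2 - E 2) = (D 8 - E 8) + (D 3 - E 3) :=
    h.rg 0 1 (nz9 z0) (nz9 z1) 2
  have r15 : (D 6 - E 6) + (D 3 - E 3) = (D 7 - E 7) + (D 4 - E 4) :=
    h.rg 0 1 (nz9 z0) (nz9 z1) 3
  have r16 : (D 5 - E 5) + (D 4 - E 4) = (D 6 - E 6) + (D 5 - E 5) :=
    h.rg 0 1 (nz9 z0) (nz9 z1) 4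
  simp only [x0, x1, x2, x3, x5, x7, x8, y0, y1, y3, y4, y6, y7, z2, z3, z4, z5, z6, z7, z8, sub_zero, zero_sub, add_zero, zero_add, mul_zero, sub_self] at sD sE sG v1 v2 r1 r2 r3 r4 r5 r6 r7 r8 r9 r10 r11 r12 r13 r14 r15 r16
  clear hl a0 a1 a2 a3 a4 a5 a6 a7 a8
  clear x0 x1 x2 x3 x5 x7 x8 y0 y1 y3 y4 y6 y7 z2 z3 z4 z5 z6 z7 z8
  exfalso
  omega

lemma cas_147567 (h : H9 D E G d)
    (hl : ∀ i : ℕ, i < 9 → lab D E G (i : ZMod 9) = dg 147567 i) : Con9 D E G := by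
  have hk : d ≤ 6 := h.rh9 hl
  obtain ⟨a0, a1, a2, a3, a4, a5, a6, a7, a8⟩ := hl9 hl
  obtain ⟨x0, y0, z0⟩ := h.toTr.nlab3 (a0.trans rfl)
  obtain ⟨x1, y1, z1⟩ := h.toTr.nlab3 (a1.trans rfl)
  obtain ⟨x2, y2, z2⟩ := h.toTr.nlab2 (a2.trans rfl)
  obtain ⟨x3, y3, z3⟩ := h.toTr.nlab1 (a3.trans rfl)
  obtain ⟨x4, y4, z4⟩ := lab0 (a4.trans rfl)
  obtain ⟨x5, y5, z5⟩ := lab0 (a5.trans rfl)
  obtain ⟨x6, y6, z6⟩ := lab0 (a6.trans rfl)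
  obtain ⟨x7, y7, z7⟩ := h.toTr.nlab1 (a7.trans rfl)
  obtain ⟨x8, y8, z8⟩ := h.toTr.nlab2 (a8.trans rfl)
  have sD := h.toTr.s9
  have sE := h.toTr.rot.s9
  have sG := h.toTr.rot.rot.s9
  have pd := h.pos
  have v1 := dvd9 h.s1
  have v2 := dvd9 h.s2
  have r1 : (E 2 - G 2) + (E 4 - G 4) = (E 6 - G 6) + (E 8 - G 8) :=
    h.rd 3 7 (nz9 x3) (nz9 x7) 1
  have r2 : (E 1 - G 1) + (E 5 - G 5) = (E 5 - G 5) + (E 0 - G 0) :=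
    h.rd 3 7 (nz9 x3) (nz9 x7) 2
  have r3 : (E 0 - G 0) + (E 6 - G 6) = (E 4 - G 4) + (E 1 - G 1) :=
    h.rd 3 7 (nz9 x3) (nz9 x7) 3
  have r4 : (E 8 - G 8) + (E 7 - G 7) = (E 3 - G 3) + (E 2 - G 2) :=
    h.rd 3 7 (nz9 x3) (nz9 x7) 4
  have r5 : (G 1 - D 1) + (G 3 - D 3) = (G 7 - D 7) + (G 0 - D 0) :=
    h.re 2 8 (nz9 y2) (nz9 y8) 1
  have r6 : (G 0 - D 0) + (G 4 - D 4) = (G 6 - D 6) + (G 1 - D 1) :=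
    h.re 2 8 (nz9 y2) (nz9 y8) 2
  have r7 : (G 8 - D 8) + (G 5 - D 5) = (G 5 - D 5) + (G 2 - D 2) :=
    h.re 2 8 (nz9 y2) (nz9 y8) 3
  have r8 : (G 7 - D 7) + (G 6 - D 6) = (G 4 - D 4) + (G 3 - D 3) :=
    h.re 2 8 (nz9 y2) (nz9 y8) 4
  have r9 : (D 8 - E 8) + (D 1 - E 1) = (D 0 - E 0) + (D 2 - E 2) :=
    h.rg 0 1 (nz9 z0) (nz9 z1) 1
  have r10 : (D 7 - E 7) + (D 2 - E 2) = (D 8 - E 8) + (D 3 - E 3) :=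
    h.rg 0 1 (nz9 z0) (nz9 z1) 2
  have r11 : (D 6 - E 6) + (D 3 - E 3) = (D 7 - E 7) + (D 4 - E 4) :=
    h.rg 0 1 (nz9 z0) (nz9 z1) 3
  have r12 : (D 5 - E 5) + (D 4 - E 4) = (D 6 - E 6) + (D 5 - E 5) :=
    h.rg 0 1 (nz9 z0) (nz9 z1) 4
  simp only [x0, x1, x2, x4, x5, x6, x8, y0, y1, y3, y4, y5, y6, y7, z2, z3, z4, z5, z6, z7, z8, sub_zero, zero_sub, add_zero, zero_add, mul_zero, sub_self] at sD sE sG v1 v2 r1 r2 r3 r4 r5 r6 r7 r8 r9 r10 r11 r12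
  clear hl a0 a1 a2 a3 a4 a5 a6 a7 a8
  have kD3 : D 3 = (D 7) * 1 := by
    clear x0 x1 x2 x4 x5 x6 x8 y0 y1 y3 y4 y5 y6 y7 z2 z3 z4 z5 z6 z7 z8
    omega
  have kD7 : D 7 = (D 7) * 1 := by
    clear x0 x1 x2 x4 x5 x6 x8 y0 y1 y3 y4 y5 y6 y7 z2 z3 z4 z5 z6 z7 z8
    omega
  have kE2 : E 2 = (D 7) * 1 := by
    clear x0 x1 x2 x4 x5 x6 x8 y0 y1 y3 y4 y5 y6 y7 z2 z3 z4 z5 z6 z7 z8
    omega
  have kE8 : E 8 = (D 7) * 1 := by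
    clear x0 x1 x2 x4 x5 x6 x8 y0 y1 y3 y4 y5 y6 y7 z2 z3 z4 z5 z6 z7 z8
    omega
  have kG0 : G 0 = (D 7) * 1 := by
    clear x0 x1 x2 x4 x5 x6 x8 y0 y1 y3 y4 y5 y6 y7 z2 z3 z4 z5 z6 z7 z8
    omega
  have kG1 : G 1 = (D 7) * 1 := by
    clear x0 x1 x2 x4 x5 x6 x8 y0 y1 y3 y4 y5 y6 y7 z2 z3 z4 z5 z6 z7 z8
    omega
  refine Or.inl ⟨1, 7, 1, 8, (D 7), by linarith, all9 ?_ ?_ ?_ ?_ ?_ ?_ ?_ ?_ ?_,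
    all9 ?_ ?_ ?_ ?_ ?_ ?_ ?_ ?_ ?_, all9 ?_ ?_ ?_ ?_ ?_ ?_ ?_ ?_ ?_⟩
  · show D 0 = (D 7) * 0
    rw [mul_zero]; exact x0
  · show D 1 = (D 7) * 0
    rw [mul_zero]; exact x1
  · show D 2 = (D 7) * 0
    rw [mul_zero]; exact x2
  · exact kD3
  · show D 4 = (D 7) * 0
    rw [mul_zero]; exact x4
  · show D 5 = (D 7) * 0
    rw [mul_zero]; exact x5
  · show D 6 = (D 7) * 0
    rw [mul_zero]; exact x6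
  · exact kD7
  · show D 8 = (D 7) * 0
    rw [mul_zero]; exact x8
  · show E 0 = (D 7) * 0
    rw [mul_zero]; exact y0
  · show E 1 = (D 7) * 0
    rw [mul_zero]; exact y1
  · exact kE2
  · show E 3 = (D 7) * 0
    rw [mul_zero]; exact y3
  · show E 4 = (D 7) * 0
    rw [mul_zero]; exact y4
  · show E 5 = (D 7) * 0
    rw [mul_zero]; exact y5
  · show E 6 = (D 7) * 0
    rw [mul_zero]; exact y6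
  · show E 7 = (D 7) * 0
    rw [mul_zero]; exact y7
  · exact kE8
  · exact kG0
  · exact kG1
  · show G 2 = (D 7) * 0
    rw [mul_zero]; exact z2
  · show G 3 = (D 7) * 0
    rw [mul_zero]; exact z3
  · show G 4 = (D 7) * 0
    rw [mul_zero]; exact z4
  · show G 5 = (D 7) * 0
    rw [mul_zero]; exact z5
  · show G 6 = (D 7) * 0
    rw [mul_zero]; exact z6
  · show G 7 = (D 7) * 0
    rw [mul_zero]; exact z7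
  · show G 8 = (D 7) * 0
    rw [mul_zero]; exact z8

lemma cas_149615 (h : H9 D E G d)
    (hl : ∀ i : ℕ, i < 9 → lab D E G (i : ZMod 9) = dg 149615 i) : Con9 D E G := by
  have hk : d ≤ 7 := h.rh9 hl
  obtain ⟨a0, a1, a2, a3, a4, a5, a6, a7, a8⟩ := hl9 hl
  obtain ⟨x0, y0, z0⟩ := h.toTr.nlab3 (a0.trans rfl)
  obtain ⟨x1, y1, z1⟩ := h.toTr.nlab3 (a1.trans rfl)
  obtain ⟨x2, y2, z2⟩ := h.toTr.nlab2 (a2.trans rfl)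
  obtain ⟨x3, y3, z3⟩ := h.toTr.nlab1 (a3.trans rfl)
  obtain ⟨x4, y4, z4⟩ := lab0 (a4.trans rfl)
  obtain ⟨x5, y5, z5⟩ := h.toTr.nlab2 (a5.trans rfl)
  obtain ⟨x6, y6, z6⟩ := lab0 (a6.trans rfl)
  obtain ⟨x7, y7, z7⟩ := h.toTr.nlab1 (a7.trans rfl)
  obtain ⟨x8, y8, z8⟩ := h.toTr.nlab2 (a8.trans rfl)
  have sD := h.toTr.s9
  have sE := h.toTr.rot.s9
  have sG := h.toTr.rot.rot.s9
  have pd := h.pos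
  have v1 := dvd9 h.s1
  have v2 := dvd9 h.s2
  have r1 : (E 2 - G 2) + (E 4 - G 4) = (E 6 - G 6) + (E 8 - G 8) :=
    h.rd 3 7 (nz9 x3) (nz9 x7) 1
  have r2 : (E 1 - G 1) + (E 5 - G 5) = (E 5 - G 5) + (E 0 - G 0) :=
    h.rd 3 7 (nz9 x3) (nz9 x7) 2
  have r3 : (E 0 - G 0) + (E 6 - G 6) = (E 4 - G 4) + (E 1 - G 1) :=
    h.rd 3 7 (nz9 x3) (nz9 x7) 3
  have r4 : (E 8 - G 8) + (E 7 - G 7) = (E 3 - G 3) + (E 2 - G 2) :=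
    h.rd 3 7 (nz9 x3) (nz9 x7) 4
  have r5 : (G 1 - D 1) + (G 3 - D 3) = (G 4 - D 4) + (G 6 - D 6) :=
    h.re 2 5 (nz9 y2) (nz9 y5) 1
  have r6 : (G 0 - D 0) + (G 4 - D 4) = (G 3 - D 3) + (G 7 - D 7) :=
    h.re 2 5 (nz9 y2) (nz9 y5) 2
  have r7 : (G 8 - D 8) + (G 5 - D 5) = (G 2 - D 2) + (G 8 - D 8) :=
    h.re 2 5 (nz9 y2) (nz9 y5) 3
  have r8 : (G 7 - D 7) + (G 6 - D 6) = (G 1 - D 1) + (G 0 - D 0) :=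
    h.re 2 5 (nz9 y2) (nz9 y5) 4
  have r9 : (G 1 - D 1) + (G 3 - D 3) = (G 7 - D 7) + (G 0 - D 0) :=
    h.re 2 8 (nz9 y2) (nz9 y8) 1
  have r10 : (G 0 - D 0) + (G 4 - D 4) = (G 6 - D 6) + (G 1 - D 1) :=
    h.re 2 8 (nz9 y2) (nz9 y8) 2
  have r11 : (G 8 - D 8) + (G 5 - D 5) = (G 5 - D 5) + (G 2 - D 2) :=
    h.re 2 8 (nz9 y2) (nz9 y8) 3
  have r12 : (G 7 - D 7) + (G 6 - D 6) = (G 4 - D 4) + (G 3 - D 3) :=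
    h.re 2 8 (nz9 y2) (nz9 y8) 4
  have r13 : (D 8 - E 8) + (D 1 - E 1) = (D 0 - E 0) + (D 2 - E 2) :=
    h.rg 0 1 (nz9 z0) (nz9 z1) 1
  have r14 : (D 7 - E 7) + (D 2 - E 2) = (D 8 - E 8) + (D 3 - E 3) :=
    h.rg 0 1 (nz9 z0) (nz9 z1) 2
  have r15 : (D 6 - E 6) + (D 3 - E 3) = (D 7 - E 7) + (D 4 - E 4) :=
    h.rg 0 1 (nz9 z0) (nz9 z1) 3
  have r16 : (D 5 - E 5) + (D 4 - E 4) = (D 6 - E 6) + (D 5 - E 5) :=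
    h.rg 0 1 (nz9 z0) (nz9 z1) 4
  simp only [x0, x1, x2, x4, x5, x6, x8, y0, y1, y3, y4, y6, y7, z2, z3, z4, z5, z6, z7, z8, sub_zero, zero_sub, add_zero, zero_add, mul_zero, sub_self] at sD sE sG v1 v2 r1 r2 r3 r4 r5 r6 r7 r8 r9 r10 r11 r12 r13 r14 r15 r16
  clear hl a0 a1 a2 a3 a4 a5 a6 a7 a8
  clear x0 x1 x2 x4 x5 x6 x8 y0 y1 y3 y4 y6 y7 z2 z3 z4 z5 z6 z7 z8
  exfalso
  omega

lemma H9.normal (h : H9 D E G d) (c : ℕ) (hc : c ∈ can)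
    (hl : ∀ i : ℕ, i < 9 → lab D E G (i : ZMod 9) = dg c i) : Con9 D E G := by
  unfold can at hc
  simp only [List.mem_cons, List.not_mem_nil, or_false] at hc
  rcases hc with rfl | rfl | rfl | rfl | rfl | rfl | rfl | rfl | rfl | rfl | rfl | rfl | rfl | rfl | rfl | rfl | rfl | rfl | rfl | rfl | rfl | rfl | rfl | rfl | rfl | rfl | rfl | 
    rfl | rfl | rfl | rfl | rfl | rfl | rfl | rfl | rfl | rfl | rfl | rfl | rfl | rfl | rfl | rfl | rfl | rfl | rfl | rfl | rfl | rfl | rfl | rfl | rfl | rfl | rfl | 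
    rfl | rfl | rfl | rfl | rfl | rfl | rfl | rfl | rfl | rfl | rfl | rfl | rfl | rfl | rfl | rfl | rfl | rfl | rfl | rfl | rfl | rfl | rfl | rfl | rfl | rfl | rfl 
  · exact cas_4227 h hl
  · exact cas_4131 h hl
  · exact cas_1059 h hl
  · exact cas_291 h hl
  · exact cas_12579 h hl
  · exact cas_16395 h hl
  · exact cas_4107 h hl
  · exact cas_1035 h hl
  · exact cas_33803 h hl
  · exact cas_267 h hl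
  · exact cas_16651 h hl
  · exact cas_33035 h hl
  · exact cas_12555 h hl
  · exact cas_16907 h hl
  · exact cas_4619 h hl
  · exact cas_1547 h hl
  · exact cas_75 h hl
  · exact cas_32843 h hl
  · exact cas_4171 h hl
  · exact cas_12363 h hl
  · exact cas_14411 h hl
  · exact cas_587 h hl
  · exact cas_33355 h hl
  · exact cas_12875 h hl
  · exact cas_16587 h hl
  · exact cas_4299 h hl
  · exact cas_37067 h hl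
  · exact cas_1227 h hl
  · exact cas_33995 h hl
  · exact cas_13515 h hl
  · exact cas_459 h hl
  · exact cas_16843 h hl
  · exact cas_33227 h hl
  · exact cas_12747 h hl
  · exact cas_17099 h hl
  · exact cas_4811 h hl
  · exact cas_37579 h hl
  · exact cas_29387 h hl
  · exact cas_27 h hl
  · exact cas_32795 h hl
  · exact cas_12315 h hl
  · exact cas_45083 h hl
  · exact cas_1051 h hl
  · exact cas_33819 h hl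
  · exact cas_13339 h hl
  · exact cas_14619 h hl
  · exact cas_539 h hl
  · exact cas_33307 h hl
  · exact cas_12827 h hl
  · exact cas_45595 h hl
  · exact cas_1563 h hl
  · exact cas_34331 h hl
  · exact cas_13851 h hl
  · exact cas_219 h hl
  · exact cas_32987 h hl
  · exact cas_12507 h hl
  · exact cas_45275 h hl
  · exact cas_1243 h hl
  · exact cas_34011 h hl
  · exact cas_13531 h hl
  · exact cas_46299 h hl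
  · exact cas_731 h hl
  · exact cas_33499 h hl
  · exact cas_13019 h hl
  · exact cas_45787 h hl
  · exact cas_1755 h hl
  · exact cas_34523 h hl
  · exact cas_14043 h hl
  · exact cas_46811 h hl
  · exact cas_112347 h hl
  · exact cas_16699 h hl
  · exact cas_65659 h hl
  · exact cas_98939 h hl
  · exact cas_9743 h hl
  · exact cas_33935 h hl
  · exact cas_37263 h hl
  · exact cas_132143 h hl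
  · exact cas_135471 h hl
  · exact cas_137519 h hl
  · exact cas_147567 h hl
  · exact cas_149615 h hl

/-- **three effective divisors on the cyclic group of order nine** -/
theorem H9.main (h : H9 D E G d) : Con9 D E G :=
  h.red fun h c hc hl => h.normal c hc hl

end Pool.Agent.UP9
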