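import Pool.Agent.Lib_helper40.UP9.Cas9

/-!
# Three effective divisors on the cyclic group of order nine
-/

set_option autoImplicit false

namespace Pool.Agent.UP

variable {D E G : ZMod 9 → ℤ} {d : ℤ}

/-- **three effective divisors on the cyclic group of order nine** -/
theorem Tr.main9 (h : Tr D E G d)
    (hRH : d ≤ (Finset.univ.filter fun x => D x ≠ 0).card +
      (Finset.univ.filter fun x => E x ≠ 0).card + (Finset.univ.filter fun x => G x ≠ 0).card)
    (h1 : ∑ x : ZMod 9, (D x - G x) • x = 0) (h2 : ∑ x : ZMod 9, (E x - G x) • x = 0) :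
    (∃ (S p q r : ZMod 9) (n : ℤ), 0 < n ∧ (∀ x, D x = n * mz S p x) ∧
      (∀ x, E x = n * mz S r x) ∧ (∀ x, G x = n * mz S q x)) ∨
    ∃ t : ZMod 9, UP9.Six (fun x => D (x + t)) (fun x => E (x + t)) (fun x => G (x + t)) :=
  UP9.H9.main ⟨h, by rw [Fintype.card_subtype, Fintype.card_subtype, Fintype.card_subtype]; exact hRH,
    h1, h2⟩

end Pool.Agent.UP
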